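import Mathlib

/-!
# Mixed symmetrised minors
-/

set_option autoImplicit false
set_option linter.unusedSectionVars false
set_option linter.unusedSimpArgs false

namespace Pool.Agent.helper61.QC

open Matrix Equiv

variable {n : Type*} [Fintype n] [DecidableEq n] {E : Type*} [Ring E]

/-- the mixed version of `altD` -/
def altG (k : ℕ) (A : Fin k → Matrix n n E) : E :=
  ∑ i : Fin k → n, ∑ τ : Perm (Fin k),
    (Perm.sign τ : ℤ) • (List.ofFn fun j => A j (i j) (i (τ j))).prod

theorem altG_inner_eq_zero {k : ℕ} (A : Fin k → Matrix n n E) {i : Fin k → n}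
    (hi : ¬ Function.Injective i) :
    ∑ τ : Perm (Fin k), (Perm.sign τ : ℤ) • (List.ofFn fun j => A j (i j) (i (τ j))).prod = 0 := by
  obtain ⟨p, q, hpq, hne⟩ : ∃ p q, i p = i q ∧ p ≠ q := by
    simpa [Function.Injective, not_forall] using hi
  have hsw : ∀ x, i (swap p q x) = i x := by
    intro x
    rcases eq_or_ne x p with rfl | h1
    · rw [swap_apply_left, hpq]
    · rcases eq_or_ne x q with rfl | h2
      · rw [swap_apply_right, hpq]
      · rw [swap_apply_of_ne_of_ne h1 h2]
  refine Finset.sum_involution (fun τ _ => swap p q * τ) ?_ ?_ ?_ ?_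
  · intro τ _
    rw [Perm.sign_mul, Perm.sign_swap hne]
    simp only [Perm.mul_apply, hsw]
    simp
  · intro τ _ _ h
    exact hne (swap_eq_one_iff.1 (mul_eq_right.1 h))
  · intro τ _
    exact Finset.mem_univ _
  · intro τ _
    rw [← mul_assoc, Equiv.swap_mul_self, one_mul]

theorem altG_cons (k : ℕ) (A : Fin k → Matrix n n E) :
    altG (k + 1) (Fin.cons 1 A : Fin (k + 1) → Matrix n n E) =
      ((Fintype.card n : ℤ) - k) • altG k A := by
  rw [altG, altG]
  have h1 : ∀ i : Fin (k + 1) → n, ∑ τ : Perm (Fin (k + 1)), (Perm.sign τ : ℤ) •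
      (List.ofFn fun j => (Fin.cons 1 A : Fin (k + 1) → Matrix n n E) j (i j) (i (τ j))).prod =
      ∑ e : Perm (Fin k), ∑ p : Fin (k + 1), ((if p = 0 then 1 else -1) * (Perm.sign e : ℤ)) •
        (if i 0 = i p then (List.ofFn fun j : Fin k => A j (i j.succ) (i (e j).succ)).prod
          else 0) := by
    intro i
    rw [Finset.sum_comm, ← Fintype.sum_prod_type' (f := fun (p : Fin (k + 1)) (e : Perm (Fin k)) =>
      ((if p = 0 then 1 else -1) * (Perm.sign e : ℤ)) •
        (if i 0 = i p then (List.ofFn fun j : Fin k => A j (i j.succ) (i (e j).succ)).prod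
          else 0))]
    refine Fintype.sum_equiv Perm.decomposeFin _ _ fun τ => ?_
    obtain ⟨x, rfl⟩ := Perm.decomposeFin.symm.surjective τ
    obtain ⟨p, e⟩ := x
    rw [Equiv.apply_symm_apply, Perm.decomposeFin.symm_sign]
    congr 1
    · split_ifs <;> simp
    · rw [List.ofFn_succ, List.prod_cons, Perm.decomposeFin_symm_apply_zero, Fin.cons_zero,
        Matrix.one_apply]
      split_ifs with h
      · rw [one_mul]
        congr 2
        funext j
        rw [Fin.cons_succ, Perm.decomposeFin_symm_apply_succ]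
        congr 1
        rcases eq_or_ne (e j).succ p with h2 | h2
        · rw [h2, swap_apply_right, h]
        · rw [swap_apply_of_ne_of_ne (Fin.succ_ne_zero _) h2]
      · rw [zero_mul]
  simp only [h1]
  have h2 : ∀ f : (Fin (k + 1) → n) → E, ∑ i, f i = ∑ i' : Fin k → n, ∑ i0 : n,
      f (Fin.cons i0 i') := by
    intro f
    rw [Finset.sum_comm, ← Fintype.sum_prod_type']
    exact (Fintype.sum_equiv (Fin.consEquiv fun _ => n) _ _ fun x => rfl).symm
  rw [h2]
  rw [Finset.smul_sum]
  refine Finset.sum_congr rfl fun i' _ => ?_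
  rw [Finset.sum_comm, Finset.smul_sum]
  refine Finset.sum_congr rfl fun e _ => ?_
  rw [Finset.sum_comm]
  simp only [Fin.cons_zero, Fin.cons_succ]
  rw [Fin.sum_univ_succ]
  simp only [if_true, Fin.cons_zero, Fin.cons_succ, Fin.succ_ne_zero, if_false]
  have h3 : ∀ l : Fin k, ∑ x : n, (-1 * (Perm.sign e : ℤ)) •
      (if x = i' l then (List.ofFn fun j : Fin k => A j (i' j) (i' (e j))).prod else 0) =
      (-1 * (Perm.sign e : ℤ)) • (List.ofFn fun j : Fin k => A j (i' j) (i' (e j))).prod := by
    intro l
    rw [← Finset.smul_sum, Finset.sum_ite_eq' Finset.univ (i' l), if_pos (Finset.mem_univ _)]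
  simp only [h3]
  rw [Finset.sum_const, Finset.sum_const, Finset.card_univ, Finset.card_univ, Fintype.card_fin]
  rw [← natCast_zsmul, ← natCast_zsmul, smul_smul, smul_smul, smul_smul, ← add_smul]
  congr 1
  ring

/-- `altG` from a function with the symmetry of a product of two alternating functions -/
theorem altG_of_beta {K : Type*} [Field K] [Algebra K E] {N : ℕ} (hN : Fintype.card n = N)
    (β : (Fin N → n) → (Fin N → n) → K) (c : K)
    (h1 : ∀ a b, ¬ Function.Injective a → β a b = 0)
    (h2 : ∀ a b, ¬ Function.Injective b → β a b = 0)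
    (h3 : ∀ (a : Fin N → n) (τ : Perm (Fin N)), Function.Injective a →
      β a (a ∘ τ) = ((Perm.sign τ : ℤ) : K) * c)
    (A : Fin N → Matrix n n E) :
    ∑ a : Fin N → n, ∑ b : Fin N → n, β a b • (List.ofFn fun j => A j (a j) (b j)).prod =
      c • altG N A := by
  rw [altG, Finset.smul_sum]
  refine Finset.sum_congr rfl fun a _ => ?_
  by_cases ha : Function.Injective a
  · have hbij : Function.Bijective a :=
      (Fintype.bijective_iff_injective_and_card a).2 ⟨ha, by rw [Fintype.card_fin, hN]⟩
    rw [Finset.smul_sum]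
    symm
    refine Fintype.sum_of_injective (fun τ : Perm (Fin N) => a ∘ τ) ?_ _ _ ?_ ?_
    · intro τ τ' h
      refine Equiv.ext fun x => ha ?_
      exact congrFun h x
    · intro b hb
      have hb' : ¬ Function.Injective b := by
        intro hbi
        apply hb
        refine ⟨(Equiv.ofBijective (fun x => (Equiv.ofBijective a hbij).symm (b x)) ?_), ?_⟩
        · exact Finite.injective_iff_bijective.1 fun x y h =>
            hbi ((Equiv.ofBijective a hbij).symm.injective h)
        · funext x
          exact (Equiv.ofBijective a hbij).apply_symm_apply (b x)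
      rw [h2 a b hb', zero_smul]
    · intro τ
      rw [h3 a τ ha, mul_comm, mul_smul]
      congr 1
      rw [Int.cast_smul_eq_zsmul]
      rfl
  · rw [altG_inner_eq_zero A ha, smul_zero]
    refine Finset.sum_eq_zero fun b _ => ?_
    rw [h1 a b ha, zero_smul]

end Pool.Agent.helper61.QC
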