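import Mathlib

/-!
# Calculus with finitely many odd variables

`Lam K I` is the exterior algebra on the generators `x a`, `a ∈ I`; `dd a` is the odd derivative.
-/

set_option autoImplicit false
set_option linter.unusedSectionVars false
set_option linter.unusedSimpArgs false

namespace Pool.Agent.helper61.QC

variable (K : Type*) [Field K] (I : Type*) [Fintype I] [DecidableEq I]

/-- the exterior algebra -/
abbrev Lam : Type _ := ExteriorAlgebra K (I → K)

variable {K I}

/-- the generators -/
noncomputable def xg (a : I) : Lam K I := ExteriorAlgebra.ι K (Pi.single a 1)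

/-- the odd derivatives -/
noncomputable def dd (a : I) : Lam K I →ₗ[K] Lam K I :=
  CliffordAlgebra.contractLeft (Q := (0 : QuadraticForm K (I → K))) (LinearMap.proj a)

/-- the parity automorphism -/
noncomputable def gr : Lam K I →ₐ[K] Lam K I :=
  CliffordAlgebra.involute (Q := (0 : QuadraticForm K (I → K)))

theorem gr_xg (a : I) : gr (xg a : Lam K I) = -xg a :=
  CliffordAlgebra.involute_ι (Q := (0 : QuadraticForm K (I → K))) _

theorem dd_xg_mul (a b : I) (Q : Lam K I) :
    dd a (xg b * Q) = (if a = b then Q else 0) - xg b * dd a Q := by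
  have h := CliffordAlgebra.contractLeft_ι_mul (Q := (0 : QuadraticForm K (I → K)))
    (LinearMap.proj a) (Pi.single b 1) Q
  refine h.trans ?_
  congr 1
  by_cases hab : a = b
  · subst hab
    simp
  · simp [hab, Pi.single_apply]

theorem dd_algebraMap (a : I) (c : K) : dd a (algebraMap K (Lam K I) c) = 0 :=
  CliffordAlgebra.contractLeft_algebraMap (d := LinearMap.proj a)
    (0 : QuadraticForm K (I → K)) c

theorem dd_one (a : I) : dd a (1 : Lam K I) = 0 := by
  rw [← map_one (algebraMap K (Lam K I)), dd_algebraMap]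

theorem dd_xg (a b : I) : dd a (xg b : Lam K I) = if a = b then 1 else 0 := by
  have h := dd_xg_mul a b (1 : Lam K I)
  rwa [mul_one, dd_one, mul_zero, sub_zero] at h

theorem dd_comm (a b : I) (Q : Lam K I) : dd a (dd b Q) = -dd b (dd a Q) :=
  CliffordAlgebra.contractLeft_comm (Q := (0 : QuadraticForm K (I → K)))
    (LinearMap.proj a) (LinearMap.proj b) Q

theorem dd_dd (a : I) (Q : Lam K I) : dd a (dd a Q) = 0 :=
  CliffordAlgebra.contractLeft_contractLeft (Q := (0 : QuadraticForm K (I → K)))
    (LinearMap.proj a) Q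

theorem xg_mul_xg (a b : I) : (xg a : Lam K I) * xg b = -(xg b * xg a) :=
  eq_neg_of_add_eq_zero_left (ExteriorAlgebra.ι_add_mul_swap _ _)

theorem xg_sq (a : I) : (xg a : Lam K I) * xg a = 0 := ExteriorAlgebra.ι_sq_zero _

theorem ι_eq (m : I → K) : ExteriorAlgebra.ι K m = ∑ a, m a • (xg a : Lam K I) := by
  conv_lhs => rw [pi_eq_sum_univ' m]
  rw [map_sum]
  refine Finset.sum_congr rfl fun a _ => ?_
  rw [map_smul, xg]

/-- a subspace which contains `1` and is closed under multiplication by the generators -/
theorem eq_top_of_left {W : Submodule K (Lam K I)} (h1 : 1 ∈ W)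
    (hx : ∀ a, ∀ Q ∈ W, xg a * Q ∈ W) : W = ⊤ := by
  rw [eq_top_iff]
  rintro Q -
  induction Q using CliffordAlgebra.left_induction with
  | algebraMap c =>
    rw [Algebra.algebraMap_eq_smul_one]
    exact W.smul_mem c h1
  | add P Q hP hQ => exact W.add_mem hP hQ
  | ι_mul Q m hQ =>
    have h : CliffordAlgebra.ι (0 : QuadraticForm K (I → K)) m = ∑ a, m a • (xg a : Lam K I) :=
      ι_eq m
    rw [h, Finset.sum_mul]
    refine sum_mem fun a _ => ?_
    rw [smul_mul_assoc]
    exact W.smul_mem _ (hx a Q hQ)

/-- induction over the generators -/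
theorem left_ind {p : Lam K I → Prop} (h1 : p 1) (hadd : ∀ P Q, p P → p Q → p (P + Q))
    (hsmul : ∀ (c : K) Q, p Q → p (c • Q)) (hx : ∀ a Q, p Q → p (xg a * Q)) (Q : Lam K I) :
    p Q := by
  have h := eq_top_of_left (W := { carrier := {Q | p Q}, add_mem' := fun {P Q} => hadd P Q,
                                   zero_mem' := by have := hsmul 0 1 h1; rwa [zero_smul] at this,
                                   smul_mem' := fun c Q => hsmul c Q }) h1 hx
  have h2 : Q ∈ (⊤ : Submodule K (Lam K I)) := Submodule.mem_top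
  rw [← h] at h2
  exact h2

theorem xg_mul_gr (a : I) (Q : Lam K I) : xg a * gr Q = Q * xg a := by
  induction Q using left_ind with
  | h1 => rw [map_one, mul_one, one_mul]
  | hadd P Q hP hQ => rw [map_add, mul_add, add_mul, hP, hQ]
  | hsmul c Q hQ => rw [map_smul, mul_smul_comm, smul_mul_assoc, hQ]
  | hx b Q hQ =>
    rw [map_mul, gr_xg, ← mul_assoc, mul_neg, xg_mul_xg, neg_neg, mul_assoc, hQ, mul_assoc]

/-- odd elements -/
theorem odd_mul_gr {y : Lam K I} (hy : gr y = -y) (Q : Lam K I) : y * gr Q = Q * y := by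
  induction Q using left_ind with
  | h1 => rw [map_one, mul_one, one_mul]
  | hadd P Q hP hQ => rw [map_add, mul_add, add_mul, hP, hQ]
  | hsmul c Q hQ => rw [map_smul, mul_smul_comm, smul_mul_assoc, hQ]
  | hx b Q hQ =>
    have h := xg_mul_gr b y
    rw [hy, mul_neg] at h
    rw [map_mul, gr_xg, ← mul_assoc, mul_neg, ← h, neg_neg, mul_assoc, hQ, mul_assoc]

/-- even elements are central -/
theorem even_comm {P : Lam K I} (hP : gr P = P) (Q : Lam K I) : P * Q = Q * P := by
  induction Q using left_ind with
  | h1 => rw [mul_one, one_mul]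
  | hadd Q Q' h h' => rw [mul_add, add_mul, h, h']
  | hsmul c Q hQ => rw [mul_smul_comm, smul_mul_assoc, hQ]
  | hx b Q hQ =>
    have h := xg_mul_gr b P
    rw [hP] at h
    rw [← mul_assoc, ← h, mul_assoc, hQ, mul_assoc]

theorem dd_gr (a : I) (Q : Lam K I) : dd a (gr Q) = -gr (dd a Q) := by
  induction Q using left_ind with
  | h1 => rw [map_one, dd_one, map_zero, neg_zero]
  | hadd P Q hP hQ => rw [map_add, map_add, map_add, map_add, hP, hQ, neg_add]
  | hsmul c Q hQ => rw [map_smul, map_smul, map_smul, map_smul, hQ, smul_neg]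
  | hx b Q hQ =>
    rw [map_mul, gr_xg, neg_mul, map_neg, dd_xg_mul, dd_xg_mul, hQ, map_sub, map_mul, gr_xg]
    split_ifs
    · simp
    · simp

theorem gr_dd (a : I) (Q : Lam K I) : gr (dd a Q) = -dd a (gr Q) := by rw [dd_gr, neg_neg]

/-- the Leibniz rule -/
theorem dd_mul (a : I) (P Q : Lam K I) : dd a (P * Q) = dd a P * Q + gr P * dd a Q := by
  induction P using left_ind with
  | h1 => rw [one_mul, dd_one, zero_mul, map_one, one_mul, zero_add]
  | hadd P P' hP hP' => rw [add_mul, map_add, map_add, map_add, hP, hP', add_mul, add_mul]; abel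
  | hsmul c P hP =>
    rw [smul_mul_assoc, map_smul, hP, map_smul, map_smul, smul_mul_assoc, smul_mul_assoc,
      smul_add]
  | hx b P hP =>
    rw [mul_assoc, dd_xg_mul, hP, dd_xg_mul, map_mul, gr_xg]
    split_ifs
    · noncomm_ring
    · noncomm_ring

/-! ## even derivations -/

/-- even derivations of `Lam K I` -/
structure EvDer (K : Type*) [Field K] (I : Type*) where
  /-- the underlying linear map -/
  lin : Lam K I →ₗ[K] Lam K I
  /-- the Leibniz rule -/
  leib : ∀ P Q, lin (P * Q) = lin P * Q + P * lin Q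
  /-- it preserves the parity -/
  even : ∀ P, lin (gr P) = gr (lin P)

/-- the even derivation with the given odd values on the generators -/
noncomputable def der (v : I → Lam K I) (hv : ∀ a, gr (v a) = -v a) : EvDer K I where
  lin := ∑ a, LinearMap.mulLeft K (v a) ∘ₗ dd a
  leib := fun P Q => by
    simp only [LinearMap.sum_apply, LinearMap.comp_apply, LinearMap.mulLeft_apply]
    rw [Finset.sum_mul, Finset.mul_sum, ← Finset.sum_add_distrib]
    refine Finset.sum_congr rfl fun a _ => ?_
    rw [dd_mul, mul_add, ← mul_assoc, ← mul_assoc, odd_mul_gr (hv a), mul_assoc P]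
  even := fun P => by
    simp only [LinearMap.sum_apply, LinearMap.comp_apply, LinearMap.mulLeft_apply]
    rw [map_sum]
    refine Finset.sum_congr rfl fun a _ => ?_
    rw [map_mul, hv, dd_gr, neg_mul, mul_neg]

theorem der_apply (v : I → Lam K I) (hv : ∀ a, gr (v a) = -v a) (Q : Lam K I) :
    (der v hv).lin Q = ∑ a, v a * dd a Q := by
  simp only [der, LinearMap.sum_apply, LinearMap.comp_apply, LinearMap.mulLeft_apply]

theorem der_xg (v : I → Lam K I) (hv : ∀ a, gr (v a) = -v a) (b : I) :
    (der v hv).lin (xg b) = v b := by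
  rw [der_apply, Finset.sum_eq_single b]
  · rw [dd_xg, if_pos rfl, mul_one]
  · intro a _ h
    rw [dd_xg, if_neg h, mul_zero]
  · intro h
    exact absurd (Finset.mem_univ b) h

end Pool.Agent.helper61.QC
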