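import Mathlib
import Pool.Agent.helper61.QC.Odd

/-!
# The Berezin integral and its invariance
-/

set_option autoImplicit false
set_option linter.unusedSectionVars false
set_option linter.unusedSimpArgs false

namespace Pool.Agent.helper61.QC

variable {K : Type*} [Field K] {I : Type*} [Fintype I] [DecidableEq I]

/-! ## the filtration by the degree -/

/-- the elements of degree `1` -/
noncomputable def deg1 (K : Type*) [Field K] (I : Type*) [Fintype I] [DecidableEq I] :
    Submodule K (Lam K I) := Submodule.span K (Set.range fun a : I => (xg a : Lam K I))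

/-- the elements of degree at least `k` -/
noncomputable def Fl (K : Type*) [Field K] (I : Type*) [Fintype I] [DecidableEq I] :
    ℕ → Submodule K (Lam K I)
  | 0 => ⊤
  | k + 1 => deg1 K I * Fl K I k

theorem xg_mem (a : I) : (xg a : Lam K I) ∈ deg1 K I := Submodule.subset_span ⟨a, rfl⟩

theorem Fl_anti_succ (k : ℕ) : Fl K I (k + 1) ≤ Fl K I k := by
  induction k with
  | zero => exact le_top
  | succ k ih => exact mul_le_mul_right ih _

theorem Fl_anti {k l : ℕ} (h : k ≤ l) : Fl K I l ≤ Fl K I k := by
  induction l, h using Nat.le_induction with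
  | base => exact le_rfl
  | succ l _ ih => exact (Fl_anti_succ l).trans ih

theorem xg_mul_mem (a : I) {k : ℕ} {Q : Lam K I} (h : Q ∈ Fl K I k) :
    xg a * Q ∈ Fl K I (k + 1) := Submodule.mul_mem_mul (xg_mem a) h

/-- induction over the filtration -/
theorem Fl_ind {p : Lam K I → Prop} {k : ℕ} (hadd : ∀ P Q, p P → p Q → p (P + Q))
    (h0 : p 0) (hsmul : ∀ (c : K) Q, p Q → p (c • Q)) (hx : ∀ a, ∀ Q ∈ Fl K I k, p (xg a * Q))
    {Q : Lam K I} (hQ : Q ∈ Fl K I (k + 1)) : p Q := by
  refine Submodule.mul_induction_on hQ ?_ hadd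
  intro m hm n hn
  induction hm using Submodule.span_induction with
  | mem x hx' => obtain ⟨a, rfl⟩ := hx'; exact hx a n hn
  | zero => rw [zero_mul]; exact h0
  | add x y _ _ h1 h2 => rw [add_mul]; exact hadd _ _ h1 h2
  | smul c x _ h => rw [smul_mul_assoc]; exact hsmul _ _ h

theorem gr_mem {k : ℕ} {Q : Lam K I} (hQ : Q ∈ Fl K I k) : gr Q ∈ Fl K I k := by
  induction k generalizing Q with
  | zero => exact Submodule.mem_top
  | succ k ih =>
    refine Fl_ind (p := fun Q => gr Q ∈ Fl K I (k + 1)) ?_ ?_ ?_ ?_ hQ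
    · intro P Q hP hQ; rw [map_add]; exact add_mem hP hQ
    · rw [map_zero]; exact zero_mem _
    · intro c Q hQ; rw [map_smul]; exact Submodule.smul_mem _ _ hQ
    · intro a Q hQ
      rw [map_mul, gr_xg, neg_mul]
      exact neg_mem (xg_mul_mem a (ih hQ))

theorem mul_mem_Fl {k l : ℕ} {P Q : Lam K I} (hP : P ∈ Fl K I k) (hQ : Q ∈ Fl K I l) :
    P * Q ∈ Fl K I (k + l) := by
  induction k generalizing P with
  | zero =>
    rw [zero_add]
    clear hP
    induction P using left_ind with
    | h1 => rw [one_mul]; exact hQ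
    | hadd P P' h h' => rw [add_mul]; exact add_mem h h'
    | hsmul c P h => rw [smul_mul_assoc]; exact Submodule.smul_mem _ _ h
    | hx a P h => rw [mul_assoc]; exact Fl_anti_succ _ (xg_mul_mem a h)
  | succ k ih =>
    refine Fl_ind (p := fun P => P * Q ∈ Fl K I (k + 1 + l)) ?_ ?_ ?_ ?_ hP
    · intro P P' hP hP'; rw [add_mul]; exact add_mem hP hP'
    · rw [zero_mul]; exact zero_mem _
    · intro c P hP; rw [smul_mul_assoc]; exact Submodule.smul_mem _ _ hP
    · intro a P hP
      rw [mul_assoc, add_right_comm]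
      exact xg_mul_mem a (ih hP)

theorem dd_mem (a : I) {k : ℕ} {Q : Lam K I} (hQ : Q ∈ Fl K I (k + 1)) : dd a Q ∈ Fl K I k := by
  induction k generalizing Q with
  | zero => exact Submodule.mem_top
  | succ k ih =>
    refine Fl_ind (p := fun Q => dd a Q ∈ Fl K I (k + 1)) ?_ ?_ ?_ ?_ hQ
    · intro P Q hP hQ; rw [map_add]; exact add_mem hP hQ
    · rw [map_zero]; exact zero_mem _
    · intro c Q hQ; rw [map_smul]; exact Submodule.smul_mem _ _ hQ
    · intro b Q hQ
      rw [dd_xg_mul]
      refine sub_mem ?_ (xg_mul_mem b (ih hQ))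
      split_ifs
      · exact hQ
      · exact zero_mem _

/-! ## the augmentation and the Berezin integral -/

/-- the augmentation -/
noncomputable def aug : Lam K I →ₐ[K] K := ExteriorAlgebra.algebraMapInv

theorem aug_xg (a : I) : aug (xg a : Lam K I) = 0 := by
  rw [aug, ExteriorAlgebra.algebraMapInv, xg, ExteriorAlgebra.lift_ι_apply]
  rfl

theorem aug_Fl {Q : Lam K I} (hQ : Q ∈ Fl K I 1) : aug Q = 0 := by
  refine Fl_ind (p := fun Q => aug Q = 0) ?_ ?_ ?_ ?_ hQ
  · intro P Q hP hQ; rw [map_add, hP, hQ, add_zero]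
  · rw [map_zero]
  · intro c Q hQ; rw [map_smul, hQ, smul_zero]
  · intro a Q _; rw [map_mul, aug_xg, zero_mul]

/-- the product of the derivatives in a list of variables -/
noncomputable def topD (l : List I) : Lam K I →ₗ[K] Lam K I :=
  (l.map fun a => (dd a : Module.End K (Lam K I))).prod

theorem topD_nil (Q : Lam K I) : topD [] Q = Q := rfl

theorem topD_cons (a : I) (l : List I) (Q : Lam K I) : topD (a :: l) Q = dd a (topD l Q) := by
  rw [topD, List.map_cons, List.prod_cons, Module.End.mul_apply]
  rfl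

theorem topD_append (l l' : List I) (Q : Lam K I) : topD (l ++ l') Q = topD l (topD l' Q) := by
  induction l with
  | nil => rfl
  | cons a l ih => rw [List.cons_append, topD_cons, topD_cons, ih]

/-- the Berezin integral -/
noncomputable def ber (l : List I) : Lam K I →ₗ[K] K := aug.toLinearMap ∘ₗ topD l

theorem ber_apply (l : List I) (Q : Lam K I) : ber l Q = aug (topD l Q) := rfl

theorem topD_dd {l : List I} {a : I} (ha : a ∈ l) (Q : Lam K I) : topD l (dd a Q) = 0 := by
  induction l with
  | nil => simp at ha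
  | cons b l ih =>
    rw [topD_cons]
    by_cases hal : a ∈ l
    · rw [ih hal, map_zero]
    · have hab : a = b := by simpa [hal] using ha
      subst hab
      clear ih ha hal
      have h : ∀ l : List I, ∃ s : K, topD l (dd a Q) = s • dd a (topD l Q) := by
        intro l
        induction l with
        | nil => exact ⟨1, by rw [one_smul]; rfl⟩
        | cons c l ih =>
          obtain ⟨s, hs⟩ := ih
          exact ⟨-s, by rw [topD_cons, hs, map_smul, topD_cons, dd_comm, smul_neg, neg_smul]⟩
      obtain ⟨s, hs⟩ := h l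
      rw [hs, map_smul, dd_dd, smul_zero]

theorem ber_dd {l : List I} {a : I} (ha : a ∈ l) (Q : Lam K I) : ber l (dd a Q) = 0 := by
  rw [ber_apply, topD_dd ha, map_zero]

theorem topD_Fl (l : List I) {k : ℕ} {Q : Lam K I} (hQ : Q ∈ Fl K I (l.length + k)) :
    topD l Q ∈ Fl K I k := by
  induction l generalizing k with
  | nil => rw [List.length_nil, zero_add] at hQ; exact hQ
  | cons a l ih =>
    rw [topD_cons]
    refine dd_mem a (ih ?_)
    rw [List.length_cons] at hQ
    rw [show l.length + (k + 1) = l.length + 1 + k by ring]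
    exact hQ

theorem ber_Fl (l : List I) {Q : Lam K I} (hQ : Q ∈ Fl K I (l.length + 1)) : ber l Q = 0 :=
  aug_Fl (topD_Fl l hQ)

/-- the integral of an even derivation -/
theorem ber_der (l : List I) (hl : ∀ a, a ∈ l) (v : I → Lam K I) (hv : ∀ a, gr (v a) = -v a)
    (Q : Lam K I) : ber l ((der v hv).lin Q) = ber l ((∑ a, dd a (v a)) * Q) := by
  rw [der_apply, Finset.sum_mul, map_sum, map_sum]
  refine Finset.sum_congr rfl fun a _ => ?_
  have h := dd_mul a (v a) Q
  rw [hv, neg_mul] at h
  have h2 : v a * dd a Q = dd a (v a) * Q - dd a (v a * Q) := by rw [h]; abel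
  rw [h2, map_sub, ber_dd (hl a), sub_zero]

end Pool.Agent.helper61.QC
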