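import Mathlib
import Pool.Agent.helper61.QC.OddB

/-!
# Invariance of the Berezin integral
-/

set_option autoImplicit false
set_option linter.unusedSectionVars false
set_option linter.unusedSimpArgs false

namespace Pool.Agent.helper61.QC

variable {K : Type*} [Field K] {I : Type*} [Fintype I] [DecidableEq I]

/-- the Euler derivation -/
noncomputable def Eu : EvDer K I := der xg gr_xg

theorem Eu_xg (a : I) : (Eu (K := K) (I := I)).lin (xg a) = xg a := der_xg _ _ a

theorem leib_one {W : Lam K I →ₗ[K] Lam K I} (hW : ∀ P Q, W (P * Q) = W P * Q + P * W Q) :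
    W 1 = 0 := by
  have h := hW 1 1
  rw [mul_one, mul_one, one_mul] at h
  exact left_eq_add.1 h

theorem ber_Eu (l : List I) (hl : ∀ a, a ∈ l) (Q : Lam K I) :
    ber l (Eu.lin Q) = (Fintype.card I : K) * ber l Q := by
  rw [Eu, ber_der l hl]
  have h : ∑ a : I, dd a (xg a : Lam K I) = algebraMap K (Lam K I) (Fintype.card I) := by
    simp only [dd_xg, if_true, Finset.sum_const, Finset.card_univ, nsmul_eq_mul, mul_one,
      map_natCast]
  rw [h, ← Algebra.smul_def, map_smul, smul_eq_mul]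

/-- the elements of degree `k` -/
noncomputable def Hg (K : Type*) [Field K] (I : Type*) [Fintype I] [DecidableEq I] :
    ℕ → Submodule K (Lam K I)
  | 0 => Submodule.span K {1}
  | k + 1 => deg1 K I * Hg K I k

theorem Hg_ind {p : Lam K I → Prop} {k : ℕ} (hadd : ∀ P Q, p P → p Q → p (P + Q))
    (h0 : p 0) (hsmul : ∀ (c : K) Q, p Q → p (c • Q)) (hx : ∀ a, ∀ Q ∈ Hg K I k, p (xg a * Q))
    {Q : Lam K I} (hQ : Q ∈ Hg K I (k + 1)) : p Q := by
  refine Submodule.mul_induction_on hQ ?_ hadd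
  intro m hm n hn
  induction hm using Submodule.span_induction with
  | mem x hx' => obtain ⟨a, rfl⟩ := hx'; exact hx a n hn
  | zero => rw [zero_mul]; exact h0
  | add x y _ _ h1 h2 => rw [add_mul]; exact hadd _ _ h1 h2
  | smul c x _ h => rw [smul_mul_assoc]; exact hsmul _ _ h

theorem iSup_Hg : ⨆ k, Hg K I k = ⊤ := by
  refine eq_top_of_left ?_ ?_
  · exact Submodule.mem_iSup_of_mem 0 (Submodule.mem_span_singleton_self 1)
  · intro a Q hQ
    refine Submodule.iSup_induction (motive := fun Q => xg a * Q ∈ ⨆ k, Hg K I k) _ hQ ?_ ?_ ?_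
    · intro k Q hQ
      exact Submodule.mem_iSup_of_mem (k + 1) (Submodule.mul_mem_mul (xg_mem a) hQ)
    · rw [mul_zero]; exact zero_mem _
    · intro P Q hP hQ; rw [mul_add]; exact add_mem hP hQ

theorem Hg_le_Fl (k : ℕ) : Hg K I k ≤ Fl K I k := by
  induction k with
  | zero => exact le_top
  | succ k ih => exact mul_le_mul_right ih _

theorem Eu_Hg {k : ℕ} {Q : Lam K I} (hQ : Q ∈ Hg K I k) : Eu.lin Q = (k : K) • Q := by
  induction k generalizing Q with
  | zero =>
    obtain ⟨c, rfl⟩ := Submodule.mem_span_singleton.1 hQ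
    rw [map_smul, leib_one Eu.leib, smul_zero, Nat.cast_zero, zero_smul]
  | succ k ih =>
    refine Hg_ind (p := fun Q => Eu.lin Q = ((k + 1 : ℕ) : K) • Q) ?_ ?_ ?_ ?_ hQ
    · intro P Q hP hQ; rw [map_add, hP, hQ, smul_add]
    · rw [map_zero, smul_zero]
    · intro c Q hQ; rw [map_smul, hQ, smul_comm]
    · intro a Q hQ
      rw [Eu.leib, Eu_xg, ih hQ, mul_smul_comm, Nat.cast_succ, add_smul, one_smul, add_comm]

theorem hom_sub_mem {φ : Lam K I →ₐ[K] Lam K I} (hφ : ∀ a, φ (xg a) - xg a ∈ Fl K I 2)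
    {k : ℕ} {Q : Lam K I} (hQ : Q ∈ Hg K I k) : φ Q - Q ∈ Fl K I (k + 1) := by
  induction k generalizing Q with
  | zero =>
    obtain ⟨c, rfl⟩ := Submodule.mem_span_singleton.1 hQ
    rw [map_smul, map_one, sub_self]
    exact zero_mem _
  | succ k ih =>
    refine Hg_ind (p := fun Q => φ Q - Q ∈ Fl K I (k + 1 + 1)) ?_ ?_ ?_ ?_ hQ
    · intro P Q hP hQ
      rw [map_add, add_sub_add_comm]
      exact add_mem hP hQ
    · rw [map_zero, sub_self]; exact zero_mem _
    · intro c Q hQ; rw [map_smul, ← smul_sub]; exact Submodule.smul_mem _ _ hQ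
    · intro a Q hQ
      have h1 : φ (xg a * Q) - xg a * Q = (φ (xg a) - xg a) * φ Q + xg a * (φ Q - Q) := by
        rw [map_mul]; noncomm_ring
      rw [h1]
      refine add_mem ?_ (xg_mul_mem a (ih hQ))
      have h2 : φ Q ∈ Fl K I k := by
        have := add_mem (Fl_anti_succ k (ih hQ)) (Hg_le_Fl k hQ)
        rwa [sub_add_cancel] at this
      have h3 := mul_mem_Fl (hφ a) h2
      rwa [show 2 + k = k + 1 + 1 by ring] at h3

/-- invariance of the Berezin integral under a substitution which is compatible with the Euler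
derivation up to a divergence free derivation -/
theorem ber_inv [CharZero K] (l : List I) (hl : ∀ a, a ∈ l) (hlen : l.length = Fintype.card I)
    (φ : Lam K I →ₐ[K] Lam K I) (hφ : ∀ a, φ (xg a) - xg a ∈ Fl K I 2)
    (W : Lam K I →ₗ[K] Lam K I) (hW : ∀ P Q, W (P * Q) = W P * Q + P * W Q)
    (hWb : ∀ Q, ber l (W Q) = 0)
    (hEu : ∀ a, Eu.lin (φ (xg a)) - φ (xg a) = W (φ (xg a))) (Q : Lam K I) :
    ber l (φ Q) = ber l Q := by
  have h1 : ∀ Q, Eu.lin (φ Q) - φ (Eu.lin Q) = W (φ Q) := by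
    intro Q
    induction Q using left_ind with
    | h1 => rw [map_one, leib_one Eu.leib, map_zero, leib_one hW, sub_zero]
    | hadd P Q hP hQ => rw [map_add, map_add, map_add, map_add, map_add, ← hP, ← hQ]; abel
    | hsmul c Q hQ =>
      rw [map_smul, map_smul, map_smul, map_smul, map_smul, ← hQ, smul_sub]
    | hx a Q hQ =>
      rw [map_mul, Eu.leib, Eu.leib, Eu_xg, hW, ← hQ, ← hEu, map_add, map_mul, map_mul]
      noncomm_ring
  have h2 : ∀ Q, (Fintype.card I : K) * ber l (φ Q) = ber l (φ (Eu.lin Q)) := by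
    intro Q
    have h := congrArg (ber l) (h1 Q)
    rw [hWb, map_sub, ber_Eu l hl] at h
    exact sub_eq_zero.1 h
  have h3 : ∀ k, ∀ Q ∈ Hg K I k, ber l (φ Q) = ber l Q := by
    intro k Q hQ
    by_cases hk : k = Fintype.card I
    · rw [← sub_eq_zero, ← map_sub]
      refine ber_Fl l ?_
      rw [hlen, ← hk]
      exact hom_sub_mem hφ hQ
    · have h4 : (Fintype.card I : K) - k ≠ 0 := by
        rw [sub_ne_zero]
        exact fun h => hk (Nat.cast_injective h).symm
      have h5 := h2 Q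
      rw [Eu_Hg hQ, map_smul, map_smul, smul_eq_mul, ← sub_eq_zero, ← sub_mul] at h5
      have h6 := ber_Eu l hl Q
      rw [Eu_Hg hQ, map_smul, smul_eq_mul, eq_comm, ← sub_eq_zero, ← sub_mul] at h6
      rw [(mul_eq_zero.1 h5).resolve_left h4, (mul_eq_zero.1 h6).resolve_left h4]
  have h4 : Q ∈ ⨆ k, Hg K I k := by rw [iSup_Hg]; exact Submodule.mem_top
  refine Submodule.iSup_induction (motive := fun Q => ber l (φ Q) = ber l Q) _ h4 h3 ?_ ?_
  · rw [map_zero]
  · intro P Q hP hQ; rw [map_add, map_add, map_add, hP, hQ]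

end Pool.Agent.helper61.QC
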