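import Mathlib
import Pool.Agent.helper61.QC.OddC

/-!
# The even part of the exterior algebra and matrices over it
-/

set_option autoImplicit false
set_option linter.unusedSectionVars false
set_option linter.unusedSimpArgs false

namespace Pool.Agent.helper61.QC

open Matrix

section Basic

variable (K : Type*) [Field K] (I : Type*) [Fintype I] [DecidableEq I]

/-- the even part -/
noncomputable def Ev : Subalgebra K (Lam K I) := AlgHom.equalizer gr (AlgHom.id K (Lam K I))

variable {K I}

theorem mem_Ev {P : Lam K I} : P ∈ Ev K I ↔ gr P = P := Iff.rfl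

theorem gr_coe (P : Ev K I) : gr (P : Lam K I) = P := P.2

theorem coe_comm (P : Ev K I) (Q : Lam K I) : (P : Lam K I) * Q = Q * P := even_comm P.2 Q

noncomputable instance : CommRing (Ev K I) :=
  { (Ev K I).toRing with mul_comm := fun P Q => Subtype.ext (coe_comm P Q) }

/-- product of two generators -/
noncomputable def xx (a b : I) : Ev K I := ⟨xg a * xg b, by
  rw [mem_Ev, map_mul, gr_xg, gr_xg, neg_mul_neg]⟩

theorem xx_coe (a b : I) : ((xx a b : Ev K I) : Lam K I) = xg a * xg b := rfl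

theorem xx_swap (a b : I) : (xx a b : Ev K I) = -xx b a :=
  Subtype.ext (xg_mul_xg a b)

/-- the odd derivative, as a derivation of the even part -/
noncomputable def dR (a : I) : Derivation K (Ev K I) (Lam K I) where
  toFun := fun P => dd a (P : Lam K I)
  map_add' := fun P Q => by rw [Subalgebra.coe_add, map_add]
  map_smul' := fun c P => by rw [Subalgebra.coe_smul, map_smul]; rfl
  map_one_eq_zero' := by
    show dd a ((1 : Ev K I) : Lam K I) = 0
    rw [Subalgebra.coe_one, dd_one]
  leibniz' := fun P Q => by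
    show dd a ((P * Q : Ev K I) : Lam K I) = (P : Lam K I) * dd a Q + (Q : Lam K I) * dd a P
    rw [Subalgebra.coe_mul, dd_mul, gr_coe, coe_comm Q, add_comm]

theorem dR_apply (a : I) (P : Ev K I) : dR a P = dd a (P : Lam K I) := rfl

/-- an even derivation restricts to the even part -/
noncomputable def EvDer.res (V : EvDer K I) : Derivation K (Ev K I) (Ev K I) where
  toFun := fun P => ⟨V.lin P, by rw [mem_Ev, ← V.even, gr_coe]⟩
  map_add' := fun P Q => Subtype.ext (by
    show V.lin ((P + Q : Ev K I) : Lam K I) = V.lin P + V.lin Q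
    rw [Subalgebra.coe_add, map_add])
  map_smul' := fun c P => Subtype.ext (by
    show V.lin ((c • P : Ev K I) : Lam K I) = c • V.lin P
    rw [Subalgebra.coe_smul, map_smul])
  map_one_eq_zero' := Subtype.ext (by
    show V.lin ((1 : Ev K I) : Lam K I) = 0
    rw [Subalgebra.coe_one, leib_one V.leib])
  leibniz' := fun P Q => Subtype.ext (by
    show V.lin ((P * Q : Ev K I) : Lam K I) = (P : Lam K I) * V.lin Q + (Q : Lam K I) * V.lin P
    rw [Subalgebra.coe_mul, V.leib, coe_comm Q, add_comm])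

theorem EvDer.res_coe (V : EvDer K I) (P : Ev K I) : (V.res P : Lam K I) = V.lin P := rfl

theorem odd_sq [CharZero K] {y : Lam K I} (hy : gr y = -y) : y * y = 0 := by
  have h := odd_mul_gr hy y
  rw [hy, mul_neg] at h
  have h2 : (2 : K) • (y * y) = 0 := by
    rw [two_smul]
    nth_rewrite 1 [← h]
    exact neg_add_cancel _
  exact (smul_eq_zero.1 h2).resolve_left two_ne_zero

/-- the algebra homomorphism with given odd values on the generators -/
noncomputable def hom [CharZero K] {I' : Type*} [Fintype I'] [DecidableEq I'] (y : I' → Lam K I)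
    (hy : ∀ a, gr (y a) = -y a) : Lam K I' →ₐ[K] Lam K I :=
  ExteriorAlgebra.lift K ⟨∑ a, (LinearMap.proj a).smulRight (y a), fun m => odd_sq (by
    simp only [LinearMap.sum_apply, LinearMap.smulRight_apply, LinearMap.proj_apply, map_sum,
      map_smul, hy, smul_neg, Finset.sum_neg_distrib])⟩

variable [CharZero K] {I' : Type*} [Fintype I'] [DecidableEq I']

theorem hom_xg (y : I' → Lam K I) (hy : ∀ a, gr (y a) = -y a) (a : I') :
    hom y hy (xg a) = y a := by
  rw [hom, xg, ExteriorAlgebra.lift_ι_apply]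
  simp only [LinearMap.sum_apply, LinearMap.smulRight_apply, LinearMap.proj_apply]
  rw [Finset.sum_eq_single a]
  · rw [Pi.single_eq_same, one_smul]
  · intro b _ h
    rw [Pi.single_eq_of_ne h, zero_smul]
  · intro h
    exact absurd (Finset.mem_univ a) h

theorem hom_gr (y : I' → Lam K I) (hy : ∀ a, gr (y a) = -y a) (P : Lam K I') :
    hom y hy (gr P) = gr (hom y hy P) := by
  induction P using left_ind with
  | h1 => rw [map_one, map_one, map_one]
  | hadd P Q hP hQ => rw [map_add, map_add, map_add, map_add, hP, hQ]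
  | hsmul c Q hQ => rw [map_smul, map_smul, map_smul, map_smul, hQ]
  | hx a Q hQ => rw [map_mul, map_mul, map_mul, map_mul, hQ, gr_xg, map_neg, hom_xg, hy]

/-- the homomorphism on the even parts -/
noncomputable def homE (y : I' → Lam K I) (hy : ∀ a, gr (y a) = -y a) : Ev K I' →ₐ[K] Ev K I :=
  ((hom y hy).comp (Ev K I').val).codRestrict (Ev K I) fun P => by
    rw [mem_Ev]
    show gr (hom y hy P) = hom y hy P
    rw [← hom_gr, gr_coe]

theorem homE_coe (y : I' → Lam K I) (hy : ∀ a, gr (y a) = -y a) (P : Ev K I') :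
    (homE y hy P : Lam K I) = hom y hy P := rfl

end Basic

section Mats

variable {K : Type*} [Field K] {n ρ : Type*} [Fintype n] [DecidableEq n] [Fintype ρ]
  [DecidableEq ρ] (J : Matrix n n K)

/-- `Σ = Cᵀ J C` -/
noncomputable def Sig : Matrix ρ ρ (Ev K (n × ρ)) :=
  Matrix.of fun r s => ∑ i, ∑ j, J i j • xx (i, r) (j, s)

theorem Sig_apply (r s : ρ) : Sig J r s = ∑ i, ∑ j, J i j • xx (K := K) (i, r) (j, s) := rfl

/-- the matrix `C Y Cᵀ J` -/
noncomputable def Th (Y : Matrix ρ ρ (Ev K (n × ρ))) : Matrix n n (Ev K (n × ρ)) :=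
  Matrix.of fun i j => ∑ r, ∑ s, Y r s * ∑ k, J k j • xx (i, r) (k, s)

theorem Th_apply (Y : Matrix ρ ρ (Ev K (n × ρ))) (i j : n) :
    Th J Y i j = ∑ r, ∑ s, Y r s * ∑ k, J k j • xx (i, r) (k, s) := rfl

theorem Th_add (Y Y' : Matrix ρ ρ (Ev K (n × ρ))) : Th J (Y + Y') = Th J Y + Th J Y' := by
  ext i j
  simp only [Th_apply, Matrix.add_apply, add_mul, Finset.sum_add_distrib]

theorem Th_smul (c : Ev K (n × ρ)) (Y : Matrix ρ ρ (Ev K (n × ρ))) :
    Th J (c • Y) = c • Th J Y := by
  ext i j
  simp only [Th_apply, Matrix.smul_apply, smul_eq_mul, mul_assoc, Finset.mul_sum]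

theorem Th_zero : Th J (0 : Matrix ρ ρ (Ev K (n × ρ))) = 0 := by
  ext i j
  simp only [Th_apply, Matrix.zero_apply, zero_mul, Finset.sum_const_zero]

theorem Th_sub (Y Y' : Matrix ρ ρ (Ev K (n × ρ))) : Th J (Y - Y') = Th J Y - Th J Y' := by
  ext i j
  simp only [Th_apply, Matrix.sub_apply, sub_mul, Finset.sum_sub_distrib]

/-- the matrix `C` -/
noncomputable def Cm (K : Type*) [Field K] (n ρ : Type*) [Fintype n] [DecidableEq n] [Fintype ρ]
    [DecidableEq ρ] : Matrix n ρ (Lam K (n × ρ)) := Matrix.of fun i r => xg (i, r)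

/-- the matrix `Cᵀ J` -/
noncomputable def Cs (ρ : Type*) [Fintype ρ] [DecidableEq ρ] : Matrix ρ n (Lam K (n × ρ)) :=
  Matrix.of fun r j => ∑ k, J k j • xg (k, r)

theorem Sig_coe : (Sig J : Matrix ρ ρ (Ev K (n × ρ))).map (Ev K (n × ρ)).val =
    Cs J ρ * Cm K n ρ := by
  ext1 r s
  rw [Matrix.map_apply, Sig_apply, Matrix.mul_apply, map_sum]
  simp only [map_sum, map_smul, Cs, Cm, Matrix.of_apply, Finset.sum_mul, smul_mul_assoc]
  exact Finset.sum_comm

theorem Th_coe (Y : Matrix ρ ρ (Ev K (n × ρ))) : (Th J Y).map (Ev K (n × ρ)).val =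
    Cm K n ρ * Y.map (Ev K (n × ρ)).val * Cs J ρ := by
  ext1 i j
  rw [Matrix.map_apply, Th_apply, Matrix.mul_apply, map_sum]
  simp only [Matrix.mul_apply, map_sum, map_smul, map_mul, Cs, Cm, Matrix.of_apply,
    Matrix.map_apply, Finset.sum_mul, Finset.mul_sum, smul_mul_assoc, mul_smul_comm]
  rw [Finset.sum_comm]
  refine Finset.sum_congr rfl fun s _ => ?_
  rw [Finset.sum_comm]
  refine Finset.sum_congr rfl fun k _ => ?_
  rw [Finset.smul_sum]
  refine Finset.sum_congr rfl fun r _ => ?_
  congr 1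
  have h := coe_comm (Y r s) (xg (i, r))
  show (Y r s : Lam K (n × ρ)) * (xg (i, r) * xg (k, s)) =
    xg (i, r) * (Y r s : Lam K (n × ρ)) * xg (k, s)
  rw [← mul_assoc, h]

theorem map_val_injective {a b : Type*} :
    Function.Injective fun M : Matrix a b (Ev K (n × ρ)) => M.map (Ev K (n × ρ)).val := by
  intro M N h
  ext1 i j
  exact Subtype.ext (congrFun (congrFun h i) j)

theorem Th_mul (Y Y' : Matrix ρ ρ (Ev K (n × ρ))) : Th J Y * Th J Y' = Th J (Y * Sig J * Y') := by
  apply map_val_injective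
  show (Th J Y * Th J Y').map (Ev K (n × ρ)).val = (Th J (Y * Sig J * Y')).map (Ev K (n × ρ)).val
  rw [Matrix.map_mul, Th_coe, Th_coe, Th_coe, Matrix.map_mul, Matrix.map_mul, Sig_coe]
  simp only [Matrix.mul_assoc]

theorem Sig_symm (hJ : Jᵀ = -J) : (Sig J : Matrix ρ ρ (Ev K (n × ρ)))ᵀ = Sig J := by
  ext1 r s
  rw [Matrix.transpose_apply, Sig_apply, Sig_apply, Finset.sum_comm]
  refine Finset.sum_congr rfl fun i _ => Finset.sum_congr rfl fun j _ => ?_
  have h : J j i = -J i j := congrFun (congrFun hJ i) j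
  rw [h, xx_swap, neg_smul, smul_neg, neg_neg]

end Mats

end Pool.Agent.helper61.QC
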