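import Mathlib
import Pool.Agent.helper61.QC.Even

/-!
# The Berezin integral of a product of functions of two disjoint sets of variables
-/

set_option autoImplicit false
set_option linter.unusedSectionVars false
set_option linter.unusedSimpArgs false

namespace Pool.Agent.helper61.QC

variable {K : Type*} [Field K] [CharZero K] {I I' I'' : Type*} [Fintype I] [DecidableEq I]
  [Fintype I'] [DecidableEq I'] [Fintype I''] [DecidableEq I'']

/-- the homomorphism induced by a map of the variables -/
noncomputable def emb (e : I' → I) : Lam K I' →ₐ[K] Lam K I :=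
  hom (fun a => xg (e a)) fun a => gr_xg (e a)

theorem emb_xg (e : I' → I) (a : I') : emb e (xg a : Lam K I') = xg (e a) := hom_xg _ _ a

theorem emb_gr (e : I' → I) (P : Lam K I') : emb e (gr P) = gr (emb e P) := hom_gr _ _ P

theorem dd_emb {e : I' → I} (he : Function.Injective e) (a : I') (Q : Lam K I') :
    dd (e a) (emb e Q) = emb e (dd a Q) := by
  induction Q using left_ind with
  | h1 => rw [map_one, dd_one, dd_one, map_zero]
  | hadd P Q hP hQ => simp only [map_add, hP, hQ]
  | hsmul c Q hQ => simp only [map_smul, hQ]
  | hx b Q hQ =>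
    rw [map_mul, emb_xg, dd_xg_mul, dd_xg_mul, hQ, map_sub, map_mul, emb_xg]
    simp only [he.eq_iff]
    split_ifs <;> simp

theorem dd_emb_zero {e : I' → I} {b : I} (hb : b ∉ Set.range e) (Q : Lam K I') :
    dd b (emb e Q) = 0 := by
  induction Q using left_ind with
  | h1 => rw [map_one, dd_one]
  | hadd P Q hP hQ => rw [map_add, map_add, hP, hQ, add_zero]
  | hsmul c Q hQ => rw [map_smul, map_smul, hQ, smul_zero]
  | hx a Q hQ =>
    rw [map_mul, emb_xg, dd_xg_mul, hQ, mul_zero, sub_zero, if_neg]
    rintro rfl
    exact hb ⟨a, rfl⟩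

theorem aug_emb (e : I' → I) (Q : Lam K I') : aug (emb e Q) = aug Q := by
  induction Q using left_ind with
  | h1 => rw [map_one, map_one, map_one]
  | hadd P Q hP hQ => rw [map_add, map_add, map_add, hP, hQ]
  | hsmul c Q hQ => rw [map_smul, map_smul, map_smul, hQ]
  | hx a Q hQ => rw [map_mul, map_mul, map_mul, emb_xg, aug_xg, aug_xg, zero_mul, zero_mul]

theorem topD_emb {e : I' → I} (he : Function.Injective e) (l : List I') (Q : Lam K I') :
    topD (l.map e) (emb e Q) = emb e (topD l Q) := by
  induction l with
  | nil => rfl
  | cons a l ih => rw [List.map_cons, topD_cons, topD_cons, ih, dd_emb he]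

theorem ber_emb {e : I' → I} (he : Function.Injective e) (l : List I') (Q : Lam K I') :
    ber (l.map e) (emb e Q) = ber l Q := by
  rw [ber_apply, ber_apply, topD_emb he, aug_emb]

/-- the product formula -/
theorem ber_mul {e : I' → I} {e' : I'' → I} (he : Function.Injective e)
    (he' : Function.Injective e') (hd : ∀ a b, e a ≠ e' b) (l : List I') (l' : List I'')
    {P : Lam K I'} (hP : gr P = P) (Q : Lam K I'') :
    ber (l.map e ++ l'.map e') (emb e P * emb e' Q) = ber l P * ber l' Q := by
  have h1 : ∀ (l' : List I'') (X : Lam K I),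
      topD (l'.map e') (emb e P * X) = emb e P * topD (l'.map e') X := by
    intro l' X
    induction l' with
    | nil => rfl
    | cons b l' ih =>
      rw [List.map_cons, topD_cons, topD_cons, ih, dd_mul, dd_emb_zero, zero_mul, zero_add,
        ← emb_gr, hP]
      rintro ⟨a, ha⟩
      exact hd a b ha
  have h2 : ∀ (l : List I') (X : Lam K I) (Y : Lam K I''),
      topD (l.map e) (X * emb e' Y) = topD (l.map e) X * emb e' Y := by
    intro l X Y
    induction l with
    | nil => rfl
    | cons a l ih =>
      rw [List.map_cons, topD_cons, topD_cons, ih, dd_mul, dd_emb_zero (e := e'), mul_zero,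
        add_zero]
      rintro ⟨b, hb⟩
      exact hd a b hb.symm
  rw [ber_apply, topD_append, h1, topD_emb he', h2, topD_emb he, map_mul, aug_emb, aug_emb,
    ber_apply, ber_apply]

end Pool.Agent.helper61.QC
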