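import Mathlib
import Pool.Agent.helper61.QC.OddC
import Pool.Agent.helper61.QC.AltG

/-!
# Berezin integrals of products of two families of odd elements
-/

set_option autoImplicit false
set_option linter.unusedSectionVars false
set_option linter.unusedSimpArgs false

namespace Pool.Agent.helper61.QC

open Matrix Equiv

variable {K : Type*} [Field K] {I : Type*} [Fintype I] [DecidableEq I]

/-- the inclusion of the generators -/
noncomputable def lin (m : I → K) : Lam K I := ExteriorAlgebra.ι K m

theorem lin_anticomm (m m' : I → K) : (lin m : Lam K I) * lin m' = -(lin m' * lin m) :=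
  eq_neg_of_add_eq_zero_left (ExteriorAlgebra.ι_add_mul_swap _ _)

theorem lin_mul_ofFn (N : ℕ) (v : I → K) (u : Fin N → I → K) :
    lin v * (List.ofFn fun j => lin (u j)).prod =
      (-1 : K) ^ N • ((List.ofFn fun j => lin (u j)).prod * lin v) := by
  induction N with
  | zero => rw [List.ofFn_zero, List.prod_nil, mul_one, one_mul, pow_zero, one_smul]
  | succ N ih =>
    rw [List.ofFn_succ, List.prod_cons, ← mul_assoc, lin_anticomm, neg_mul, mul_assoc,
      ih (fun j => u j.succ), mul_smul_comm, ← mul_assoc, pow_succ, mul_neg_one, neg_smul]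

theorem exists_sign (N : ℕ) : ∃ s : K, ∀ u v : Fin N → I → K,
    (List.ofFn fun j => (lin (u j) * lin (v j) : Lam K I)).prod =
      s • ((List.ofFn fun j => lin (u j)).prod * (List.ofFn fun j => lin (v j)).prod) := by
  induction N with
  | zero => exact ⟨1, fun u v => by simp⟩
  | succ N ih =>
    obtain ⟨s, hs⟩ := ih
    refine ⟨s * (-1) ^ N, fun u v => ?_⟩
    rw [List.ofFn_succ, List.prod_cons, hs (fun j => u j.succ) fun j => v j.succ,
      List.ofFn_succ (f := fun j => lin (u j)), List.prod_cons,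
      List.ofFn_succ (f := fun j => lin (v j)), List.prod_cons, mul_smul_comm, mul_assoc,
      ← mul_assoc (lin (v 0)), lin_mul_ofFn, smul_mul_assoc, mul_smul_comm, smul_smul]
    simp only [mul_assoc]

theorem ofFn_lin (N : ℕ) (u : Fin N → I → K) :
    (List.ofFn fun j => (lin (u j) : Lam K I)).prod = ExteriorAlgebra.ιMulti K N u :=
  (ExteriorAlgebra.ιMulti_apply u).symm

variable {n : Type*} [Fintype n] [DecidableEq n] (l : List I) (u v : n → I → K)

/-- the Berezin integral of a product of `u`s and `v`s -/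
noncomputable def beta {N : ℕ} (a b : Fin N → n) : K :=
  ber l (List.ofFn fun j => (lin (u (a j)) * lin (v (b j)) : Lam K I)).prod

theorem beta_zero_left {N : ℕ} {a b : Fin N → n} (ha : ¬ Function.Injective a) :
    beta l u v a b = 0 := by
  obtain ⟨s, hs⟩ := exists_sign (K := K) (I := I) N
  rw [beta, hs (fun j => u (a j)) fun j => v (b j), ofFn_lin]
  have h : (ExteriorAlgebra.ιMulti K N fun j => u (a j)) = 0 := by
    obtain ⟨p, q, hpq, hne⟩ : ∃ p q, a p = a q ∧ p ≠ q := by
      simpa [Function.Injective, not_forall] using ha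
    exact AlternatingMap.map_eq_zero_of_eq _ _ (by rw [hpq]) hne
  rw [h, zero_mul, smul_zero, map_zero]

theorem beta_zero_right {N : ℕ} {a b : Fin N → n} (hb : ¬ Function.Injective b) :
    beta l u v a b = 0 := by
  obtain ⟨s, hs⟩ := exists_sign (K := K) (I := I) N
  rw [beta, hs (fun j => u (a j)) fun j => v (b j), ofFn_lin, ofFn_lin]
  have h : (ExteriorAlgebra.ιMulti K N fun j => v (b j)) = 0 := by
    obtain ⟨p, q, hpq, hne⟩ : ∃ p q, b p = b q ∧ p ≠ q := by
      simpa [Function.Injective, not_forall] using hb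
    exact AlternatingMap.map_eq_zero_of_eq _ _ (by rw [hpq]) hne
  rw [h, mul_zero, smul_zero, map_zero]

theorem beta_perm {N : ℕ} (a b : Fin N → n) (σ τ : Perm (Fin N)) :
    beta l u v (a ∘ σ) (b ∘ τ) =
      ((Perm.sign σ : ℤ) : K) * ((Perm.sign τ : ℤ) : K) * beta l u v a b := by
  obtain ⟨s, hs⟩ := exists_sign (K := K) (I := I) N
  rw [beta, beta, hs (fun j => u ((a ∘ σ) j)) fun j => v ((b ∘ τ) j),
    hs (fun j => u (a j)) fun j => v (b j), ofFn_lin, ofFn_lin, ofFn_lin, ofFn_lin]
  have h1 : (ExteriorAlgebra.ιMulti K N fun j => u ((a ∘ σ) j)) =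
      ((Perm.sign σ : ℤ) : K) • ExteriorAlgebra.ιMulti K N fun j => u (a j) := by
    have := AlternatingMap.map_perm (ExteriorAlgebra.ιMulti K N) (fun j => u (a j)) σ
    rw [Int.cast_smul_eq_zsmul]
    exact this
  have h2 : (ExteriorAlgebra.ιMulti K N fun j => v ((b ∘ τ) j)) =
      ((Perm.sign τ : ℤ) : K) • ExteriorAlgebra.ιMulti K N fun j => v (b j) := by
    have := AlternatingMap.map_perm (ExteriorAlgebra.ιMulti K N) (fun j => v (b j)) τ
    rw [Int.cast_smul_eq_zsmul]
    exact this
  rw [h1, h2, smul_mul_smul_comm, smul_comm, map_smul, smul_eq_mul]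

theorem sign_mul_self_cast {N : ℕ} (σ : Perm (Fin N)) :
    ((Perm.sign σ : ℤ) : K) * ((Perm.sign σ : ℤ) : K) = 1 := by
  rw [← Int.cast_mul, ← Units.val_mul, Int.units_mul_self, Units.val_one, Int.cast_one]

/-- the main formula -/
theorem sum_beta {N : ℕ} (e : Fin N ≃ n) {E : Type*} [Ring E] [Algebra K E]
    (A : Fin N → Matrix n n E) :
    ∑ a : Fin N → n, ∑ b : Fin N → n,
      beta l u v a b • (List.ofFn fun j => A j (a j) (b j)).prod = beta l u v e e • altG N A := by
  refine altG_of_beta (by rw [← Fintype.card_congr e, Fintype.card_fin]) (beta l u v) _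
    (fun a b ha => beta_zero_left l u v ha) (fun a b hb => beta_zero_right l u v hb) ?_ A
  intro a τ ha
  obtain ⟨σ, rfl⟩ : ∃ σ : Perm (Fin N), a = e ∘ σ := by
    refine ⟨Equiv.ofBijective (fun x => e.symm (a x)) (Finite.injective_iff_bijective.1
      fun x y h => ha (e.symm.injective h)), ?_⟩
    funext x
    exact (e.apply_symm_apply (a x)).symm
  have h : (⇑e ∘ ⇑σ) ∘ ⇑τ = ⇑e ∘ ⇑(σ * τ) := rfl
  rw [h, beta_perm, Perm.sign_mul, Units.val_mul, Int.cast_mul, ← mul_assoc,
    sign_mul_self_cast, one_mul]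

end Pool.Agent.helper61.QC
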