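import Mathlib

/-!
# The exponential of a nilpotent matrix with `X³ = ρ X` as a Cayley transform
-/

set_option autoImplicit false
set_option linter.unusedSectionVars false
set_option linter.unusedSimpArgs false

namespace Pool.Agent.helper61.QC

variable {n : Type*} [Fintype n] [DecidableEq n] {R : Type*} [CommRing R] [Algebra ℚ R]

theorem pow_odd_eq {X : Matrix n n R} {ρ : R} (h : X * X * X = ρ • X) (k : ℕ) :
    X ^ (2 * k + 1) = ρ ^ k • X := by
  induction k with
  | zero => simp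
  | succ k ih =>
    rw [show 2 * (k + 1) + 1 = 2 * k + 1 + 2 by ring, pow_add, ih, pow_two, smul_mul_assoc,
      ← mul_assoc, h, smul_smul, pow_succ]

theorem pow_even_eq {X : Matrix n n R} {ρ : R} (h : X * X * X = ρ • X) (k : ℕ) :
    X ^ (2 * k + 2) = ρ ^ k • (X * X) := by
  rw [show 2 * k + 2 = 2 * k + 1 + 1 by ring, pow_succ, pow_odd_eq h, smul_mul_assoc]

/-- the coefficient of the odd part -/
noncomputable def co (M : ℕ) (ρ : R) : R :=
  ∑ k ∈ Finset.range M, ((2 * k + 1).factorial : ℚ)⁻¹ • ρ ^ k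

/-- the coefficient of the even part -/
noncomputable def ce (M : ℕ) (ρ : R) : R :=
  ∑ k ∈ Finset.range M, ((2 * k + 2).factorial : ℚ)⁻¹ • ρ ^ k

theorem exp_formula {X : Matrix n n R} {ρ : R} (h : X * X * X = ρ • X) {M : ℕ}
    (hM : ρ ^ M = 0) :
    IsNilpotent.exp X = 1 + co M ρ • X + ce M ρ • (X * X) := by
  have h0 : X ^ (2 * M + 1) = 0 := by rw [pow_odd_eq h, hM, zero_smul]
  rw [IsNilpotent.exp_eq_sum h0]
  have h1 : ∀ M : ℕ, ∑ i ∈ Finset.range (2 * M + 1), ((i.factorial : ℚ))⁻¹ • X ^ i =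
      1 + co M ρ • X + ce M ρ • (X * X) := by
    intro M
    induction M with
    | zero => simp [co, ce]
    | succ M ih =>
      rw [show 2 * (M + 1) + 1 = 2 * M + 1 + 1 + 1 by ring, Finset.sum_range_succ,
        Finset.sum_range_succ, ih, pow_odd_eq h, show 2 * M + 1 + 1 = 2 * M + 2 by ring,
        pow_even_eq h, co, ce, co, ce, Finset.sum_range_succ, Finset.sum_range_succ, add_smul,
        add_smul, smul_assoc, smul_assoc]
      abel
  exact h1 M

theorem cayley {X : Matrix n n R} {ρ y : R} (h : X * X * X = ρ • X) {M : ℕ}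
    (hM : ρ ^ M = 0) (hy : y * (1 + ρ * ce M ρ) = co M ρ) :
    IsNilpotent.exp ((2 : ℚ) • X) * (1 - y • X) = 1 + y • X := by
  have hX : IsNilpotent X := ⟨2 * M + 1, by rw [pow_odd_eq h, hM, zero_smul]⟩
  have h' : (-X) * (-X) * (-X) = ρ • (-X) := by
    rw [neg_mul_neg, mul_neg, h, smul_neg]
  have e1 := exp_formula h hM
  have e2 := exp_formula h' hM
  have h3 : IsNilpotent.exp X * (1 - y • X) = IsNilpotent.exp (-X) * (1 + y • X) := by
    rw [e1, e2]
    have h4 : X * (X * X) = ρ • X := by rw [← mul_assoc, h]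
    simp only [mul_sub, mul_add, add_mul, mul_one, one_mul, smul_mul_assoc, mul_neg, neg_neg,
      mul_smul_comm, smul_neg, neg_mul, h, h4, smul_smul]
    rw [← hy]
    module
  have h4 : (2 : ℚ) • X = X + X := two_smul _ _
  rw [h4, IsNilpotent.exp_add_of_commute (Commute.refl X) hX hX, mul_assoc, h3, ← mul_assoc,
    IsNilpotent.exp_mul_exp_neg_self hX, one_mul]

theorem co_mem (M : ℕ) (ρ : R) : co M ρ ∈ Algebra.adjoin ℚ {ρ} :=
  sum_mem fun _ _ => Subalgebra.smul_mem _ (pow_mem (Algebra.self_mem_adjoin_singleton ℚ ρ) _) _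

theorem ce_mem (M : ℕ) (ρ : R) : ce M ρ ∈ Algebra.adjoin ℚ {ρ} :=
  sum_mem fun _ _ => Subalgebra.smul_mem _ (pow_mem (Algebra.self_mem_adjoin_singleton ℚ ρ) _) _

end Pool.Agent.helper61.QC
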