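import Mathlib

/-!
# An identity for symmetric `4 × 4` matrices

`σ = E⁻¹ Σ` with `Σ` symmetric, `E = diag(ε, ε)`, `ε = [[0, 1], [-1, 0]]`.
-/

set_option autoImplicit false

namespace Pool.Agent.helper61.QC

open Matrix

variable {R : Type*} [CommRing R]

/-- the standard symplectic form -/
def E4 (R : Type*) [CommRing R] : Matrix (Fin 4) (Fin 4) R :=
  !![0, 1, 0, 0; -1, 0, 0, 0; 0, 0, 0, 1; 0, 0, -1, 0]

/-- the projection to the first block -/
def pi4 (R : Type*) [CommRing R] : Matrix (Fin 4) (Fin 4) R :=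
  !![1, 0, 0, 0; 0, 1, 0, 0; 0, 0, 0, 0; 0, 0, 0, 0]

/-- `σ = E⁻¹ Σ` -/
def sg (S : Matrix (Fin 4) (Fin 4) R) : Matrix (Fin 4) (Fin 4) R := -(E4 R) * S

/-- half of the trace of `σ²` -/
def tau (S : Matrix (Fin 4) (Fin 4) R) : R :=
  -(S 0 0 * S 1 1 - S 0 1 * S 0 1) - (S 2 2 * S 3 3 - S 2 3 * S 2 3)
    - 2 * (S 0 2 * S 1 3 - S 0 3 * S 1 2)

/-- `(2σ² - τ)² = η` -/
def eta (S : Matrix (Fin 4) (Fin 4) R) : R :=
  ((2 * sg S ^ 2 - tau S • (1 : Matrix (Fin 4) (Fin 4) R)) ^ 2 : Matrix (Fin 4) (Fin 4) R) 0 0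

theorem E4_mul_E4 : E4 R * E4 R = -1 := by
  ext i j
  fin_cases i <;> fin_cases j <;> simp [E4, Matrix.mul_apply, Fin.sum_univ_four]

theorem E4_transpose : (E4 R)ᵀ = -E4 R := by
  ext i j
  fin_cases i <;> fin_cases j <;> simp [E4]

theorem pi4_transpose : (pi4 R)ᵀ = pi4 R := by
  ext i j
  fin_cases i <;> fin_cases j <;> simp [pi4]

theorem pi4_comm : pi4 R * E4 R = E4 R * pi4 R := by
  ext i j
  fin_cases i <;> fin_cases j <;> simp [pi4, E4, Matrix.mul_apply, Fin.sum_univ_four]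

omit [CommRing R] in
theorem exists_entries (S : Matrix (Fin 4) (Fin 4) R) (hS : Sᵀ = S) :
    ∃ a b c d e f g h i j : R, S = !![a, b, c, d; b, e, f, g; c, f, h, i; d, g, i, j] := by
  have h : ∀ i j, S j i = S i j := fun i j => congrFun (congrFun hS i) j
  refine ⟨S 0 0, S 0 1, S 0 2, S 0 3, S 1 1, S 1 2, S 1 3, S 2 2, S 2 3, S 3 3, ?_⟩
  ext i j
  fin_cases i <;> fin_cases j <;> simp [h 0 1, h 0 2, h 0 3, h 1 2, h 1 3, h 2 3]

theorem sg_explicit (a b c d e f g h i j : R) :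
    sg !![a, b, c, d; b, e, f, g; c, f, h, i; d, g, i, j] =
      !![-b, -e, -f, -g; a, b, c, d; -d, -g, -i, -j; c, f, h, i] := by
  ext i j
  fin_cases i <;> fin_cases j <;> simp [sg, E4, Matrix.mul_apply, Fin.sum_univ_four]

theorem tau_explicit (a b c d e f g h i j : R) :
    tau !![a, b, c, d; b, e, f, g; c, f, h, i; d, g, i, j] =
      -(a * e - b * b) - (h * j - i * i) - 2 * (c * g - d * f) := by
  simp [tau]

/-- the polarised Cayley-Hamilton identity -/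
theorem anti (S : Matrix (Fin 4) (Fin 4) R) (hS : Sᵀ = S) :
    sg S ^ 2 * (pi4 R * sg S - sg S * pi4 R) + (pi4 R * sg S - sg S * pi4 R) * sg S ^ 2 =
      tau S • (pi4 R * sg S - sg S * pi4 R) := by
  obtain ⟨a, b, c, d, e, f, g, h, i, j, rfl⟩ := exists_entries S hS
  rw [sg_explicit, tau_explicit]
  ext k l
  fin_cases k <;> fin_cases l <;>
    simp [pi4, Matrix.mul_apply, Fin.sum_univ_four, pow_two] <;> ring

theorem ch (S : Matrix (Fin 4) (Fin 4) R) (hS : Sᵀ = S) :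
    (2 * sg S ^ 2 - tau S • (1 : Matrix (Fin 4) (Fin 4) R)) ^ 2 = eta S • 1 := by
  unfold eta
  obtain ⟨a, b, c, d, e, f, g, h, i, j, rfl⟩ := exists_entries S hS
  rw [sg_explicit, tau_explicit]
  ext k l
  fin_cases k <;> fin_cases l <;>
    simp [Matrix.mul_apply, Fin.sum_univ_four, pow_two, two_mul] <;> ring

end Pool.Agent.helper61.QC
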