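import Mathlib
import Pool.Agent.helper61.QC.Four

/-!
# The exchange matrix
-/

set_option autoImplicit false

namespace Pool.Agent.helper61.QC

open Matrix

variable {R : Type*} [CommRing R]

/-- `q(κσ)` -/
def qm (S : Matrix (Fin 4) (Fin 4) R) (k : R) : Matrix (Fin 4) (Fin 4) R :=
  1 + (2 * k) • sg S + k ^ 2 • (2 * sg S ^ 2 - tau S • (1 : Matrix (Fin 4) (Fin 4) R))

/-- `q(κσ) q(-κσ)` -/
def Nn (S : Matrix (Fin 4) (Fin 4) R) (k : R) : R :=
  1 - 2 * k ^ 2 * tau S + k ^ 4 * eta S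

section Abstract

variable {A : Type*} [Ring A] [Algebra R A]

theorem q_mul_q (s a : A) (t e k : R) (ha : a = 2 * s ^ 2 - t • (1 : A)) (he : a ^ 2 = e • 1) :
    (1 + (2 * k) • s + k ^ 2 • a) * (1 + (2 * (-k)) • s + (-k) ^ 2 • a) =
      (1 - 2 * k ^ 2 * t + k ^ 4 * e) • 1 := by
  have hc : s * a = a * s := by rw [ha]; noncomm_ring
  have h2 : (2 : R) • (s * s) = a + t • (1 : A) := by
    rw [ha, pow_two, two_smul]; noncomm_ring
  rw [pow_two] at he
  simp only [mul_add, add_mul, mul_one, one_mul, smul_mul_assoc, mul_smul_comm, smul_smul, hc, he]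
  linear_combination (norm := module) (-2 * k ^ 2 : R) • h2

theorem q_exchange (p s : A) (t k u : R) (hk : k * u = 1)
    (hB : s ^ 2 * (p * s - s * p) + (p * s - s * p) * s ^ 2 = t • (p * s - s * p)) :
    (u • p - (p * s - s * p)) * (1 + (2 * k) • s + k ^ 2 • (2 * s ^ 2 - t • (1 : A))) =
      (1 + (2 * k) • s + k ^ 2 • (2 * s ^ 2 - t • (1 : A))) *
        (u • p + (p * s - s * p)) := by
  have h2 : (2 : A) * s ^ 2 = (2 : R) • (s * s) := by
    rw [pow_two, two_smul]; noncomm_ring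
  rw [h2]
  simp only [pow_two, mul_add, add_mul, mul_sub, sub_mul, mul_one, one_mul, smul_mul_assoc,
    mul_smul_comm, smul_smul, smul_sub, smul_add, mul_assoc] at hB ⊢
  linear_combination (norm := module) (-2 * k ^ 2 : R) • hB + (2 * hk) • (p * s - s * p)
    + (2 * k * hk) • (p * (s * s) - s * (s * p))

end Abstract

theorem qm_mul (S : Matrix (Fin 4) (Fin 4) R) (hS : Sᵀ = S) (k : R) :
    qm S k * qm S (-k) = Nn S k • 1 :=
  q_mul_q (sg S) _ (tau S) (eta S) k rfl (ch S hS)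

theorem qm_mul' (S : Matrix (Fin 4) (Fin 4) R) (hS : Sᵀ = S) (k : R) :
    qm S (-k) * qm S k = Nn S k • 1 := by
  have h := qm_mul S hS (-k)
  rw [neg_neg] at h
  rw [h, Nn, Nn]
  congr 1
  ring

theorem qm_exchange (S : Matrix (Fin 4) (Fin 4) R) (hS : Sᵀ = S) (k u : R)
    (hk : k * u = 1) :
    (u • pi4 R - (pi4 R * sg S - sg S * pi4 R)) * qm S k =
      qm S k * (u • pi4 R + (pi4 R * sg S - sg S * pi4 R)) :=
  q_exchange (pi4 R) (sg S) (tau S) k u hk (anti S hS)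

theorem sg_transpose (S : Matrix (Fin 4) (Fin 4) R) (hS : Sᵀ = S) :
    (sg S)ᵀ * E4 R = -(E4 R * sg S) := by
  rw [sg, Matrix.transpose_mul, Matrix.transpose_neg, E4_transpose, hS, neg_neg, mul_assoc,
    E4_mul_E4]
  simp only [neg_mul, mul_neg, neg_neg]
  rw [← mul_assoc, E4_mul_E4]
  simp

theorem qm_transpose (S : Matrix (Fin 4) (Fin 4) R) (hS : Sᵀ = S) (k : R) :
    (qm S k)ᵀ * E4 R = E4 R * qm S (-k) := by
  have h1 := sg_transpose S hS
  have h2 : (sg S ^ 2)ᵀ * E4 R = E4 R * sg S ^ 2 := by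
    rw [pow_two, Matrix.transpose_mul, mul_assoc, h1, mul_neg, ← mul_assoc, h1, neg_mul, neg_neg,
      mul_assoc]
  have h3 : (2 : Matrix (Fin 4) (Fin 4) R) * sg S ^ 2 = (2 : R) • sg S ^ 2 := by
    rw [two_smul, two_mul]
  rw [qm, qm, h3]
  simp only [Matrix.transpose_add, Matrix.transpose_smul, Matrix.transpose_sub,
    Matrix.transpose_one, add_mul, sub_mul, mul_add, mul_sub, smul_mul_assoc, mul_smul_comm, h1,
    h2, one_mul, mul_one]
  module

/-! ## the matrix `h` -/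

/-- `h = q/ν` -/
def hm (S : Matrix (Fin 4) (Fin 4) R) (k : R) (v : Rˣ) : Matrix (Fin 4) (Fin 4) R :=
  (↑v⁻¹ : R) • qm S k

section H

variable {S : Matrix (Fin 4) (Fin 4) R} (hS : Sᵀ = S) {k : R} {v : Rˣ}
  (hv : (v : R) * v = Nn S k)

include hS hv

theorem hm_mul : hm S k v * hm S (-k) v = 1 := by
  rw [hm, hm, smul_mul_assoc, mul_smul_comm, smul_smul, qm_mul S hS, ← hv, smul_smul]
  have : (↑v⁻¹ : R) * ↑v⁻¹ * (↑v * ↑v) = 1 := by
    rw [show (↑v⁻¹ : R) * ↑v⁻¹ * (↑v * ↑v) = (↑v⁻¹ * ↑v) * (↑v⁻¹ * ↑v) by ring]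
    simp
  rw [this, one_smul]

theorem hm_mul' : hm S (-k) v * hm S k v = 1 := by
  rw [hm, hm, smul_mul_assoc, mul_smul_comm, smul_smul, qm_mul' S hS, ← hv, smul_smul]
  have : (↑v⁻¹ : R) * ↑v⁻¹ * (↑v * ↑v) = 1 := by
    rw [show (↑v⁻¹ : R) * ↑v⁻¹ * (↑v * ↑v) = (↑v⁻¹ * ↑v) * (↑v⁻¹ * ↑v) by ring]
    simp
  rw [this, one_smul]

omit hv in
theorem hm_transpose : (hm S k v)ᵀ * E4 R = E4 R * hm S (-k) v := by
  rw [hm, hm, Matrix.transpose_smul, smul_mul_assoc, qm_transpose S hS, mul_smul_comm]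

theorem hm_E : (hm S k v)ᵀ * E4 R * hm S k v = E4 R := by
  rw [hm_transpose hS, mul_assoc, hm_mul' hS hv, mul_one]

omit hS hv in
theorem hm_sg : sg S * hm S k v = hm S k v * sg S := by
  rw [hm, mul_smul_comm, smul_mul_assoc, qm]
  congr 1
  simp only [mul_add, add_mul, mul_sub, sub_mul, mul_one, one_mul, smul_mul_assoc,
    mul_smul_comm]
  congr 3
  noncomm_ring

omit hS hv in
theorem E4_sg : E4 R * sg S = S := by
  rw [sg, ← mul_assoc, mul_neg, E4_mul_E4, neg_neg, one_mul]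

theorem hm_S : (hm S k v)ᵀ * S * hm S k v = S := by
  have h : (hm S k v)ᵀ * S = E4 R * hm S (-k) v * sg S := by
    calc (hm S k v)ᵀ * S = (hm S k v)ᵀ * (E4 R * sg S) := by rw [E4_sg]
      _ = E4 R * hm S (-k) v * sg S := by rw [← mul_assoc, hm_transpose hS]
  rw [h, mul_assoc, hm_sg, ← mul_assoc, mul_assoc (E4 R), hm_mul' hS hv, mul_one, E4_sg]

end H

/-- twice the inverse matrix for the product in the first order -/
def Gab (S : Matrix (Fin 4) (Fin 4) R) (W U : R) : Matrix (Fin 4) (Fin 4) R :=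
  W • E4 R + E4 R * (U • pi4 R - (pi4 R * sg S - sg S * pi4 R)) - S

/-- twice the inverse matrix for the product in the second order -/
def Gba (S : Matrix (Fin 4) (Fin 4) R) (W U : R) : Matrix (Fin 4) (Fin 4) R :=
  W • E4 R + E4 R * (U • pi4 R + (pi4 R * sg S - sg S * pi4 R)) - S

theorem exch {S : Matrix (Fin 4) (Fin 4) R} (hS : Sᵀ = S) {k : R} {v : Rˣ}
    (hv : (v : R) * v = Nn S k) (W U : R) (hk : k * U = 1) :
    (hm S k v)ᵀ * Gab S W U * hm S k v = Gba S W U := by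
  have h1 : (U • pi4 R - (pi4 R * sg S - sg S * pi4 R)) * hm S k v =
      hm S k v * (U • pi4 R + (pi4 R * sg S - sg S * pi4 R)) := by
    rw [hm, mul_smul_comm, qm_exchange S hS k U hk, smul_mul_assoc]
  rw [Gab, Gba, mul_sub, sub_mul, mul_add, add_mul, hm_S hS hv, mul_smul_comm, smul_mul_assoc,
    hm_E hS hv, ← mul_assoc (hm S k v)ᵀ, hm_transpose hS, mul_assoc (E4 R * _), h1,
    ← mul_assoc, mul_assoc (E4 R), hm_mul' hS hv, mul_one]

theorem Y_eq {S : Matrix (Fin 4) (Fin 4) R} (hS : Sᵀ = S) {k : R} {v : Rˣ}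
    (hv : (v : R) * v = Nn S k) (W U : R) (hk : k * U = 1)
    {Yab Yba : Matrix (Fin 4) (Fin 4) R} (h1 : Gab S W U * Yab = 1)
    (h2 : Yba * Gba S W U = 1) : hm S k v * Yba * (hm S k v)ᵀ = Yab := by
  have h3 : (hm S k v)ᵀ * Gab S W U = Gba S W U * hm S (-k) v := by
    rw [← exch hS hv W U hk, mul_assoc, hm_mul hS hv, mul_one]
  calc hm S k v * Yba * (hm S k v)ᵀ = hm S k v * Yba * (hm S k v)ᵀ * (Gab S W U * Yab) := by
        rw [h1, mul_one]
    _ = hm S k v * Yba * ((hm S k v)ᵀ * Gab S W U) * Yab := by simp only [mul_assoc]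
    _ = hm S k v * (Yba * Gba S W U) * hm S (-k) v * Yab := by
        rw [h3]; simp only [mul_assoc]
    _ = Yab := by rw [h2, mul_one, hm_mul hS hv, one_mul]

end Pool.Agent.helper61.QC
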