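import Mathlib
import Pool.Agent.helper61.QC.FourB

/-!
# The derivative of the exchange matrix `h`
-/

set_option autoImplicit false
set_option linter.unusedSectionVars false
set_option linter.unusedSimpArgs false

namespace Pool.Agent.helper61.QC

open Matrix

section Abstract

variable {R A : Type*} [CommRing R] [Ring A] [Algebra R A]

theorem h_key (s a : A) (t e k : R) (ha : a = 2 * s ^ 2 - t • (1 : A)) (he : a ^ 2 = e • 1) :
    (1 - 2 * k ^ 2 * t + k ^ 4 * e) • (s + k • a) + (k * t - k ^ 3 * e) •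
        (1 + (2 * k) • s + k ^ 2 • a) =
      (s - k ^ 2 • (s * a)) * (1 + (2 * k) • s + k ^ 2 • a) := by
  have hc : a * s = s * a := by rw [ha]; noncomm_ring
  have h2 : (2 : R) • (s * s) = a + t • (1 : A) := by
    rw [ha, pow_two, two_smul]; noncomm_ring
  have h3 : (2 : R) • (s * (s * a)) = e • (1 : A) + t • a := by
    rw [← mul_assoc, ← smul_mul_assoc, h2, add_mul, smul_mul_assoc, one_mul, ← pow_two, he]
  have h4 : s * (a * a) = e • s := by rw [← pow_two, he, mul_smul_comm, mul_one]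
  simp only [mul_add, sub_mul, mul_one, smul_mul_assoc, mul_smul_comm, smul_smul, mul_assoc, hc,
    h4, smul_add]
  linear_combination (norm := module) (-k : R) • h2 + (k ^ 3 : R) • h3

end Abstract

variable {R : Type*} [CommRing R] (D : Derivation ℤ R R)

theorem map_D_mul (A B : Matrix (Fin 4) (Fin 4) R) :
    (A * B).map D = A.map D * B + A * B.map D := by
  ext i j
  rw [Matrix.map_apply, Matrix.mul_apply, map_sum, Matrix.add_apply, Matrix.mul_apply,
    Matrix.mul_apply, ← Finset.sum_add_distrib]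
  refine Finset.sum_congr rfl fun k _ => ?_
  rw [D.leibniz, Matrix.map_apply, Matrix.map_apply, smul_eq_mul, smul_eq_mul]
  ring

theorem map_D_smul (c : R) (A : Matrix (Fin 4) (Fin 4) R) :
    (c • A).map D = D c • A + c • A.map D := by
  ext i j
  simp only [Matrix.map_apply, Matrix.smul_apply, Matrix.add_apply, D.leibniz, smul_eq_mul]
  ring

theorem map_D_add (A B : Matrix (Fin 4) (Fin 4) R) : (A + B).map D = A.map D + B.map D := by
  ext i j
  simp only [Matrix.map_apply, Matrix.add_apply, map_add]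

theorem map_D_sub (A B : Matrix (Fin 4) (Fin 4) R) : (A - B).map D = A.map D - B.map D := by
  ext i j
  simp only [Matrix.map_apply, Matrix.sub_apply, map_sub]

theorem map_D_one : (1 : Matrix (Fin 4) (Fin 4) R).map D = 0 := by
  ext i j
  rw [Matrix.map_apply, Matrix.one_apply]
  split_ifs <;> simp

theorem map_D_E4 : (-(E4 R)).map D = 0 := by
  ext i j
  fin_cases i <;> fin_cases j <;> simp [E4]

variable {S : Matrix (Fin 4) (Fin 4) R} {lam : R}

theorem map_D_sg (hD : S.map D = lam • S) : (sg S).map D = lam • sg S := by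
  rw [sg, map_D_mul, map_D_E4, zero_mul, zero_add, hD, mul_smul_comm]

theorem D_tau (hD : S.map D = lam • S) : D (tau S) = 2 * lam * tau S := by
  have h : ∀ i j, D (S i j) = lam * S i j := fun i j => congrFun (congrFun hD i) j
  simp only [tau, map_sub, map_neg, D.leibniz, h, smul_eq_mul, map_mul]
  have h2 : D (2 : R) = 0 := by
    have := D.map_natCast 2
    simpa using this
  rw [h2]
  ring

theorem map_D_A (hD : S.map D = lam • S) :
    (2 * sg S ^ 2 - tau S • (1 : Matrix (Fin 4) (Fin 4) R)).map D =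
      (2 * lam) • (2 * sg S ^ 2 - tau S • (1 : Matrix (Fin 4) (Fin 4) R)) := by
  have h2 : (2 : Matrix (Fin 4) (Fin 4) R) * sg S ^ 2 = sg S * sg S + sg S * sg S := by
    rw [pow_two, two_mul]
  rw [map_D_sub, map_D_smul, map_D_one, D_tau D hD, h2, map_D_add, map_D_mul, map_D_sg D hD,
    smul_mul_assoc, mul_smul_comm]
  module

theorem D_eta (hD : S.map D = lam • S) : D (eta S) = 4 * lam * eta S := by
  have h : ((2 * sg S ^ 2 - tau S • (1 : Matrix (Fin 4) (Fin 4) R)) ^ 2).map D = (4 * lam) •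
      (2 * sg S ^ 2 - tau S • (1 : Matrix (Fin 4) (Fin 4) R)) ^ 2 := by
    rw [pow_two, map_D_mul, map_D_A D hD, smul_mul_assoc, mul_smul_comm]
    module
  exact congrFun (congrFun h 0) 0

theorem map_D_qm (hD : S.map D = lam • S) {k k₁ : R} (hk : D k = k₁ * k) :
    (qm S k).map D = (k₁ + lam) • ((2 * k) • sg S +
      (2 * k ^ 2) • (2 * sg S ^ 2 - tau S • (1 : Matrix (Fin 4) (Fin 4) R))) := by
  have h2 : D (2 * k) = 2 * (k₁ * k) := by
    rw [two_mul, map_add, hk]; ring
  have h3 : D (k ^ 2) = 2 * k₁ * k ^ 2 := by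
    rw [pow_two, D.leibniz, hk, smul_eq_mul]; ring
  rw [qm, map_D_add, map_D_add, map_D_one, map_D_smul, map_D_sg D hD, map_D_smul, map_D_A D hD,
    h2, h3]
  module

theorem D_Nn (hD : S.map D = lam • S) {k k₁ : R} (hk : D k = k₁ * k) :
    D (Nn S k) = (k₁ + lam) * (-4 * k ^ 2 * tau S + 4 * k ^ 4 * eta S) := by
  have h3 : D (k ^ 2) = 2 * k₁ * k ^ 2 := by
    rw [pow_two, D.leibniz, hk, smul_eq_mul]; ring
  have h4 : D (k ^ 4) = 4 * k₁ * k ^ 4 := by
    rw [show k ^ 4 = k ^ 2 * k ^ 2 by ring, D.leibniz, h3, smul_eq_mul]; ring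
  have h5 : 2 * k ^ 2 * tau S = k ^ 2 * tau S + k ^ 2 * tau S := by ring
  rw [Nn, h5, map_add, map_sub, map_add, D.map_one_eq_zero, D.leibniz, D.leibniz (k ^ 4), h3, h4,
    D_tau D hD, D_eta D hD]
  simp only [smul_eq_mul]
  ring

/-- the derivative of `h` -/
theorem map_D_hm [Algebra ℚ R] (hS : Sᵀ = S) (hD : S.map D = lam • S) {k k₁ : R}
    (hk : D k = k₁ * k) {v : Rˣ} (hv : (v : R) * v = Nn S k) :
    (hm S k v).map D = ((2 * (k₁ + lam) * k * (↑v⁻¹ * ↑v⁻¹) * (1 + k ^ 2 * tau S)) • sg S -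
      (4 * (k₁ + lam) * k ^ 3 * (↑v⁻¹ * ↑v⁻¹)) • (sg S * sg S * sg S)) * hm S k v := by
  set w : R := ↑v⁻¹ with hw
  have hvw : (v : R) * w = 1 := v.mul_inv
  have h1 : 2 * (v * D v) = D (Nn S k) := by
    rw [← hv, D.leibniz, smul_eq_mul]; ring
  have h2 : D w = -(w * w * D v) := by
    have : D ((v : R) * w) = 0 := by rw [hvw, D.map_one_eq_zero]
    rw [D.leibniz, smul_eq_mul, smul_eq_mul] at this
    have h3 : w * (v * D w + w * D v) = 0 := by rw [this, mul_zero]
    linear_combination h3 - D w * hvw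
  have h3 : 2 * D w = -(w * w * w * D (Nn S k)) := by
    rw [h2, ← h1]
    linear_combination (2 * w * w * D v) * hvw
  have key := h_key (R := R) (sg S) _ (tau S) (eta S) k rfl (ch S hS)
  have hNw : Nn S k * (w * w) = 1 := by
    rw [← hv]
    linear_combination (v * w + 1) * hvw
  set A := 2 * sg S ^ 2 - tau S • (1 : Matrix (Fin 4) (Fin 4) R) with hA
  have hsA : k ^ 2 • (sg S * A) = (2 * k ^ 2) • (sg S * sg S * sg S) - (k ^ 2 * tau S) • sg S := by
    rw [hA, mul_sub, mul_smul_comm, mul_one]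
    have : sg S * (2 * sg S ^ 2) = (2 : R) • (sg S * sg S * sg S) := by
      rw [two_smul]; noncomm_ring
    rw [this]
    module
  have h2inv : ∀ M N : Matrix (Fin 4) (Fin 4) R, (2 : R) • M = (2 : R) • N → M = N := by
    intro M N h
    have h4 : ((2 : ℚ)⁻¹) • ((2 : R) • M) = ((2 : ℚ)⁻¹) • ((2 : R) • N) := by rw [h]
    have h5 : ∀ M : Matrix (Fin 4) (Fin 4) R, (2 : R) • M = (2 : ℚ) • M := by
      intro M
      rw [two_smul, two_smul]
    rw [h5, h5, smul_smul, smul_smul, inv_mul_cancel₀ (two_ne_zero), one_smul, one_smul] at h4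
    exact h4
  apply h2inv
  have e1 : (2 : R) • (hm S k v).map D =
      -(w * w * w * D (Nn S k)) • qm S k + (2 * w) • (qm S k).map D := by
    rw [hm, map_D_smul, ← hw, smul_add, smul_smul, h3, smul_smul]
  have e2 : ((2 * (k₁ + lam) * k * (w * w) * (1 + k ^ 2 * tau S)) • sg S -
      (4 * (k₁ + lam) * k ^ 3 * (w * w)) • (sg S * sg S * sg S)) * hm S k v =
      (2 * (k₁ + lam) * k * (w * w) * w) • ((sg S - k ^ 2 • (sg S * A)) * qm S k) := by
    rw [hsA, hm, ← hw, mul_smul_comm, sub_mul, sub_mul, sub_mul, smul_mul_assoc, smul_mul_assoc,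
      smul_mul_assoc, smul_mul_assoc]
    module
  rw [e1, e2, D_Nn D hD hk, map_D_qm D hD hk, ← hA]
  have key' : (Nn S k) • (sg S + k • A) + (k * tau S - k ^ 3 * eta S) • qm S k =
      (sg S - k ^ 2 • (sg S * A)) * qm S k := key
  rw [← key']
  have h6 : (w : R) = w * (Nn S k * (w * w)) := by rw [hNw, mul_one]
  have h7 : (2 * w) • (k₁ + lam) • ((2 * k) • sg S + (2 * k ^ 2) • A) =
      (2 * (w * (Nn S k * (w * w)))) • (k₁ + lam) • ((2 * k) • sg S + (2 * k ^ 2) • A) := by
    rw [← h6]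
  rw [h7]
  module

end Pool.Agent.helper61.QC
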