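import Mathlib
import Pool.Agent.helper61.QC.Even

/-!
# Nilpotent elements, units and square roots
-/

set_option autoImplicit false
set_option linter.unusedSectionVars false
set_option linter.unusedSimpArgs false

namespace Pool.Agent.helper61.QC

variable {K : Type*} [Field K] {I : Type*} [Fintype I] [DecidableEq I]

theorem Hg_le_span (k : ℕ) : Hg K I k ≤ Submodule.span K
    (Set.range fun a : Fin k → I => ExteriorAlgebra.ιMulti K k fun j =>
      (Pi.single (a j) 1 : I → K)) := by
  induction k with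
  | zero =>
    refine Submodule.span_mono ?_
    rintro _ rfl
    exact ⟨Fin.elim0, ExteriorAlgebra.ιMulti_zero_apply _⟩
  | succ k ih =>
    rw [Hg]
    refine (mul_le_mul_right ih _).trans ?_
    rw [deg1, Submodule.span_mul_span, Submodule.span_le]
    rintro _ ⟨_, ⟨a, rfl⟩, _, ⟨b, rfl⟩, rfl⟩
    refine Submodule.subset_span ⟨Fin.cons a b, ?_⟩
    show ExteriorAlgebra.ιMulti K (k + 1) _ = xg a * ExteriorAlgebra.ιMulti K k _
    rw [ExteriorAlgebra.ιMulti_succ_apply]
    rfl

theorem Hg_eq_bot {k : ℕ} (hk : Fintype.card I < k) : Hg K I k = ⊥ := by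
  rw [eq_bot_iff]
  refine (Hg_le_span k).trans ?_
  rw [Submodule.span_le]
  rintro _ ⟨a, rfl⟩
  have h : ¬ Function.Injective a := by
    intro h
    have := Fintype.card_le_of_injective a h
    rw [Fintype.card_fin] at this
    omega
  obtain ⟨p, q, hpq, hne⟩ : ∃ p q, a p = a q ∧ p ≠ q := by
    simpa [Function.Injective, not_forall] using h
  show ExteriorAlgebra.ιMulti K k _ = 0
  exact AlternatingMap.map_eq_zero_of_eq _ _ (by rw [hpq]) hne

theorem Fl_eq (k : ℕ) : Fl K I k = Hg K I k * ⊤ := by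
  induction k with
  | zero =>
    rw [Fl, Hg, ← Submodule.one_eq_span, one_mul]
  | succ k ih => rw [Fl, Hg, ih, mul_assoc]

theorem Fl_eq_bot {k : ℕ} (hk : Fintype.card I < k) : Fl K I k = ⊥ := by
  rw [Fl_eq, Hg_eq_bot hk, Submodule.bot_mul]

theorem sub_aug_mem (P : Lam K I) : P - algebraMap K _ (aug P) ∈ Fl K I 1 := by
  induction P using left_ind with
  | h1 => rw [map_one, map_one, sub_self]; exact zero_mem _
  | hadd P Q hP hQ =>
    rw [map_add, map_add, add_sub_add_comm]
    exact add_mem hP hQ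
  | hsmul c Q hQ =>
    have h : c • Q - algebraMap K (Lam K I) (aug (c • Q)) =
        c • (Q - algebraMap K (Lam K I) (aug Q)) := by
      rw [map_smul, smul_eq_mul, map_mul, smul_sub, ← Algebra.smul_def]
    rw [h]
    exact Submodule.smul_mem _ _ hQ
  | hx a Q _ =>
    rw [map_mul, aug_xg, zero_mul, map_zero, sub_zero]
    exact xg_mul_mem a Submodule.mem_top

theorem mem_Fl_one {P : Lam K I} (h : aug P = 0) : P ∈ Fl K I 1 := by
  have := sub_aug_mem P
  rwa [h, map_zero, sub_zero] at this

theorem pow_mem_Fl {P : Lam K I} (h : P ∈ Fl K I 1) (k : ℕ) : P ^ k ∈ Fl K I k := by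
  induction k with
  | zero => exact Submodule.mem_top
  | succ k ih =>
    rw [pow_succ]
    exact mul_mem_Fl ih h

/-- the augmentation of the even part -/
noncomputable def augE : Ev K I →ₐ[K] K := aug.comp (Ev K I).val

theorem augE_apply (P : Ev K I) : augE P = aug (P : Lam K I) := rfl

theorem nilp {P : Ev K I} (h : augE P = 0) : IsNilpotent P := by
  refine ⟨Fintype.card I + 1, Subtype.ext ?_⟩
  have h1 := pow_mem_Fl (mem_Fl_one (P := (P : Lam K I)) h) (Fintype.card I + 1)
  rw [Fl_eq_bot (Nat.lt_succ_self _), Submodule.mem_bot] at h1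
  rw [Subalgebra.coe_pow, h1]
  rfl

theorem augE_of_nilp {P : Ev K I} (h : IsNilpotent P) : augE P = 0 :=
  (h.map (augE (K := K) (I := I))).eq_zero

variable (S : Subalgebra K (Ev K I))

theorem nilpS {P : S} (h : augE (P : Ev K I) = 0) : IsNilpotent P := by
  obtain ⟨k, hk⟩ := nilp h
  exact ⟨k, Subtype.ext (by rw [Subalgebra.coe_pow, hk]; rfl)⟩

theorem isUnitS {P : S} (h : augE (P : Ev K I) ≠ 0) : IsUnit P := by
  have h1 : IsNilpotent (P - algebraMap K S (augE (P : Ev K I))) := by
    refine nilpS S ?_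
    rw [Subalgebra.coe_sub, map_sub, Subalgebra.coe_algebraMap, AlgHom.commutes]
    exact sub_self _
  have h2 : IsUnit (algebraMap K S (augE (P : Ev K I))) := (IsUnit.mk0 _ h).map _
  have h3 := h1.isUnit_add_left_of_commute h2 (mul_comm _ _)
  rwa [add_sub_cancel] at h3

theorem exists_sqrt [CharZero K] {P : S} (h : augE (P : Ev K I) = 1) :
    ∃ v : Sˣ, (v : S) * v = P ∧ augE ((v : S) : Ev K I) = 1 := by
  have e1 : ∀ x : S, Polynomial.aeval x (Polynomial.X ^ 2 - Polynomial.C P) = x ^ 2 - P := by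
    intro x
    simp
  have e2 : ∀ x : S, Polynomial.aeval x (Polynomial.derivative
      (Polynomial.X ^ 2 - Polynomial.C P)) = 2 * x := by
    intro x
    simp [one_add_one_eq_two]
  have h1 : IsNilpotent ((Polynomial.aeval (1 : S)) (Polynomial.X ^ 2 - Polynomial.C P)) := by
    rw [e1]
    refine nilpS S ?_
    rw [Subalgebra.coe_sub, map_sub, one_pow, Subalgebra.coe_one, map_one, h, sub_self]
  have h2 : IsUnit ((Polynomial.aeval (1 : S))
      (Polynomial.derivative (Polynomial.X ^ 2 - Polynomial.C P))) := by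
    rw [e2]
    refine isUnitS S ?_
    rw [mul_one, ← one_add_one_eq_two, Subalgebra.coe_add, Subalgebra.coe_one, map_add, map_one,
      one_add_one_eq_two]
    exact two_ne_zero
  obtain ⟨r, ⟨hr1, hr2⟩, _⟩ := Polynomial.existsUnique_nilpotent_sub_and_aeval_eq_zero h1 h2
  have h3 : augE (r : Ev K I) = 1 := by
    have h4 : IsNilpotent ((1 - r : S) : Ev K I) := by
      obtain ⟨k, hk⟩ := hr1
      exact ⟨k, by rw [← Subalgebra.coe_pow, hk]; rfl⟩
    have h5 := augE_of_nilp h4
    rw [Subalgebra.coe_sub, map_sub, Subalgebra.coe_one, map_one, sub_eq_zero] at h5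
    exact h5.symm
  have hu : IsUnit r := isUnitS S (by rw [h3]; exact one_ne_zero)
  obtain ⟨v, rfl⟩ := hu
  refine ⟨v, ?_, h3⟩
  rw [e1, sub_eq_zero, pow_two] at hr2
  exact hr2

end Pool.Agent.helper61.QC
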