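import Mathlib
import Pool.Agent.helper61.QC.Even

/-!
# Divergence free derivations
-/

set_option autoImplicit false
set_option linter.unusedSectionVars false
set_option linter.unusedSimpArgs false

namespace Pool.Agent.helper61.QC

open Matrix

section Trace

variable {K R M : Type*} [Field K] [CommRing R] [Algebra K R] [AddCommGroup M] [Module R M]
  [Module K M] (D : Derivation K R M) {ρ : Type*} [Fintype ρ] [DecidableEq ρ]

theorem D_mul_apply (A B : Matrix ρ ρ R) (i j : ρ) :
    D ((A * B) i j) = ∑ k, (A i k • D (B k j) + B k j • D (A i k)) := by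
  rw [Matrix.mul_apply, map_sum]
  exact Finset.sum_congr rfl fun k _ => D.leibniz _ _

theorem D_trace_two (A : Matrix ρ ρ R) :
    D (Matrix.trace (A * A)) = (2 : ℕ) • ∑ k, ∑ l, A l k • D (A k l) := by
  rw [Matrix.trace, map_sum]
  simp only [Matrix.diag_apply, D_mul_apply, Finset.sum_add_distrib]
  rw [two_smul]
  congr 1
  exact Finset.sum_comm

theorem D_trace_four (A : Matrix ρ ρ R) :
    D (Matrix.trace ((A * A) * (A * A))) = (4 : ℕ) • ∑ k, ∑ l, (A * A * A) l k • D (A k l) := by
  rw [D_trace_two]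
  have h : ∑ k, ∑ l, (A * A) l k • D ((A * A) k l) =
      (2 : ℕ) • ∑ k, ∑ l, (A * A * A) l k • D (A k l) := by
    rw [two_smul]
    simp only [D_mul_apply, Finset.smul_sum, smul_add, Finset.sum_add_distrib, smul_smul]
    congr 1
    · have : ∀ k l : ρ, (A * A * A) l k • D (A k l) = ∑ m, ((A * A) l m * A m k) • D (A k l) := by
        intro k l
        rw [Matrix.mul_apply, Finset.sum_smul]
      simp only [this]
      calc ∑ x, ∑ x_1, ∑ x_2, ((A * A) x_1 x * A x x_2) • D (A x_2 x_1)
          = ∑ x, ∑ x_2, ∑ x_1, ((A * A) x_1 x * A x x_2) • D (A x_2 x_1) :=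
            Finset.sum_congr rfl fun _ _ => Finset.sum_comm
        _ = ∑ x_2, ∑ x, ∑ x_1, ((A * A) x_1 x * A x x_2) • D (A x_2 x_1) := Finset.sum_comm
        _ = _ := Finset.sum_congr rfl fun _ _ => Finset.sum_comm
    · have : ∀ k l : ρ, (A * A * A) l k • D (A k l) = ∑ m, (A l m * (A * A) m k) • D (A k l) := by
        intro k l
        rw [Matrix.mul_assoc, Matrix.mul_apply, Finset.sum_smul]
      simp only [this]
      refine Finset.sum_congr rfl fun x _ => ?_
      rw [Finset.sum_comm]
      refine Finset.sum_congr rfl fun y _ => Finset.sum_congr rfl fun z _ => ?_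
      rw [mul_comm]
  rw [h, smul_smul]
  norm_num

end Trace

section Ham

variable {K : Type*} [Field K] [CharZero K] {I : Type*} [Fintype I] [DecidableEq I]

/-- Hamiltonian vector fields are divergence free -/
theorem div_ham (ω : I → I → K) (hω : ∀ a b, ω a b = ω b a) (H : Lam K I) :
    ∑ b, dd b (∑ a, ω a b • dd a H) = 0 := by
  simp only [map_sum, map_smul]
  set T := ∑ b, ∑ a, ω a b • dd b (dd a H) with hT
  have h : T = -T := by
    conv_lhs => rw [hT, Finset.sum_comm]
    rw [hT, ← Finset.sum_neg_distrib]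
    refine Finset.sum_congr rfl fun a _ => ?_
    rw [← Finset.sum_neg_distrib]
    refine Finset.sum_congr rfl fun b _ => ?_
    rw [dd_comm b a, hω a b, smul_neg]
  have h2 : (2 : K) • T = 0 := by
    rw [two_smul]
    nth_rewrite 1 [h]
    exact neg_add_cancel _
  exact (smul_eq_zero.1 h2).resolve_left two_ne_zero

end Ham

section Main

variable {K : Type*} [Field K] [CharZero K] {n ρ : Type*} [Fintype n] [DecidableEq n] [Fintype ρ]
  [DecidableEq ρ] (J : Matrix n n K)

/-- the vector field `C ↦ C M` -/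
noncomputable def vM (M : Matrix ρ ρ (Ev K (n × ρ))) (a : n × ρ) : Lam K (n × ρ) :=
  ∑ l, xg (a.1, l) * (M l a.2 : Lam K (n × ρ))

theorem gr_vM (M : Matrix ρ ρ (Ev K (n × ρ))) (a : n × ρ) : gr (vM M a) = -vM M a := by
  rw [vM, map_sum, ← Finset.sum_neg_distrib]
  refine Finset.sum_congr rfl fun l _ => ?_
  rw [map_mul, gr_xg, gr_coe, neg_mul]

/-- the derivation `C ↦ C M` -/
noncomputable def derM (M : Matrix ρ ρ (Ev K (n × ρ))) : EvDer K (n × ρ) := der (vM M) (gr_vM M)

theorem derM_xg (M : Matrix ρ ρ (Ev K (n × ρ))) (i : n) (r : ρ) :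
    (derM M).lin (xg (i, r)) = ∑ l, xg (i, l) * (M l r : Lam K (n × ρ)) := der_xg _ _ _

theorem derM_Sig (M : Matrix ρ ρ (Ev K (n × ρ))) (r s : ρ) :
    (derM M).res (Sig J r s) =
      (Mᵀ * Sig J + Sig J * M : Matrix ρ ρ (Ev K (n × ρ))) r s := by
  apply Subtype.ext
  rw [EvDer.res_coe, Matrix.add_apply, Matrix.mul_apply, Matrix.mul_apply, Subalgebra.coe_add]
  have hc : ∀ (f : ρ → Ev K (n × ρ)), ((∑ t, f t : Ev K (n × ρ)) : Lam K (n × ρ)) =
      ∑ t, (f t : Lam K (n × ρ)) := fun f => map_sum (Ev K (n × ρ)).val f _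
  have hS : ∀ r s : ρ, (Sig J r s : Lam K (n × ρ)) = ∑ i, ∑ j, J i j • (xg (i, r) * xg (j, s)) := by
    intro r s
    have := map_sum (Ev K (n × ρ)).val (fun i => ∑ j, J i j • xx (K := K) (i, r) (j, s)) Finset.univ
    rw [Sig_apply]
    refine this.trans (Finset.sum_congr rfl fun i _ => ?_)
    exact map_sum (Ev K (n × ρ)).val (fun j => J i j • xx (K := K) (i, r) (j, s)) Finset.univ
  rw [hc, hc, hS, map_sum]
  simp only [map_sum, map_smul, (derM M).leib, derM_xg, Subalgebra.coe_mul, hS, smul_add,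
    Finset.sum_add_distrib, Matrix.transpose_apply]
  congr 1
  · simp only [Finset.sum_mul, Finset.mul_sum, Finset.smul_sum, mul_smul_comm]
    calc ∑ i, ∑ j, ∑ t, J i j • (xg (i, t) * (M t r : Lam K (n × ρ)) * xg (j, s))
        = ∑ i, ∑ t, ∑ j, J i j • (xg (i, t) * (M t r : Lam K (n × ρ)) * xg (j, s)) :=
          Finset.sum_congr rfl fun _ _ => Finset.sum_comm
      _ = ∑ t, ∑ i, ∑ j, J i j • (xg (i, t) * (M t r : Lam K (n × ρ)) * xg (j, s)) :=
          Finset.sum_comm
      _ = _ := by
        refine Finset.sum_congr rfl fun t _ => Finset.sum_congr rfl fun i _ =>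
          Finset.sum_congr rfl fun j _ => ?_
        rw [← coe_comm (M t r) (xg (i, t)), mul_assoc]
  · simp only [Finset.sum_mul, Finset.mul_sum, Finset.smul_sum, smul_mul_assoc]
    calc ∑ i, ∑ j, ∑ t, J i j • (xg (i, r) * (xg (j, t) * (M t s : Lam K (n × ρ))))
        = ∑ i, ∑ t, ∑ j, J i j • (xg (i, r) * (xg (j, t) * (M t s : Lam K (n × ρ)))) :=
          Finset.sum_congr rfl fun _ _ => Finset.sum_comm
      _ = ∑ t, ∑ i, ∑ j, J i j • (xg (i, r) * (xg (j, t) * (M t s : Lam K (n × ρ)))) :=
          Finset.sum_comm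
      _ = _ := by
        refine Finset.sum_congr rfl fun t _ => Finset.sum_congr rfl fun i _ =>
          Finset.sum_congr rfl fun j _ => ?_
        rw [mul_assoc]

theorem Eu_eq : (Eu : EvDer K (n × ρ)).lin = (derM (1 : Matrix ρ ρ (Ev K (n × ρ)))).lin := by
  refine LinearMap.ext fun Q => ?_
  rw [Eu, derM, der_apply, der_apply]
  refine Finset.sum_congr rfl fun a _ => ?_
  congr 1
  rw [vM, Finset.sum_eq_single a.2]
  · rw [Matrix.one_apply_eq, Subalgebra.coe_one, mul_one]
  · intro l _ h
    rw [Matrix.one_apply_ne h, Subalgebra.coe_zero, mul_zero]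
  · intro h
    exact absurd (Finset.mem_univ _) h

theorem Eu_Sig (r s : ρ) : (Eu : EvDer K (n × ρ)).res (Sig J r s) = 2 * Sig J r s := by
  have h := derM_Sig J (1 : Matrix ρ ρ (Ev K (n × ρ))) r s
  rw [Matrix.transpose_one, one_mul, mul_one, Matrix.add_apply, ← two_mul] at h
  rw [← h]
  apply Subtype.ext
  rw [EvDer.res_coe, EvDer.res_coe, Eu_eq]

/-- the odd elements `(J C)_{il}` -/
noncomputable def wv (i : n) (l : ρ) : Lam K (n × ρ) := ∑ j, J i j • xg (j, l)

theorem dR_Sig (hJ : Jᵀ = -J) (i : n) (p r l : ρ) :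
    dR (i, p) (Sig J r l) = (if p = r then wv J i l else 0) + if p = l then wv J i r else 0 := by
  have hJ' : ∀ i j, J j i = -J i j := fun i j => congrFun (congrFun hJ i) j
  rw [Sig_apply, map_sum]
  simp only [map_sum, Derivation.map_smul, dR_apply, xx_coe, dd_xg_mul, dd_xg, Prod.mk.injEq,
    smul_sub, Finset.sum_sub_distrib]
  rw [sub_eq_add_neg]
  congr 1
  · by_cases h : p = r
    · subst h
      rw [if_pos rfl, Finset.sum_eq_single i]
      · simp only [and_self, if_true, wv]
      · intro b _ hb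
        simp [Ne.symm hb]
      · intro h
        exact absurd (Finset.mem_univ _) h
    · rw [if_neg h]
      simp [h]
  · by_cases h : p = l
    · subst h
      rw [if_pos rfl, wv, ← Finset.sum_neg_distrib]
      refine Finset.sum_congr rfl fun j _ => ?_
      rw [Finset.sum_eq_single i]
      · simp only [and_self, if_true, mul_one, hJ' i j, neg_smul, neg_neg]
      · intro b _ hb
        simp [Ne.symm hb]
      · intro h
        exact absurd (Finset.mem_univ _) h
    · rw [if_neg h]
      simp [h]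

end Main

end Pool.Agent.helper61.QC
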