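import Mathlib
import Pool.Agent.helper61.QC.Vm

/-!
# The substitution `C ↦ C M`
-/

set_option autoImplicit false
set_option linter.unusedSectionVars false
set_option linter.unusedSimpArgs false

namespace Pool.Agent.helper61.QC

open Matrix

variable {K : Type*} [Field K] [CharZero K] {n ρ : Type*} [Fintype n] [DecidableEq n] [Fintype ρ]
  [DecidableEq ρ] (J : Matrix n n K)

/-- the substitution `C ↦ C M` -/
noncomputable def phi (M : Matrix ρ ρ (Ev K (n × ρ))) : Lam K (n × ρ) →ₐ[K] Lam K (n × ρ) :=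
  hom (vM M) (gr_vM M)

/-- the substitution `C ↦ C M` on the even part -/
noncomputable def phiE (M : Matrix ρ ρ (Ev K (n × ρ))) : Ev K (n × ρ) →ₐ[K] Ev K (n × ρ) :=
  homE (vM M) (gr_vM M)

theorem phiE_coe (M : Matrix ρ ρ (Ev K (n × ρ))) (P : Ev K (n × ρ)) :
    (phiE M P : Lam K (n × ρ)) = phi M P := rfl

theorem phi_xg (M : Matrix ρ ρ (Ev K (n × ρ))) (i : n) (r : ρ) :
    phi M (xg (i, r)) = ∑ l, xg (i, l) * (M l r : Lam K (n × ρ)) := hom_xg _ _ _

theorem Cm_map (M : Matrix ρ ρ (Ev K (n × ρ))) :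
    (Cm K n ρ).map (phi M) = Cm K n ρ * M.map (Ev K (n × ρ)).val := by
  ext1 i r
  rw [Matrix.map_apply, Matrix.mul_apply, Cm, Matrix.of_apply, phi_xg]
  rfl

theorem Cs_map (M : Matrix ρ ρ (Ev K (n × ρ))) :
    (Cs J ρ).map (phi M) = (M.map (Ev K (n × ρ)).val)ᵀ * Cs J ρ := by
  ext1 r j
  rw [Matrix.map_apply, Matrix.mul_apply]
  simp only [Cs, Matrix.of_apply, map_sum, map_smul, phi_xg, Matrix.transpose_apply,
    Matrix.map_apply, Finset.smul_sum, Finset.mul_sum, mul_smul_comm]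
  rw [Finset.sum_comm]
  refine Finset.sum_congr rfl fun s _ => Finset.sum_congr rfl fun k _ => ?_
  congr 1
  exact (coe_comm (M s r) (xg (k, s))).symm

theorem map_phiE_coe {a b : Type*} (M : Matrix ρ ρ (Ev K (n × ρ)))
    (Y : Matrix a b (Ev K (n × ρ))) :
    (Y.map (phiE M)).map (Ev K (n × ρ)).val = (Y.map (Ev K (n × ρ)).val).map (phi M) := rfl

theorem Sig_phiE (M : Matrix ρ ρ (Ev K (n × ρ))) :
    (Sig J).map (phiE M) = (Mᵀ * Sig J * M : Matrix ρ ρ (Ev K (n × ρ))) := by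
  apply map_val_injective
  show ((Sig J).map (phiE M)).map (Ev K (n × ρ)).val =
    (Mᵀ * Sig J * M : Matrix ρ ρ (Ev K (n × ρ))).map (Ev K (n × ρ)).val
  rw [map_phiE_coe, Sig_coe, Matrix.map_mul, Cs_map, Cm_map, Matrix.map_mul, Matrix.map_mul,
    Sig_coe, Matrix.mul_assoc, Matrix.mul_assoc, Matrix.mul_assoc, Matrix.transpose_map]

theorem Th_phiE (M Y : Matrix ρ ρ (Ev K (n × ρ))) :
    (Th J Y).map (phiE M) = Th J (M * Y.map (phiE M) * Mᵀ) := by
  apply map_val_injective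
  show ((Th J Y).map (phiE M)).map (Ev K (n × ρ)).val =
    (Th J (M * Y.map (phiE M) * Mᵀ)).map (Ev K (n × ρ)).val
  rw [map_phiE_coe, Th_coe, Matrix.map_mul, Matrix.map_mul, Cs_map, Cm_map, Th_coe,
    Matrix.map_mul, Matrix.map_mul, map_phiE_coe, Matrix.transpose_map]
  simp only [Matrix.mul_assoc]

/-- derivations of the even part composed with an even derivation of the whole algebra -/
theorem Eu_comm (V : EvDer K (n × ρ)) (c : K)
    (hV : ∀ a, Eu.lin (V.lin (xg a)) - V.lin (xg a) = c • V.lin (xg a))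
    (Q : Lam K (n × ρ)) :
    Eu.lin (V.lin Q) - V.lin (Eu.lin Q) = c • V.lin Q := by
  induction Q using left_ind with
  | h1 => rw [leib_one V.leib, leib_one Eu.leib, map_zero, map_zero, smul_zero, sub_zero]
  | hadd P Q hP hQ =>
    rw [map_add, map_add, map_add, map_add, smul_add, ← hP, ← hQ]; abel
  | hsmul d Q hQ =>
    rw [map_smul, map_smul, map_smul, map_smul, smul_comm, ← hQ, smul_sub]
  | hx a Q hQ =>
    have h1 := hV a
    rw [V.leib, Eu.leib, map_add, map_add, Eu.leib, Eu.leib, V.leib, V.leib, Eu_xg, smul_add,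
      ← smul_mul_assoc, ← h1, ← mul_smul_comm, ← hQ]
    noncomm_ring

end Pool.Agent.helper61.QC
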