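import Mathlib
import Pool.Agent.helper61.QC.FourB

/-!
# The two blocks
-/

set_option autoImplicit false

namespace Pool.Agent.helper61.QC

open Matrix

variable {R : Type*} [CommRing R]

/-- the projection to the second block -/
def pj4 (R : Type*) [CommRing R] : Matrix (Fin 4) (Fin 4) R := 1 - pi4 R

/-- `ε⁻¹` in the first block -/
def eA (R : Type*) [CommRing R] : Matrix (Fin 4) (Fin 4) R := -(E4 R * pi4 R)

/-- `ε⁻¹` in the second block -/
def eB (R : Type*) [CommRing R] : Matrix (Fin 4) (Fin 4) R := -(E4 R * pj4 R)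

/-- minus the determinant of the first block -/
def rA (S : Matrix (Fin 4) (Fin 4) R) : R := S 0 1 * S 0 1 - S 0 0 * S 1 1

/-- minus the determinant of the second block -/
def rB (S : Matrix (Fin 4) (Fin 4) R) : R := S 2 3 * S 2 3 - S 2 2 * S 3 3

/-- the inverse matrix in the first block -/
def Ya (S : Matrix (Fin 4) (Fin 4) R) (Z d : R) : Matrix (Fin 4) (Fin 4) R :=
  d • (Z • eA R + eA R * S * eA R)

/-- the inverse matrix in the second block -/
def Yb (S : Matrix (Fin 4) (Fin 4) R) (W d : R) : Matrix (Fin 4) (Fin 4) R :=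
  d • (W • eB R + eB R * S * eB R)

/-- the product of the two blocks in the first order -/
def Yab (S : Matrix (Fin 4) (Fin 4) R) (Z d W d' : R) : Matrix (Fin 4) (Fin 4) R :=
  Ya S Z d + Yb S W d' + (2 : R) • (Ya S Z d * S * Yb S W d')

/-- the product of the two blocks in the second order -/
def Yba (S : Matrix (Fin 4) (Fin 4) R) (Z d W d' : R) : Matrix (Fin 4) (Fin 4) R :=
  Ya S Z d + Yb S W d' + (2 : R) • (Yb S W d' * S * Ya S Z d)

theorem pi4_sq : pi4 R * pi4 R = pi4 R := by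
  ext i j
  fin_cases i <;> fin_cases j <;> simp [pi4, Matrix.mul_apply, Fin.sum_univ_four]

theorem pj4_sq : pj4 R * pj4 R = pj4 R := by
  rw [pj4, mul_sub, sub_mul, sub_mul, pi4_sq]; simp

theorem pi4_pj4 : pi4 R * pj4 R = 0 := by
  rw [pj4, mul_sub, pi4_sq, mul_one, sub_self]

theorem pj4_pi4 : pj4 R * pi4 R = 0 := by
  rw [pj4, sub_mul, pi4_sq, one_mul, sub_self]

theorem pj4_comm : pj4 R * E4 R = E4 R * pj4 R := by
  rw [pj4, sub_mul, mul_sub, pi4_comm]; simp

theorem pi4_eA : pi4 R * eA R = eA R := by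
  rw [eA, mul_neg, ← mul_assoc, pi4_comm, mul_assoc, pi4_sq]

theorem eA_pi4 : eA R * pi4 R = eA R := by
  rw [eA, neg_mul, mul_assoc, pi4_sq]

theorem pj4_eB : pj4 R * eB R = eB R := by
  rw [eB, mul_neg, ← mul_assoc, pj4_comm, mul_assoc, pj4_sq]

theorem eB_pj4 : eB R * pj4 R = eB R := by
  rw [eB, neg_mul, mul_assoc, pj4_sq]

theorem E4_pi4_eA : E4 R * pi4 R * eA R = pi4 R := by
  rw [mul_assoc, pi4_eA, eA, mul_neg, ← mul_assoc, E4_mul_E4]; simp

theorem E4_pj4_eB : E4 R * pj4 R * eB R = pj4 R := by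
  rw [mul_assoc, pj4_eB, eB, mul_neg, ← mul_assoc, E4_mul_E4]; simp

theorem eA_E4_pi4 : eA R * (E4 R * pi4 R) = pi4 R := by
  rw [eA, neg_mul, mul_assoc, ← mul_assoc (pi4 R), pi4_comm, mul_assoc (E4 R) (pi4 R), pi4_sq,
    ← mul_assoc, E4_mul_E4]; simp

theorem eB_E4_pj4 : eB R * (E4 R * pj4 R) = pj4 R := by
  rw [eB, neg_mul, mul_assoc, ← mul_assoc (pj4 R), pj4_comm, mul_assoc (E4 R) (pj4 R), pj4_sq,
    ← mul_assoc, E4_mul_E4]; simp

theorem pj4_explicit : pj4 R = !![0, 0, 0, 0; 0, 0, 0, 0; 0, 0, 1, 0; 0, 0, 0, 1] := by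
  ext i j
  fin_cases i <;> fin_cases j <;> simp [pj4, pi4]

theorem eA_explicit : eA R = !![0, -1, 0, 0; 1, 0, 0, 0; 0, 0, 0, 0; 0, 0, 0, 0] := by
  ext i j
  fin_cases i <;> fin_cases j <;> simp [eA, E4, pi4, Matrix.mul_apply, Fin.sum_univ_four]

theorem eB_explicit : eB R = !![0, 0, 0, 0; 0, 0, 0, 0; 0, 0, 0, -1; 0, 0, 1, 0] := by
  rw [eB, pj4_explicit]
  ext i j
  fin_cases i <;> fin_cases j <;> simp [E4, Matrix.mul_apply, Fin.sum_univ_four]

theorem eA_sq (S : Matrix (Fin 4) (Fin 4) R) (hS : Sᵀ = S) :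
    eA R * S * eA R * S * pi4 R = rA S • pi4 R := by
  obtain ⟨a, b, c, d, e, f, g, h, i, j, rfl⟩ := exists_entries S hS
  rw [eA_explicit, pi4]
  ext k l
  fin_cases k <;> fin_cases l <;>
    simp [rA, Matrix.mul_apply, Fin.sum_univ_four] <;> ring

theorem eB_sq (S : Matrix (Fin 4) (Fin 4) R) (hS : Sᵀ = S) :
    eB R * S * eB R * S * pj4 R = rB S • pj4 R := by
  obtain ⟨a, b, c, d, e, f, g, h, i, j, rfl⟩ := exists_entries S hS
  rw [eB_explicit, pj4_explicit]
  ext k l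
  fin_cases k <;> fin_cases l <;>
    simp [rB, Matrix.mul_apply, Fin.sum_univ_four] <;> ring

theorem eA_sq' (S : Matrix (Fin 4) (Fin 4) R) (hS : Sᵀ = S) :
    pi4 R * S * eA R * S * eA R = rA S • pi4 R := by
  obtain ⟨a, b, c, d, e, f, g, h, i, j, rfl⟩ := exists_entries S hS
  rw [eA_explicit, pi4]
  ext k l
  fin_cases k <;> fin_cases l <;>
    simp [rA, Matrix.mul_apply, Fin.sum_univ_four] <;> ring

theorem eB_sq' (S : Matrix (Fin 4) (Fin 4) R) (hS : Sᵀ = S) :
    pj4 R * S * eB R * S * eB R = rB S • pj4 R := by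
  obtain ⟨a, b, c, d, e, f, g, h, i, j, rfl⟩ := exists_entries S hS
  rw [eB_explicit, pj4_explicit]
  ext k l
  fin_cases k <;> fin_cases l <;>
    simp [rB, Matrix.mul_apply, Fin.sum_univ_four] <;> ring

end Pool.Agent.helper61.QC
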