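import Mathlib
import Pool.Agent.helper61.QC.FourC

/-!
# Inverse matrices of the blocks
-/

set_option autoImplicit false

namespace Pool.Agent.helper61.QC

open Matrix

variable {R : Type*} [CommRing R] {S : Matrix (Fin 4) (Fin 4) R}

/-- the first diagonal block of twice the inverse -/
def Ga (S : Matrix (Fin 4) (Fin 4) R) (Z : R) : Matrix (Fin 4) (Fin 4) R :=
  Z • (E4 R * pi4 R) - pi4 R * S * pi4 R

/-- the second diagonal block of twice the inverse -/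
def Gb (S : Matrix (Fin 4) (Fin 4) R) (W : R) : Matrix (Fin 4) (Fin 4) R :=
  W • (E4 R * pj4 R) - pj4 R * S * pj4 R

theorem pi_Ya (Z d : R) : pi4 R * Ya S Z d = Ya S Z d := by
  rw [Ya, mul_smul_comm, mul_add, mul_smul_comm, pi4_eA, ← mul_assoc, ← mul_assoc, pi4_eA]

theorem Ya_pi (Z d : R) : Ya S Z d * pi4 R = Ya S Z d := by
  rw [Ya, smul_mul_assoc, add_mul, smul_mul_assoc, eA_pi4, mul_assoc, eA_pi4]

theorem pj_Yb (Z d : R) : pj4 R * Yb S Z d = Yb S Z d := by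
  rw [Yb, mul_smul_comm, mul_add, mul_smul_comm, pj4_eB, ← mul_assoc, ← mul_assoc, pj4_eB]

theorem Yb_pj (Z d : R) : Yb S Z d * pj4 R = Yb S Z d := by
  rw [Yb, smul_mul_assoc, add_mul, smul_mul_assoc, eB_pj4, mul_assoc, eB_pj4]

theorem pj_Ya (Z d : R) : pj4 R * Ya S Z d = 0 := by
  rw [← pi_Ya, ← mul_assoc, pj4_pi4, zero_mul]

theorem Ya_pj (Z d : R) : Ya S Z d * pj4 R = 0 := by
  rw [← Ya_pi, mul_assoc, pi4_pj4, mul_zero]

theorem pi_Yb (Z d : R) : pi4 R * Yb S Z d = 0 := by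
  rw [← pj_Yb, ← mul_assoc, pi4_pj4, zero_mul]

theorem Yb_pi (Z d : R) : Yb S Z d * pi4 R = 0 := by
  rw [← Yb_pj, mul_assoc, pj4_pi4, mul_zero]

theorem pi_Ga (Z : R) : pi4 R * Ga S Z = Ga S Z := by
  rw [Ga, mul_sub, mul_smul_comm, ← mul_assoc, pi4_comm, mul_assoc, pi4_sq, ← mul_assoc,
    ← mul_assoc, pi4_sq]

theorem Ga_pi (Z : R) : Ga S Z * pi4 R = Ga S Z := by
  rw [Ga, sub_mul, smul_mul_assoc, mul_assoc, pi4_sq, mul_assoc, pi4_sq]

theorem pj_Gb (Z : R) : pj4 R * Gb S Z = Gb S Z := by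
  rw [Gb, mul_sub, mul_smul_comm, ← mul_assoc, pj4_comm, mul_assoc, pj4_sq, ← mul_assoc,
    ← mul_assoc, pj4_sq]

theorem Gb_pj (Z : R) : Gb S Z * pj4 R = Gb S Z := by
  rw [Gb, sub_mul, smul_mul_assoc, mul_assoc, pj4_sq, mul_assoc, pj4_sq]

theorem Ga_Yb (Z W d : R) : Ga S Z * Yb S W d = 0 := by
  rw [← Ga_pi, mul_assoc, pi_Yb, mul_zero]

theorem Gb_Ya (Z W d : R) : Gb S Z * Ya S W d = 0 := by
  rw [← Gb_pj, mul_assoc, pj_Ya, mul_zero]

theorem Yb_Ga (Z W d : R) : Yb S W d * Ga S Z = 0 := by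
  rw [← pi_Ga, ← mul_assoc, Yb_pi, zero_mul]

theorem Ya_Gb (Z W d : R) : Ya S W d * Gb S Z = 0 := by
  rw [← pj_Gb, ← mul_assoc, Ya_pj, zero_mul]

theorem Ga_Ya (hS : Sᵀ = S) {Z d : R} (h : d * (Z * Z - rA S) = 1) :
    Ga S Z * Ya S Z d = pi4 R := by
  have h1 : Ga S Z * (Z • eA R + eA R * S * eA R) = (Z * Z - rA S) • pi4 R := by
    rw [Ga, sub_mul, mul_add, mul_add, mul_smul_comm, smul_mul_assoc, E4_pi4_eA, smul_mul_assoc,
      ← mul_assoc (E4 R * pi4 R), ← mul_assoc (E4 R * pi4 R), E4_pi4_eA, mul_smul_comm,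
      mul_assoc (pi4 R * S), pi4_eA, mul_assoc (pi4 R * S), ← mul_assoc (pi4 R),
      ← mul_assoc (pi4 R), pi4_eA, ← mul_assoc, ← mul_assoc, eA_sq' S hS]
    module
  rw [Ya, mul_smul_comm, h1, smul_smul, h, one_smul]

theorem Ya_Ga (hS : Sᵀ = S) {Z d : R} (h : d * (Z * Z - rA S) = 1) :
    Ya S Z d * Ga S Z = pi4 R := by
  have h1 : (Z • eA R + eA R * S * eA R) * Ga S Z = (Z * Z - rA S) • pi4 R := by
    rw [Ga, mul_sub, add_mul, add_mul, mul_smul_comm, smul_mul_assoc, eA_E4_pi4, mul_smul_comm,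
      mul_assoc (eA R * S), eA_E4_pi4, smul_mul_assoc, ← mul_assoc (eA R), ← mul_assoc (eA R),
      eA_pi4, mul_assoc (eA R * S), ← mul_assoc (eA R) (pi4 R * S), ← mul_assoc (eA R) (pi4 R),
      eA_pi4, ← mul_assoc, ← mul_assoc, eA_sq S hS]
    module
  rw [Ya, smul_mul_assoc, h1, smul_smul, h, one_smul]

theorem Gb_Yb (hS : Sᵀ = S) {Z d : R} (h : d * (Z * Z - rB S) = 1) :
    Gb S Z * Yb S Z d = pj4 R := by
  have h1 : Gb S Z * (Z • eB R + eB R * S * eB R) = (Z * Z - rB S) • pj4 R := by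
    rw [Gb, sub_mul, mul_add, mul_add, mul_smul_comm, smul_mul_assoc, E4_pj4_eB, smul_mul_assoc,
      ← mul_assoc (E4 R * pj4 R), ← mul_assoc (E4 R * pj4 R), E4_pj4_eB, mul_smul_comm,
      mul_assoc (pj4 R * S), pj4_eB, mul_assoc (pj4 R * S), ← mul_assoc (pj4 R),
      ← mul_assoc (pj4 R), pj4_eB, ← mul_assoc, ← mul_assoc, eB_sq' S hS]
    module
  rw [Yb, mul_smul_comm, h1, smul_smul, h, one_smul]

theorem Yb_Gb (hS : Sᵀ = S) {Z d : R} (h : d * (Z * Z - rB S) = 1) :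
    Yb S Z d * Gb S Z = pj4 R := by
  have h1 : (Z • eB R + eB R * S * eB R) * Gb S Z = (Z * Z - rB S) • pj4 R := by
    rw [Gb, mul_sub, add_mul, add_mul, mul_smul_comm, smul_mul_assoc, eB_E4_pj4, mul_smul_comm,
      mul_assoc (eB R * S), eB_E4_pj4, smul_mul_assoc, ← mul_assoc (eB R), ← mul_assoc (eB R),
      eB_pj4, mul_assoc (eB R * S), ← mul_assoc (eB R) (pj4 R * S), ← mul_assoc (eB R) (pj4 R),
      eB_pj4, ← mul_assoc, ← mul_assoc, eB_sq S hS]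
    module
  rw [Yb, smul_mul_assoc, h1, smul_smul, h, one_smul]

theorem E4_pi_sg : E4 R * (pi4 R * sg S - sg S * pi4 R) = pi4 R * S - S * pi4 R := by
  rw [mul_sub, ← mul_assoc, ← pi4_comm, mul_assoc, E4_sg, ← mul_assoc, E4_sg]

theorem Gab_eq (W U : R) :
    Gab S W U = Ga S (W + U) + Gb S W - (2 : R) • (pi4 R * S * pj4 R) := by
  rw [Gab, mul_sub, E4_pi_sg, Ga, Gb, mul_smul_comm, pj4]
  simp only [mul_sub, sub_mul, mul_one, one_mul]
  module

theorem Gba_eq (W U : R) :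
    Gba S W U = Ga S (W + U) + Gb S W - (2 : R) • (pj4 R * S * pi4 R) := by
  rw [Gba, mul_add, E4_pi_sg, Ga, Gb, mul_smul_comm, pj4]
  simp only [mul_sub, sub_mul, mul_one, one_mul]
  module

theorem pi_add_pj : pi4 R + pj4 R = 1 := by rw [pj4]; simp

theorem Gab_Yab (hS : Sᵀ = S) {Z d W d' : R} (h : d * (Z * Z - rA S) = 1)
    (h' : d' * (W * W - rB S) = 1) : Gab S W (Z - W) * Yab S Z d W d' = 1 := by
  rw [Gab_eq, add_sub_cancel, Yab, sub_mul, add_mul, mul_add, mul_add, mul_add, mul_add,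
    Ga_Ya hS h, Ga_Yb, mul_smul_comm, ← mul_assoc, ← mul_assoc, Ga_Ya hS h, Gb_Ya, Gb_Yb hS h',
    mul_smul_comm, ← mul_assoc, ← mul_assoc, Gb_Ya, zero_mul, zero_mul, smul_zero,
    mul_add, mul_add, smul_mul_assoc, mul_assoc (pi4 R * S), pj_Ya, mul_zero, smul_zero,
    smul_mul_assoc, mul_assoc (pi4 R * S), pj_Yb, mul_smul_comm, smul_mul_assoc, ← mul_assoc,
    ← mul_assoc, mul_assoc (pi4 R * S), pj_Ya]
  simp only [mul_zero, zero_mul, smul_zero, add_zero, zero_add]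
  rw [add_sub_assoc, add_comm (pi4 R), add_assoc]
  conv_rhs => rw [← pi_add_pj (R := R)]
  abel

theorem Yba_Gba (hS : Sᵀ = S) {Z d W d' : R} (h : d * (Z * Z - rA S) = 1)
    (h' : d' * (W * W - rB S) = 1) : Yba S Z d W d' * Gba S W (Z - W) = 1 := by
  have e1 : Yba S Z d W d' * Ga S Z = pi4 R + (2 : R) • (Yb S W d' * S * pi4 R) := by
    rw [Yba, add_mul, add_mul, Ya_Ga hS h, Yb_Ga, smul_mul_assoc, mul_assoc, Ya_Ga hS h,
      add_zero]
  have e2 : Yba S Z d W d' * Gb S W = pj4 R := by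
    rw [Yba, add_mul, add_mul, Ya_Gb, Yb_Gb hS h', smul_mul_assoc, mul_assoc, Ya_Gb, mul_zero,
      smul_zero, add_zero, zero_add]
  have e3 : Yba S Z d W d' * pj4 R = Yb S W d' := by
    rw [Yba, add_mul, add_mul, Ya_pj, Yb_pj, smul_mul_assoc, mul_assoc, Ya_pj, mul_zero,
      smul_zero, add_zero, zero_add]
  rw [Gba_eq, add_sub_cancel, mul_sub, mul_add, e1, e2, mul_smul_comm, ← mul_assoc, ← mul_assoc,
    e3]
  conv_rhs => rw [← pi_add_pj (R := R)]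
  abel

/-- the exchange relation -/
theorem Y_exchange (hS : Sᵀ = S) {k : R} {v : Rˣ} (hv : (v : R) * v = Nn S k)
    {Z d W d' : R} (h : d * (Z * Z - rA S) = 1) (h' : d' * (W * W - rB S) = 1)
    (hk : k * (Z - W) = 1) :
    hm S k v * Yba S Z d W d' * (hm S k v)ᵀ = Yab S Z d W d' :=
  Y_eq hS hv W (Z - W) hk (Gab_Yab hS h h') (Yba_Gba hS h h')

/-- the equation for the Cayley transform -/
theorem Ya_cayley (hS : Sᵀ = S) {y Z d : R} (hy : y * Z = 1) (h : d * (Z * Z - rA S) = 1) :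
    Ya S Z d - y • (Ya S Z d * S * eA R) = y • eA R := by
  have h1 : Z • Ya S Z d - Ya S Z d * S * eA R = eA R := by
    have h2 : Ya S Z d * Ga S Z * eA R = eA R := by rw [Ya_Ga hS h, pi4_eA]
    rw [Ga, mul_assoc, sub_mul, smul_mul_assoc, E4_pi4_eA, mul_assoc (pi4 R * S), pi4_eA, mul_sub,
      mul_smul_comm, Ya_pi, ← mul_assoc, ← mul_assoc, Ya_pi] at h2
    exact h2
  have h3 := congrArg (fun M => y • M) h1
  simp only [smul_sub, smul_smul, hy, one_smul] at h3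
  exact h3

theorem Yb_cayley (hS : Sᵀ = S) {y Z d : R} (hy : y * Z = 1) (h : d * (Z * Z - rB S) = 1) :
    Yb S Z d - y • (Yb S Z d * S * eB R) = y • eB R := by
  have h1 : Z • Yb S Z d - Yb S Z d * S * eB R = eB R := by
    have h2 : Yb S Z d * Gb S Z * eB R = eB R := by rw [Yb_Gb hS h, pj4_eB]
    rw [Gb, mul_assoc, sub_mul, smul_mul_assoc, E4_pj4_eB, mul_assoc (pj4 R * S), pj4_eB, mul_sub,
      mul_smul_comm, Yb_pj, ← mul_assoc, ← mul_assoc, Yb_pj] at h2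
    exact h2
  have h3 := congrArg (fun M => y • M) h1
  simp only [smul_sub, smul_smul, hy, one_smul] at h3
  exact h3

end Pool.Agent.helper61.QC
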