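import Mathlib
import Pool.Agent.helper61.QC.Vm
import Pool.Agent.helper61.QC.FourD

/-!
# The derivations `C ↦ C σ` and `C ↦ C σ³` are divergence free and kill `Σ`
-/

set_option autoImplicit false
set_option linter.unusedSectionVars false
set_option linter.unusedSimpArgs false

namespace Pool.Agent.helper61.QC

open Matrix

variable {K : Type*} [Field K] [CharZero K] {n : Type*} [Fintype n] [DecidableEq n]
  (J : Matrix n n K)

/-- the even part with `4` vectors -/
abbrev R4 (K : Type*) [Field K] (n : Type*) [Fintype n] [DecidableEq n] : Type _ :=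
  Ev K (n × Fin 4)

/-- `σ` -/
noncomputable def sgJ : Matrix (Fin 4) (Fin 4) (R4 K n) := sg (Sig J)

theorem E4_algebraMap (k r : Fin 4) :
    E4 (R4 K n) k r = algebraMap K (R4 K n) (E4 K k r) := by
  fin_cases k <;> fin_cases r <;> simp [E4]

theorem coe_smulΛ (P : R4 K n) (Q : Lam K (n × Fin 4)) : P • Q = (P : Lam K (n × Fin 4)) * Q := rfl

theorem algebraMap_smulΛ (c : K) (Q : Lam K (n × Fin 4)) :
    (algebraMap K (R4 K n) c) • Q = c • Q := by
  rw [coe_smulΛ, Subalgebra.coe_algebraMap, Algebra.smul_def]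

theorem dR_sgJ (hJ : Jᵀ = -J) (i : n) (p k l : Fin 4) :
    dR (i, p) (sgJ J k l) = -(E4 K k p • wv J i l) -
      if p = l then ∑ r, E4 K k r • wv J i r else 0 := by
  rw [sgJ, sg, Matrix.mul_apply, map_sum]
  have h : ∀ r, dR (i, p) ((-(E4 (R4 K n))) k r * Sig J r l) =
      -(E4 K k r • ((if p = r then wv J i l else 0) + if p = l then wv J i r else 0)) := by
    intro r
    rw [Matrix.neg_apply, E4_algebraMap, ← map_neg, ← Algebra.smul_def, Derivation.map_smul,
      dR_Sig J hJ, neg_smul]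
  simp only [h, smul_add, neg_add, Finset.sum_add_distrib]
  rw [sub_eq_add_neg]
  congr 1
  · rw [Finset.sum_neg_distrib]
    congr 1
    rw [Finset.sum_eq_single p]
    · rw [if_pos rfl]
    · intro b _ hb
      rw [if_neg (Ne.symm hb), smul_zero]
    · intro h
      exact absurd (Finset.mem_univ _) h
  · rw [Finset.sum_neg_distrib]
    congr 1
    by_cases hp : p = l
    · simp [hp]
    · simp [hp]

theorem sum_dR (hJ : Jᵀ = -J) (M : Matrix (Fin 4) (Fin 4) (R4 K n))
    (hM : (M * E4 (R4 K n))ᵀ = M * E4 (R4 K n)) (i : n) (p : Fin 4) :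
    ∑ k, ∑ l, M l k • dR (i, p) (sgJ J k l) =
      -((2 : ℕ) • ∑ l, (M * E4 (R4 K n)) l p • wv J i l) := by
  have hM' : ∀ a b, (M * E4 (R4 K n)) b a = (M * E4 (R4 K n)) a b :=
    fun a b => congrFun (congrFun hM a) b
  simp only [dR_sgJ J hJ, smul_sub, smul_neg, Finset.sum_sub_distrib, Finset.sum_neg_distrib]
  rw [two_smul, neg_add, sub_eq_add_neg]
  congr 1
  · congr 1
    rw [Finset.sum_comm]
    refine Finset.sum_congr rfl fun l _ => ?_
    rw [Matrix.mul_apply, Finset.sum_smul]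
    refine Finset.sum_congr rfl fun k _ => ?_
    rw [mul_smul, E4_algebraMap, algebraMap_smulΛ]
  · congr 1
    have h1 : ∀ k, ∑ l, M l k • (if p = l then ∑ r, E4 K k r • wv J i r else 0) =
        ∑ r, (M p k * E4 (R4 K n) k r) • wv J i r := by
      intro k
      rw [Finset.sum_eq_single p]
      · rw [if_pos rfl, Finset.smul_sum]
        refine Finset.sum_congr rfl fun r _ => ?_
        rw [mul_smul, E4_algebraMap, algebraMap_smulΛ]
      · intro b _ hb
        rw [if_neg (Ne.symm hb), smul_zero]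
      · intro h
        exact absurd (Finset.mem_univ _) h
    simp only [h1]
    rw [Finset.sum_comm]
    refine Finset.sum_congr rfl fun r _ => ?_
    rw [hM' p r, Matrix.mul_apply, Finset.sum_smul]

theorem div_of_ham (hJ : Jᵀ = -J) (hJu : IsUnit J.det) (M : Matrix (Fin 4) (Fin 4) (R4 K n))
    (H : R4 K n) (c : K) (hc : c ≠ 0)
    (hH : ∀ i p, dR (i, p) H = c • ∑ l, (M * E4 (R4 K n)) l p • wv J i l) :
    ∑ b, dd b (vM M b) = 0 := by
  have hv : ∀ b : n × Fin 4, vM M b = -(c⁻¹ • ∑ a : n × Fin 4,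
      (J⁻¹ b.1 a.1 * E4 K a.2 b.2) • dd a (H : Lam K (n × Fin 4))) := by
    rintro ⟨j, q⟩
    rw [Fintype.sum_prod_type]
    have h1 : ∀ (i : n) (p : Fin 4), (J⁻¹ j i * E4 K p q) • dd (i, p) (H : Lam K (n × Fin 4)) =
        c • ∑ l, (M * E4 (R4 K n)) l p • E4 K p q • J⁻¹ j i • wv J i l := by
      intro i p
      have := hH i p
      rw [dR_apply] at this
      rw [this, smul_comm, Finset.smul_sum]
      congr 1
      refine Finset.sum_congr rfl fun l _ => ?_
      rw [mul_comm, mul_smul, smul_comm _ ((M * E4 (R4 K n)) l p),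
        smul_comm _ ((M * E4 (R4 K n)) l p)]
    have h2 : ∀ l : Fin 4, ∑ i, J⁻¹ j i • wv J i l = xg (j, l) := by
      intro l
      simp only [wv, Finset.smul_sum, smul_smul]
      rw [Finset.sum_comm]
      have h3 : ∀ k, ∑ i, (J⁻¹ j i * J i k) • (xg (k, l) : Lam K (n × Fin 4)) =
          (1 : Matrix n n K) j k • (xg (k, l) : Lam K (n × Fin 4)) := by
        intro k
        rw [← Finset.sum_smul, ← Matrix.nonsing_inv_mul J hJu, Matrix.mul_apply]
      simp only [h3]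
      rw [Finset.sum_eq_single j]
      · rw [Matrix.one_apply_eq, one_smul]
      · intro b _ hb
        rw [Matrix.one_apply_ne (Ne.symm hb), zero_smul]
      · intro h
        exact absurd (Finset.mem_univ _) h
    have h4 : ∑ i, ∑ p, (J⁻¹ j i * E4 K p q) • dd (i, p) (H : Lam K (n × Fin 4)) =
        c • ∑ l, ∑ p, (M * E4 (R4 K n)) l p • E4 K p q • (xg (j, l) : Lam K (n × Fin 4)) := by
      simp only [h1, ← Finset.smul_sum]
      congr 1
      calc ∑ i, ∑ p, ∑ l, (M * E4 (R4 K n)) l p • E4 K p q • J⁻¹ j i • wv J i l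
          = ∑ i, ∑ l, ∑ p, (M * E4 (R4 K n)) l p • E4 K p q • J⁻¹ j i • wv J i l :=
            Finset.sum_congr rfl fun _ _ => Finset.sum_comm
        _ = ∑ l, ∑ i, ∑ p, (M * E4 (R4 K n)) l p • E4 K p q • J⁻¹ j i • wv J i l :=
            Finset.sum_comm
        _ = ∑ l, ∑ p, ∑ i, (M * E4 (R4 K n)) l p • E4 K p q • J⁻¹ j i • wv J i l :=
            Finset.sum_congr rfl fun _ _ => Finset.sum_comm
        _ = _ := by
          refine Finset.sum_congr rfl fun l _ => Finset.sum_congr rfl fun p _ => ?_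
          rw [← Finset.smul_sum, ← Finset.smul_sum, h2]
    rw [h4, smul_smul, inv_mul_cancel₀ hc, one_smul, vM, ← Finset.sum_neg_distrib]
    refine Finset.sum_congr rfl fun l _ => ?_
    have h5 : ∑ p, (M * E4 (R4 K n)) l p • E4 K p q • (xg (j, l) : Lam K (n × Fin 4)) =
        ((M * E4 (R4 K n)) * E4 (R4 K n)) l q • (xg (j, l) : Lam K (n × Fin 4)) := by
      rw [Matrix.mul_apply, Finset.sum_smul]
      refine Finset.sum_congr rfl fun p _ => ?_
      rw [mul_smul, E4_algebraMap p q, algebraMap_smulΛ]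
    rw [h5, mul_assoc, E4_mul_E4, mul_neg, mul_one, Matrix.neg_apply, neg_smul, neg_neg,
      coe_smulΛ, coe_comm]
  have h0 := div_ham (fun a b : n × Fin 4 => J⁻¹ b.1 a.1 * E4 K a.2 b.2) (by
    intro a b
    have e1 : ∀ p q : Fin 4, E4 K q p = -E4 K p q := fun p q =>
      congrFun (congrFun (E4_transpose (R := K)) p) q
    have e2 : ∀ i j, J⁻¹ j i = -J⁻¹ i j := by
      intro i j
      have h : (J⁻¹)ᵀ = -J⁻¹ := by
        rw [Matrix.transpose_nonsing_inv, hJ]
        exact Matrix.inv_eq_right_inv (by rw [neg_mul_neg, Matrix.mul_nonsing_inv J hJu])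
      exact congrFun (congrFun h i) j
    rw [e1 a.2 b.2, e2 a.1 b.1]
    ring) (H : Lam K (n × Fin 4))
  simp only [hv, map_neg, map_smul, Finset.sum_neg_distrib]
  rw [← Finset.smul_sum, h0, smul_zero, neg_zero]

theorem sgJ_transpose (hJ : Jᵀ = -J) : (sgJ J)ᵀ = E4 (R4 K n) * sgJ J * E4 (R4 K n) := by
  have h := sg_transpose (Sig J) (Sig_symm J hJ)
  have h1 : (sgJ J)ᵀ * E4 (R4 K n) = -(E4 (R4 K n) * sgJ J) := h
  have h3 : (sgJ J)ᵀ * E4 (R4 K n) * E4 (R4 K n) = -(E4 (R4 K n) * sgJ J) * E4 (R4 K n) := by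
    rw [h1]
  rw [mul_assoc, E4_mul_E4, mul_neg, mul_one, neg_mul, neg_inj] at h3
  exact h3

theorem E4_E4_mul (X : Matrix (Fin 4) (Fin 4) (R4 K n)) :
    E4 (R4 K n) * (E4 (R4 K n) * X) = -X := by
  rw [← mul_assoc, E4_mul_E4, neg_mul, one_mul]

theorem sgJ_E4_symm (hJ : Jᵀ = -J) : (sgJ J * E4 (R4 K n))ᵀ = sgJ J * E4 (R4 K n) := by
  simp only [Matrix.transpose_mul, E4_transpose, sgJ_transpose J hJ, mul_assoc, neg_mul,
    E4_E4_mul, mul_neg, neg_neg]

theorem sgJ3_E4_symm (hJ : Jᵀ = -J) :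
    (sgJ J * sgJ J * sgJ J * E4 (R4 K n))ᵀ = sgJ J * sgJ J * sgJ J * E4 (R4 K n) := by
  simp only [Matrix.transpose_mul, E4_transpose, sgJ_transpose J hJ, mul_assoc, neg_mul,
    E4_E4_mul, mul_neg, neg_neg]

theorem div_sgJ (hJ : Jᵀ = -J) (hJu : IsUnit J.det) : ∑ b, dd b (vM (sgJ J) b) = 0 := by
  refine div_of_ham J hJ hJu (sgJ J) (Matrix.trace (sgJ J * sgJ J)) (-4) (by norm_num) ?_
  intro i p
  rw [D_trace_two, sum_dR J hJ _ (sgJ_E4_symm J hJ), smul_neg, smul_smul, neg_smul,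
    ← Nat.cast_smul_eq_nsmul K]
  norm_num

theorem div_sgJ3 (hJ : Jᵀ = -J) (hJu : IsUnit J.det) :
    ∑ b, dd b (vM (sgJ J * sgJ J * sgJ J) b) = 0 := by
  refine div_of_ham J hJ hJu (sgJ J * sgJ J * sgJ J)
    (Matrix.trace (sgJ J * sgJ J * (sgJ J * sgJ J))) (-8) (by norm_num) ?_
  intro i p
  rw [D_trace_four, sum_dR J hJ _ (sgJ3_E4_symm J hJ), smul_neg, smul_smul, neg_smul,
    ← Nat.cast_smul_eq_nsmul K]
  norm_num

theorem sgJ_kills (hJ : Jᵀ = -J) :
    (sgJ J)ᵀ * Sig J + Sig J * sgJ J = (0 : Matrix (Fin 4) (Fin 4) (R4 K n)) := by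
  have h : Sig J = E4 (R4 K n) * sgJ J := (E4_sg (S := Sig J)).symm
  rw [sgJ_transpose J hJ, h]
  simp only [mul_assoc, E4_E4_mul, mul_neg]
  exact neg_add_cancel _

theorem sgJ3_kills (hJ : Jᵀ = -J) :
    (sgJ J * sgJ J * sgJ J)ᵀ * Sig J + Sig J * (sgJ J * sgJ J * sgJ J) =
      (0 : Matrix (Fin 4) (Fin 4) (R4 K n)) := by
  have h : Sig J = E4 (R4 K n) * sgJ J := (E4_sg (S := Sig J)).symm
  rw [Matrix.transpose_mul, Matrix.transpose_mul, sgJ_transpose J hJ, h]
  simp only [mul_assoc, E4_E4_mul, mul_neg, neg_mul, neg_neg]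
  exact neg_add_cancel _

end Pool.Agent.helper61.QC
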