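import Mathlib
import Pool.Agent.helper61.QC.VmB
import Pool.Agent.helper61.QC.Nil
import Pool.Agent.helper61.QC.Phi
import Pool.Agent.helper61.QC.ExpL
import Pool.Agent.helper61.QC.Hder

/-!
# The subalgebra generated by the entries of `Σ`
-/

set_option autoImplicit false
set_option linter.unusedSectionVars false
set_option linter.unusedSimpArgs false

namespace Pool.Agent.helper61.QC

open Matrix

section RatAlg

variable {K : Type*} [Field K] [CharZero K] {I : Type*} [Fintype I] [DecidableEq I]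

noncomputable instance instRatEv : Algebra ℚ (Ev K I) := Algebra.compHom (Ev K I) (algebraMap ℚ K)

instance instTowerEv : IsScalarTower ℚ K (Ev K I) :=
  IsScalarTower.of_algebraMap_eq fun _ => rfl

theorem rat_smul_eq (q : ℚ) (P : Ev K I) : q • P = (q : K) • P := by
  rw [← algebraMap_smul K q P, eq_ratCast]

end RatAlg

variable {K : Type*} [Field K] [CharZero K] {n : Type*} [Fintype n] [DecidableEq n]
  (J : Matrix n n K)

/-- the subalgebra generated by the entries of `Σ` -/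
noncomputable def SS : Subalgebra K (R4 K n) :=
  Algebra.adjoin K (Set.range fun p : Fin 4 × Fin 4 => Sig J p.1 p.2)

theorem Sig_mem (i j : Fin 4) : Sig J i j ∈ SS J := Algebra.subset_adjoin ⟨(i, j), rfl⟩

theorem augE_xx (a b : n × Fin 4) : augE (xx a b : R4 K n) = 0 := by
  rw [augE_apply, xx_coe, map_mul, aug_xg, zero_mul]

theorem augE_Sig (i j : Fin 4) : augE (Sig J i j : R4 K n) = 0 := by
  rw [Sig_apply, map_sum]
  refine Finset.sum_eq_zero fun a _ => ?_
  rw [map_sum]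
  refine Finset.sum_eq_zero fun b _ => ?_
  rw [map_smul, augE_xx, smul_zero]

theorem res_kills {V : EvDer K (n × Fin 4)} (hV : ∀ i j, V.res (Sig J i j) = 0) {P : R4 K n}
    (hP : P ∈ SS J) : V.res P = 0 := by
  induction hP using Algebra.adjoin_induction with
  | mem x hx => obtain ⟨p, rfl⟩ := hx; exact hV _ _
  | algebraMap r => exact V.res.map_algebraMap r
  | add x y _ _ hx hy => rw [map_add, hx, hy, add_zero]
  | mul x y _ _ hx hy => rw [Derivation.leibniz, hx, hy, smul_zero, smul_zero, add_zero]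

theorem Eu_mem {P : R4 K n} (hP : P ∈ SS J) : (Eu : EvDer K (n × Fin 4)).res P ∈ SS J := by
  induction hP using Algebra.adjoin_induction with
  | mem x hx =>
    obtain ⟨p, rfl⟩ := hx
    rw [Eu_Sig, two_mul]
    exact add_mem (Sig_mem J _ _) (Sig_mem J _ _)
  | algebraMap r => rw [Derivation.map_algebraMap]; exact zero_mem _
  | add x y _ _ hx hy => rw [map_add]; exact add_mem hx hy
  | mul x y hx' hy' hx hy =>
    rw [Derivation.leibniz, smul_eq_mul, smul_eq_mul]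
    exact add_mem (mul_mem hx' hy) (mul_mem hy' hx)

theorem hom_fixes {ψ : R4 K n →ₐ[K] R4 K n} (hψ : ∀ i j, ψ (Sig J i j) = Sig J i j)
    {P : R4 K n} (hP : P ∈ SS J) : ψ P = P := by
  induction hP using Algebra.adjoin_induction with
  | mem x hx => obtain ⟨p, rfl⟩ := hx; exact hψ _ _
  | algebraMap r => exact ψ.commutes r
  | add x y _ _ hx hy => rw [map_add, hx, hy]
  | mul x y _ _ hx hy => rw [map_mul, hx, hy]

theorem inv_mem {P : R4 K n} (hP : P ∈ SS J) (h : augE P ≠ 0) :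
    ∃ Q ∈ SS J, P * Q = 1 ∧ augE Q = (augE P)⁻¹ := by
  obtain ⟨u, hu⟩ := isUnitS (SS J) (P := ⟨P, hP⟩) h
  refine ⟨((u⁻¹ : (SS J)ˣ) : SS J), Subtype.property _, ?_, ?_⟩
  · have h1 : (u : SS J) * ((u⁻¹ : (SS J)ˣ) : SS J) = 1 := u.mul_inv
    rw [hu] at h1
    exact congrArg Subtype.val h1
  · have h1 : (u : SS J) * ((u⁻¹ : (SS J)ˣ) : SS J) = 1 := u.mul_inv
    rw [hu] at h1
    have h2 := congrArg (fun x : SS J => augE (x : R4 K n)) h1
    simp only [Subalgebra.coe_mul, map_mul, Subalgebra.coe_one, map_one] at h2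
    exact eq_inv_of_mul_eq_one_right h2

theorem sqrt_mem {P : R4 K n} (hP : P ∈ SS J) (h : augE P = 1) :
    ∃ v : (R4 K n)ˣ, (v : R4 K n) * v = P ∧ (v : R4 K n) ∈ SS J ∧
      ((v⁻¹ : (R4 K n)ˣ) : R4 K n) ∈ SS J ∧ augE (v : R4 K n) = 1 := by
  obtain ⟨v, hv, hv1⟩ := exists_sqrt (SS J) (P := ⟨P, hP⟩) h
  refine ⟨Units.map (SS J).val.toRingHom.toMonoidHom v, ?_, ?_, ?_, hv1⟩
  · exact congrArg Subtype.val hv
  · exact (v : SS J).2
  · exact ((v⁻¹ : (SS J)ˣ) : SS J).2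

theorem adjoin_le {ρ : R4 K n} (hρ : ρ ∈ SS J) {x : R4 K n} (hx : x ∈ Algebra.adjoin ℚ {ρ}) :
    x ∈ SS J := by
  have h : Algebra.adjoin ℚ {ρ} ≤ (SS J).restrictScalars ℚ :=
    Algebra.adjoin_le (by rintro _ rfl; exact hρ)
  exact h hx

theorem two_smul_half (γ : K) (X : Matrix n n (R4 K n)) : (2 : ℚ) • ((γ / 2) • X) = γ • X := by
  ext1 i j
  simp only [Matrix.smul_apply]
  rw [rat_smul_eq, smul_smul]
  congr 1
  push_cast
  field_simp

theorem augE_co {M : ℕ} (hM : 0 < M) {ρ : R4 K n} (h : augE ρ = 0) : augE (co M ρ) = 1 := by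
  obtain ⟨M, rfl⟩ : ∃ M', M = M' + 1 := ⟨M - 1, by omega⟩
  rw [co, Finset.sum_range_succ', map_add, map_sum]
  rw [Finset.sum_eq_zero]
  · simp
  · intro k _
    rw [rat_smul_eq, map_smul, map_pow, h, pow_succ, mul_zero, smul_zero]

/-- the Cayley parameter -/
theorem exists_y (γ : K) {X : Matrix n n (R4 K n)} {ρ : R4 K n} (hX : X * X * X = ρ • X)
    (hρ : ρ ∈ SS J) (hρ0 : augE ρ = 0) :
    ∃ y ∈ SS J, augE y = γ / 2 ∧ IsNilpotent.exp (γ • X) * (1 - y • X) = 1 + y • X := by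
  set ρ' : R4 K n := (γ / 2) ^ 2 • ρ with hρ'
  have h1 : ρ' ∈ SS J := Subalgebra.smul_mem _ hρ _
  have h2 : augE ρ' = 0 := by rw [hρ', map_smul, hρ0, smul_zero]
  obtain ⟨M, hM⟩ := nilp h2
  have hM' : ρ' ^ (M + 1) = 0 := by rw [pow_succ, hM, zero_mul]
  have h3 : 1 + ρ' * ce (M + 1) ρ' ∈ SS J :=
    add_mem (one_mem _) (mul_mem h1 (adjoin_le J h1 (ce_mem _ _)))
  have h4 : augE (1 + ρ' * ce (M + 1) ρ') = 1 := by
    rw [map_add, map_mul, h2, zero_mul, map_one, add_zero]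
  obtain ⟨Q, hQ, hQ1, hQ2⟩ := inv_mem J h3 (by rw [h4]; exact one_ne_zero)
  have hX' : ((γ / 2) • X) * ((γ / 2) • X) * ((γ / 2) • X) = ρ' • ((γ / 2) • X) := by
    rw [smul_mul_smul_comm, smul_mul_smul_comm, hX, hρ', smul_smul_smul_comm]
    congr 1
    ring
  have key := cayley (y := co (M + 1) ρ' * Q) hX' hM' (by
    rw [mul_assoc, mul_comm Q, hQ1, mul_one])
  rw [two_smul_half] at key
  refine ⟨(γ / 2) • (co (M + 1) ρ' * Q), Subalgebra.smul_mem _ (mul_mem
    (adjoin_le J h1 (co_mem _ _)) hQ) _, ?_, ?_⟩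
  · rw [map_smul, map_mul, augE_co (Nat.succ_pos M) h2, hQ2, h4, inv_one, mul_one, smul_eq_mul,
      mul_one]
  · have h5 : ((γ / 2) • (co (M + 1) ρ' * Q)) • X = (co (M + 1) ρ' * Q) • ((γ / 2) • X) := by
      rw [smul_assoc, smul_comm]
    rw [h5]
    exact key

end Pool.Agent.helper61.QC
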