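import Mathlib

/-!
# Tensor powers of matrices
-/

set_option autoImplicit false
set_option linter.unusedSectionVars false
set_option linter.unusedSimpArgs false

namespace Pool.Agent.helper61.QC

open Matrix Kronecker

universe u v

/-- the index set of the tensor power -/
def Idx (n : Type u) : ℕ → Type u
  | 0 => PUnit
  | m + 1 => n × Idx n m

instance instFintypeIdx (n : Type u) [Fintype n] : ∀ m, Fintype (Idx n m)
  | 0 => (inferInstance : Fintype PUnit)
  | m + 1 => by
    have := instFintypeIdx n m
    exact (inferInstance : Fintype (n × Idx n m))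

instance instDecidableEqIdx (n : Type u) [DecidableEq n] : ∀ m, DecidableEq (Idx n m)
  | 0 => (inferInstance : DecidableEq PUnit)
  | m + 1 => by
    have := instDecidableEqIdx n m
    exact (inferInstance : DecidableEq (n × Idx n m))

variable {n : Type u} [Fintype n] [DecidableEq n] {R : Type v} [CommRing R]

/-- the left factor -/
def kl (R : Type v) [CommRing R] {n : Type u} [Fintype n] [DecidableEq n] (m : ℕ) :
    Matrix n n R →+* Matrix (Idx n (m + 1)) (Idx n (m + 1)) R where
  toFun := fun X => (X ⊗ₖ (1 : Matrix (Idx n m) (Idx n m) R) :)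
  map_one' := Matrix.one_kronecker_one
  map_mul' := fun X Y => by
    have h := Matrix.mul_kronecker_mul X Y (1 : Matrix (Idx n m) (Idx n m) R)
      (1 : Matrix (Idx n m) (Idx n m) R)
    rw [mul_one] at h
    exact h
  map_zero' := Matrix.zero_kronecker _
  map_add' := fun X Y => Matrix.add_kronecker _ _ _

/-- the right factor -/
def kr (R : Type v) [CommRing R] {n : Type u} [Fintype n] [DecidableEq n] (m : ℕ) :
    Matrix (Idx n m) (Idx n m) R →+* Matrix (Idx n (m + 1)) (Idx n (m + 1)) R where
  toFun := fun X => ((1 : Matrix n n R) ⊗ₖ X :)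
  map_one' := Matrix.one_kronecker_one
  map_mul' := fun X Y => by
    have h := Matrix.mul_kronecker_mul (1 : Matrix n n R) (1 : Matrix n n R) X Y
    rw [mul_one] at h
    exact h
  map_zero' := Matrix.kronecker_zero _
  map_add' := fun X Y => Matrix.kronecker_add _ _ _

theorem kl_mul_kr (m : ℕ) (X : Matrix n n R) (Y : Matrix (Idx n m) (Idx n m) R) :
    kl R m X * kr R m Y = (X ⊗ₖ Y :) := by
  have h := Matrix.mul_kronecker_mul X (1 : Matrix n n R) (1 : Matrix (Idx n m) (Idx n m) R) Y
  rw [mul_one, one_mul] at h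
  exact h.symm

theorem kl_kr_commute (m : ℕ) (X : Matrix n n R) (Y : Matrix (Idx n m) (Idx n m) R) :
    Commute (kl R m X) (kr R m Y) := by
  rw [Commute, SemiconjBy, kl_mul_kr]
  have h := Matrix.mul_kronecker_mul (1 : Matrix n n R) X Y (1 : Matrix (Idx n m) (Idx n m) R)
  rw [mul_one, one_mul] at h
  exact h

/-- the action of a matrix on the tensor power as an element of the Lie algebra -/
def dD : ∀ m, Matrix n n R → Matrix (Idx n m) (Idx n m) R
  | 0, _ => 0
  | m + 1, X => kl R m X + kr R m (dD m X)

/-- the tensor power of a matrix -/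
def tT : ∀ m, Matrix n n R → Matrix (Idx n m) (Idx n m) R
  | 0, _ => 1
  | m + 1, X => kl R m X * kr R m (tT m X)

theorem dD_succ (m : ℕ) (X : Matrix n n R) : dD (m + 1) X = kl R m X + kr R m (dD m X) := rfl

theorem tT_succ (m : ℕ) (X : Matrix n n R) : tT (m + 1) X = kl R m X * kr R m (tT m X) := rfl

theorem tT_succ_apply (m : ℕ) (X : Matrix n n R) (i j : n) (I J : Idx n m) :
    tT (m + 1) X ((i, I) : n × Idx n m) ((j, J) : n × Idx n m) = X i j * tT m X I J := by
  rw [tT_succ, kl_mul_kr]
  rfl

theorem kl_smul (m : ℕ) (c : R) (X : Matrix n n R) : kl R m (c • X) = c • kl R m X :=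
  Matrix.smul_kronecker _ _ _

theorem kr_smul (m : ℕ) (c : R) (X : Matrix (Idx n m) (Idx n m) R) :
    kr R m (c • X) = c • kr R m X :=
  Matrix.kronecker_smul _ _ _

theorem dD_add (m : ℕ) (X Y : Matrix n n R) : dD m (X + Y) = dD m X + dD m Y := by
  induction m with
  | zero => simp [dD]
  | succ m ih => rw [dD_succ, dD_succ, dD_succ, ih, map_add, map_add]; abel

theorem dD_smul (m : ℕ) (c : R) (X : Matrix n n R) : dD m (c • X) = c • dD m X := by
  induction m with
  | zero => simp [dD]
  | succ m ih => rw [dD_succ, dD_succ, ih, kl_smul, kr_smul, smul_add]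

theorem dD_lie (m : ℕ) (X Y : Matrix n n R) :
    dD m (X * Y - Y * X) = dD m X * dD m Y - dD m Y * dD m X := by
  induction m with
  | zero => simp [dD]
  | succ m ih =>
    rw [dD_succ, dD_succ, dD_succ, ih, map_sub, map_sub, map_mul, map_mul, map_mul, map_mul]
    have h1 := (kl_kr_commute m X (dD m Y)).eq
    have h2 := (kl_kr_commute m Y (dD m X)).eq
    simp only [mul_add, add_mul, h1, h2]
    abel

theorem tT_mul (m : ℕ) (X Y : Matrix n n R) : tT m (X * Y) = tT m X * tT m Y := by
  induction m with
  | zero => simp [tT]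
  | succ m ih =>
    rw [tT_succ, tT_succ, tT_succ, ih, map_mul, map_mul, mul_assoc, mul_assoc]
    congr 1
    rw [← mul_assoc, ← mul_assoc, (kl_kr_commute m Y (tT m X)).eq]

theorem dD_nilpotent (m : ℕ) {X : Matrix n n R} (hX : IsNilpotent X) : IsNilpotent (dD m X) := by
  induction m with
  | zero => exact IsNilpotent.zero
  | succ m ih =>
    rw [dD_succ]
    exact (kl_kr_commute m X (dD m X)).isNilpotent_add (hX.map (kl R m)) (ih.map (kr R m))

/-- the exponential of the action on the tensor power -/
theorem exp_dD [Algebra ℚ R] (m : ℕ) {X : Matrix n n R} (hX : IsNilpotent X) :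
    IsNilpotent.exp (dD m X) = tT m (IsNilpotent.exp X) := by
  induction m with
  | zero =>
    rw [dD, tT]
    exact IsNilpotent.exp_zero
  | succ m ih =>
    rw [dD_succ, IsNilpotent.exp_add_of_commute (kl_kr_commute m X (dD m X)) (hX.map (kl R m))
      ((dD_nilpotent m hX).map (kr R m)), tT_succ, ← ih, IsNilpotent.map_exp hX,
      IsNilpotent.map_exp (dD_nilpotent m hX)]

theorem dD_map {S : Type*} [CommRing S] (f : R →+* S) (m : ℕ) (X : Matrix n n R) :
    (dD m X).map f = dD m (X.map f) := by
  induction m with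
  | zero => ext i j; simp [dD]
  | succ m ih =>
    ext ⟨i, I⟩ ⟨j, J⟩
    rw [dD_succ, dD_succ, ← ih]
    show f (X i j * (1 : Matrix (Idx n m) (Idx n m) R) I J +
      (1 : Matrix n n R) i j * dD m X I J) = (X.map f) i j * (1 : Matrix (Idx n m) (Idx n m) S) I J +
      (1 : Matrix n n S) i j * ((dD m X).map f) I J
    rw [map_add, map_mul, map_mul]
    congr 2
    · simp only [Matrix.one_apply]
      split_ifs <;> simp
    · simp only [Matrix.one_apply]
      split_ifs <;> simp

theorem tT_map {S : Type*} [CommRing S] (f : R →+* S) (m : ℕ) (X : Matrix n n R) :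
    (tT m X).map f = tT m (X.map f) := by
  induction m with
  | zero =>
    ext i j
    rw [tT, tT, Matrix.map_apply, Matrix.one_apply, Matrix.one_apply]
    split_ifs <;> simp
  | succ m ih =>
    ext ⟨i, I⟩ ⟨j, J⟩
    rw [tT_succ_apply, ← ih, Matrix.map_apply, tT_succ_apply, map_mul]
    rfl

end Pool.Agent.helper61.QC
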