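import Mathlib
import Pool.Agent.helper61.QC.S4
import Pool.Agent.helper61.QC.Tens

/-!
# The exchange theorem
-/

set_option autoImplicit false
set_option linter.unusedSectionVars false
set_option linter.unusedSimpArgs false

namespace Pool.Agent.helper61.QC

open Matrix

section MapFour

variable {R R' : Type*} [CommRing R] [CommRing R'] (f : R →+* R') (S : Matrix (Fin 4) (Fin 4) R)

theorem E4_map : (E4 R).map f = E4 R' := by
  ext i j
  fin_cases i <;> fin_cases j <;> simp [E4]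

theorem pi4_map : (pi4 R).map f = pi4 R' := by
  ext i j
  fin_cases i <;> fin_cases j <;> simp [pi4]

theorem pj4_map : (pj4 R).map f = pj4 R' := by
  ext i j
  fin_cases i <;> fin_cases j <;> simp [pj4, pi4]

theorem neg_map (A : Matrix (Fin 4) (Fin 4) R) : (-A).map f = -(A.map f) := by
  ext i j
  simp

theorem add_map (A B : Matrix (Fin 4) (Fin 4) R) : (A + B).map f = A.map f + B.map f := by
  ext i j
  simp

theorem smul_map (c : R) (A : Matrix (Fin 4) (Fin 4) R) : (c • A).map f = f c • A.map f := by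
  ext i j
  simp

theorem eA_map : (eA R).map f = eA R' := by
  rw [eA, neg_map, Matrix.map_mul, E4_map, pi4_map, eA]

theorem eB_map : (eB R).map f = eB R' := by
  rw [eB, neg_map, Matrix.map_mul, E4_map, pj4_map, eB]

theorem Ya_map (Z d : R) : (Ya S Z d).map f = Ya (S.map f) (f Z) (f d) := by
  rw [Ya, smul_map, add_map, smul_map, eA_map, Matrix.map_mul, Matrix.map_mul, eA_map, Ya]

theorem Yb_map (Z d : R) : (Yb S Z d).map f = Yb (S.map f) (f Z) (f d) := by
  rw [Yb, smul_map, add_map, smul_map, eB_map, Matrix.map_mul, Matrix.map_mul, eB_map, Yb]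

theorem Yba_map (Z d W d' : R) :
    (Yba S Z d W d').map f = Yba (S.map f) (f Z) (f d) (f W) (f d') := by
  rw [Yba, add_map, add_map, smul_map, Matrix.map_mul, Matrix.map_mul, Ya_map, Yb_map, Yba,
    map_ofNat]

end MapFour

variable {K : Type*} [Field K] [CharZero K] {n : Type*} [Fintype n] [DecidableEq n]
  (J : Matrix n n K)

/-- the matrix `X` of the first block -/
noncomputable def XA : Matrix n n (R4 K n) := Th J (eA (R4 K n))

/-- the matrix `X` of the second block -/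
noncomputable def XB : Matrix n n (R4 K n) := Th J (eB (R4 K n))

theorem rA_mem : rA (Sig J) ∈ SS J :=
  sub_mem (mul_mem (Sig_mem J _ _) (Sig_mem J _ _)) (mul_mem (Sig_mem J _ _) (Sig_mem J _ _))

theorem rB_mem : rB (Sig J) ∈ SS J :=
  sub_mem (mul_mem (Sig_mem J _ _) (Sig_mem J _ _)) (mul_mem (Sig_mem J _ _) (Sig_mem J _ _))

theorem augE_rA : augE (rA (Sig J) : R4 K n) = 0 := by
  rw [rA, map_sub, map_mul, map_mul, augE_Sig, augE_Sig, zero_mul, zero_mul, sub_zero]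

theorem augE_rB : augE (rB (Sig J) : R4 K n) = 0 := by
  rw [rB, map_sub, map_mul, map_mul, augE_Sig, augE_Sig, zero_mul, zero_mul, sub_zero]

theorem XA_cube (hJ : Jᵀ = -J) : XA J * XA J * XA J = rA (Sig J) • XA J := by
  rw [XA, Th_mul, Th_mul, ← Th_smul]
  congr 1
  conv_lhs => rw [← pi4_eA (R := R4 K n)]
  have h := eA_sq (Sig J) (Sig_symm J hJ)
  calc pi4 (R4 K n) * eA (R4 K n) * Sig J * (pi4 (R4 K n) * eA (R4 K n)) * Sig J *
        (pi4 (R4 K n) * eA (R4 K n))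
      = eA (R4 K n) * Sig J * eA (R4 K n) * Sig J * pi4 (R4 K n) * eA (R4 K n) := by
        rw [pi4_eA]
        simp only [mul_assoc]
        rw [pi4_eA]
    _ = rA (Sig J) • eA (R4 K n) := by rw [h, smul_mul_assoc, pi4_eA]

theorem XB_cube (hJ : Jᵀ = -J) : XB J * XB J * XB J = rB (Sig J) • XB J := by
  rw [XB, Th_mul, Th_mul, ← Th_smul]
  congr 1
  conv_lhs => rw [← pj4_eB (R := R4 K n)]
  have h := eB_sq (Sig J) (Sig_symm J hJ)
  calc pj4 (R4 K n) * eB (R4 K n) * Sig J * (pj4 (R4 K n) * eB (R4 K n)) * Sig J *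
        (pj4 (R4 K n) * eB (R4 K n))
      = eB (R4 K n) * Sig J * eB (R4 K n) * Sig J * pj4 (R4 K n) * eB (R4 K n) := by
        rw [pj4_eB]
        simp only [mul_assoc]
        rw [pj4_eB]
    _ = rB (Sig J) • eB (R4 K n) := by rw [h, smul_mul_assoc, pj4_eB]

theorem nilp_of_cube {X : Matrix n n (R4 K n)} {ρ : R4 K n} (hX : X * X * X = ρ • X)
    (hρ0 : augE ρ = 0) : IsNilpotent X := by
  obtain ⟨M, hM⟩ := nilp hρ0
  exact ⟨2 * M + 1, by rw [pow_odd_eq hX, hM, zero_smul]⟩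

/-- the data for one block -/
theorem block_data (hJ : Jᵀ = -J) {γ : K} (hγ : γ ≠ 0) :
    ∃ Z ∈ SS J, ∃ d ∈ SS J, augE Z = 2 / γ ∧ d * (Z * Z - rA (Sig J)) = 1 ∧
      IsNilpotent.exp (γ • XA J) = 1 + (2 : R4 K n) • Th J (Ya (Sig J) Z d) := by
  obtain ⟨y, hy, hy1, hy2⟩ := exists_y J γ (XA_cube J hJ) (rA_mem J) (augE_rA J)
  obtain ⟨Z, hZ, hZ1, hZ2⟩ := inv_mem J hy (by rw [hy1]; exact div_ne_zero hγ two_ne_zero)
  have h1 : augE (Z * Z - rA (Sig J) : R4 K n) ≠ 0 := by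
    rw [map_sub, augE_rA, sub_zero, map_mul, hZ2, hy1]
    exact mul_ne_zero (inv_ne_zero (div_ne_zero hγ two_ne_zero))
      (inv_ne_zero (div_ne_zero hγ two_ne_zero))
  obtain ⟨d, hd, hd1, _⟩ := inv_mem J (sub_mem (mul_mem hZ hZ) (rA_mem J)) h1
  refine ⟨Z, hZ, d, hd, ?_, by rw [mul_comm, hd1], ?_⟩
  · rw [hZ2, hy1, inv_div]
  · have h2 := Ya_cayley (Sig_symm J hJ) hZ1 (by rw [mul_comm, hd1] : d * (Z * Z - rA (Sig J)) = 1)
    have h3 : (1 + (2 : R4 K n) • Th J (Ya (Sig J) Z d)) * (1 - y • XA J) = 1 + y • XA J := by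
      have h4 : Th J (Ya (Sig J) Z d) - y • (Th J (Ya (Sig J) Z d) * XA J) = y • XA J := by
        rw [XA, Th_mul, ← Th_smul, ← Th_sub, ← Th_smul, h2]
      rw [add_mul, mul_sub, mul_sub, one_mul, one_mul, mul_one, smul_mul_assoc, mul_smul_comm]
      linear_combination (norm := module) (2 : R4 K n) • h4
    have h5 : IsUnit (1 - y • XA J) := by
      obtain ⟨M, hM⟩ := nilp_of_cube (XA_cube J hJ) (augE_rA J)
      have : IsNilpotent (y • XA J) := ⟨M, by rw [smul_pow, hM, smul_zero]⟩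
      exact this.isUnit_one_sub
    exact h5.mul_right_cancel (hy2.trans h3.symm)

/-- the data for the other block -/
theorem block_data' (hJ : Jᵀ = -J) {γ : K} (hγ : γ ≠ 0) :
    ∃ Z ∈ SS J, ∃ d ∈ SS J, augE Z = 2 / γ ∧ d * (Z * Z - rB (Sig J)) = 1 ∧
      IsNilpotent.exp (γ • XB J) = 1 + (2 : R4 K n) • Th J (Yb (Sig J) Z d) := by
  obtain ⟨y, hy, hy1, hy2⟩ := exists_y J γ (XB_cube J hJ) (rB_mem J) (augE_rB J)
  obtain ⟨Z, hZ, hZ1, hZ2⟩ := inv_mem J hy (by rw [hy1]; exact div_ne_zero hγ two_ne_zero)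
  have h1 : augE (Z * Z - rB (Sig J) : R4 K n) ≠ 0 := by
    rw [map_sub, augE_rB, sub_zero, map_mul, hZ2, hy1]
    exact mul_ne_zero (inv_ne_zero (div_ne_zero hγ two_ne_zero))
      (inv_ne_zero (div_ne_zero hγ two_ne_zero))
  obtain ⟨d, hd, hd1, _⟩ := inv_mem J (sub_mem (mul_mem hZ hZ) (rB_mem J)) h1
  refine ⟨Z, hZ, d, hd, ?_, by rw [mul_comm, hd1], ?_⟩
  · rw [hZ2, hy1, inv_div]
  · have h2 := Yb_cayley (Sig_symm J hJ) hZ1 (by rw [mul_comm, hd1] : d * (Z * Z - rB (Sig J)) = 1)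
    have h3 : (1 + (2 : R4 K n) • Th J (Yb (Sig J) Z d)) * (1 - y • XB J) = 1 + y • XB J := by
      have h4 : Th J (Yb (Sig J) Z d) - y • (Th J (Yb (Sig J) Z d) * XB J) = y • XB J := by
        rw [XB, Th_mul, ← Th_smul, ← Th_sub, ← Th_smul, h2]
      rw [add_mul, mul_sub, mul_sub, one_mul, one_mul, mul_one, smul_mul_assoc, mul_smul_comm]
      linear_combination (norm := module) (2 : R4 K n) • h4
    have h5 : IsUnit (1 - y • XB J) := by
      obtain ⟨M, hM⟩ := nilp_of_cube (XB_cube J hJ) (augE_rB J)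
      have : IsNilpotent (y • XB J) := ⟨M, by rw [smul_pow, hM, smul_zero]⟩
      exact this.isUnit_one_sub
    exact h5.mul_right_cancel (hy2.trans h3.symm)

theorem one_add_mul (Y Y' : Matrix (Fin 4) (Fin 4) (R4 K n)) :
    (1 + (2 : R4 K n) • Th J Y) * (1 + (2 : R4 K n) • Th J Y') =
      1 + (2 : R4 K n) • Th J (Y + Y' + (2 : R4 K n) • (Y * Sig J * Y')) := by
  rw [Th_add, Th_add, Th_smul, ← Th_mul, mul_add, add_mul, add_mul, one_mul, mul_one, one_mul,
    smul_mul_smul_comm]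
  module

theorem one_add_map (ψ : R4 K n →ₐ[K] R4 K n) (A : Matrix n n (R4 K n)) :
    (1 + (2 : R4 K n) • A).map ψ = 1 + (2 : R4 K n) • A.map ψ := by
  ext1 i j
  simp only [Matrix.map_apply, Matrix.add_apply, Matrix.smul_apply, map_add, smul_eq_mul,
    map_mul, map_ofNat]
  congr 1
  rw [Matrix.one_apply]
  split_ifs <;> simp

end Pool.Agent.helper61.QC
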