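import Mathlib
import Pool.Agent.helper61.QC.Exch

/-!
# The exchange theorem: the substitution
-/

set_option autoImplicit false
set_option linter.unusedSectionVars false
set_option linter.unusedSimpArgs false

namespace Pool.Agent.helper61.QC

open Matrix

variable {K : Type*} [Field K] [CharZero K] {n : Type*} [Fintype n] [DecidableEq n]
  (J : Matrix n n K)

theorem augE_sgJ (i j : Fin 4) : augE (sg (Sig J) i j : R4 K n) = 0 := by
  rw [sg, Matrix.mul_apply, map_sum]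
  refine Finset.sum_eq_zero fun k _ => ?_
  rw [map_mul, augE_Sig, mul_zero]

theorem augE_mat_mul {A B : Matrix (Fin 4) (Fin 4) (R4 K n)} (hA : ∀ i j, augE (A i j) = 0)
    (i j : Fin 4) : augE ((A * B) i j) = 0 := by
  rw [Matrix.mul_apply, map_sum]
  refine Finset.sum_eq_zero fun k _ => ?_
  rw [map_mul, hA, zero_mul]

theorem augE_tau : augE (tau (Sig J) : R4 K n) = 0 := by
  rw [tau]
  simp only [map_sub, map_neg, map_mul, augE_Sig, mul_zero, zero_mul, sub_zero, neg_zero]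

theorem augE_A (i j : Fin 4) : augE ((2 * sg (Sig J) ^ 2 - tau (Sig J) •
    (1 : Matrix (Fin 4) (Fin 4) (R4 K n)) : Matrix (Fin 4) (Fin 4) (R4 K n)) i j) = 0 := by
  have h2 : (2 : Matrix (Fin 4) (Fin 4) (R4 K n)) * sg (Sig J) ^ 2 =
      sg (Sig J) * sg (Sig J) + sg (Sig J) * sg (Sig J) := by
    rw [pow_two, two_mul]
  rw [h2, Matrix.sub_apply, Matrix.add_apply, map_sub, map_add,
    augE_mat_mul (augE_sgJ J), Matrix.smul_apply, smul_eq_mul, map_mul, augE_tau, zero_mul,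
    add_zero, sub_zero]

theorem augE_eta : augE (eta (Sig J) : R4 K n) = 0 := by
  rw [eta, pow_two]
  exact augE_mat_mul (augE_A J) 0 0

theorem augE_qm (k : R4 K n) (i j : Fin 4) :
    augE (qm (Sig J) k i j) = (1 : Matrix (Fin 4) (Fin 4) K) i j := by
  rw [qm, Matrix.add_apply, Matrix.add_apply, map_add, map_add, Matrix.smul_apply,
    Matrix.smul_apply, smul_eq_mul, smul_eq_mul, map_mul (augE (K := K)) (2 * k),
    map_mul (augE (K := K)) (k ^ 2), augE_sgJ, augE_A, mul_zero,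
    mul_zero, add_zero, add_zero, Matrix.one_apply, Matrix.one_apply]
  split_ifs <;> simp

theorem augE_Nn (k : R4 K n) : augE (Nn (Sig J) k) = 1 := by
  rw [Nn, map_add, map_sub, map_mul (augE (K := K)) (2 * k ^ 2), map_mul (augE (K := K)) (k ^ 4),
    augE_tau, augE_eta, mul_zero, mul_zero, sub_zero, add_zero, map_one]

theorem sgS_mem (i j : Fin 4) : sg (Sig J) i j ∈ SS J := by
  rw [sg, Matrix.mul_apply]
  refine sum_mem fun k _ => mul_mem ?_ (Sig_mem J _ _)
  rw [Matrix.neg_apply, E4_algebraMap]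
  exact neg_mem (Subalgebra.algebraMap_mem _ _)

theorem mat_mul_mem {A B : Matrix (Fin 4) (Fin 4) (R4 K n)} (hA : ∀ i j, A i j ∈ SS J)
    (hB : ∀ i j, B i j ∈ SS J) (i j : Fin 4) : (A * B) i j ∈ SS J := by
  rw [Matrix.mul_apply]
  exact sum_mem fun k _ => mul_mem (hA _ _) (hB _ _)

theorem tau_mem : tau (Sig J) ∈ SS J := by
  rw [tau]
  refine sub_mem (sub_mem (neg_mem (sub_mem (mul_mem (Sig_mem J _ _) (Sig_mem J _ _))
    (mul_mem (Sig_mem J _ _) (Sig_mem J _ _)))) (sub_mem (mul_mem (Sig_mem J _ _) (Sig_mem J _ _))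
    (mul_mem (Sig_mem J _ _) (Sig_mem J _ _)))) (mul_mem ?_ (sub_mem (mul_mem (Sig_mem J _ _)
    (Sig_mem J _ _)) (mul_mem (Sig_mem J _ _) (Sig_mem J _ _))))
  rw [← one_add_one_eq_two]
  exact add_mem (one_mem _) (one_mem _)

theorem A_mem (i j : Fin 4) : (2 * sg (Sig J) ^ 2 - tau (Sig J) •
    (1 : Matrix (Fin 4) (Fin 4) (R4 K n)) : Matrix (Fin 4) (Fin 4) (R4 K n)) i j ∈ SS J := by
  have h2 : (2 : Matrix (Fin 4) (Fin 4) (R4 K n)) * sg (Sig J) ^ 2 =
      sg (Sig J) * sg (Sig J) + sg (Sig J) * sg (Sig J) := by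
    rw [pow_two, two_mul]
  rw [h2, Matrix.sub_apply, Matrix.add_apply, Matrix.smul_apply, smul_eq_mul]
  refine sub_mem (add_mem (mat_mul_mem J (sgS_mem J) (sgS_mem J) i j)
    (mat_mul_mem J (sgS_mem J) (sgS_mem J) i j)) (mul_mem (tau_mem J) ?_)
  rw [Matrix.one_apply]
  split_ifs
  · exact one_mem _
  · exact zero_mem _

theorem eta_mem : eta (Sig J) ∈ SS J := by
  rw [eta, pow_two]
  exact mat_mul_mem J (A_mem J) (A_mem J) 0 0

theorem two_mem : (2 : R4 K n) ∈ SS J := by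
  rw [← one_add_one_eq_two]
  exact add_mem (one_mem _) (one_mem _)

theorem Nn_mem {k : R4 K n} (hk : k ∈ SS J) : Nn (Sig J) k ∈ SS J := by
  rw [Nn]
  exact add_mem (sub_mem (one_mem _) (mul_mem (mul_mem (two_mem J) (pow_mem hk _)) (tau_mem J)))
    (mul_mem (pow_mem hk _) (eta_mem J))

theorem hm_mem {k : R4 K n} (hk : k ∈ SS J) {v : (R4 K n)ˣ} (hv : ((v⁻¹ : (R4 K n)ˣ) : R4 K n) ∈ SS J)
    (i j : Fin 4) : hm (Sig J) k v i j ∈ SS J := by
  rw [hm, Matrix.smul_apply, smul_eq_mul, qm, Matrix.add_apply, Matrix.add_apply,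
    Matrix.smul_apply, Matrix.smul_apply, smul_eq_mul, smul_eq_mul]
  refine mul_mem hv (add_mem (add_mem ?_ (mul_mem (mul_mem (two_mem J) hk) (sgS_mem J i j)))
    (mul_mem (pow_mem hk _) (A_mem J i j)))
  rw [Matrix.one_apply]
  split_ifs
  · exact one_mem _
  · exact zero_mem _

theorem res_sgJ_kills (hJ : Jᵀ = -J) (i j : Fin 4) : (derM (sgJ J)).res (Sig J i j) = 0 := by
  rw [derM_Sig, sgJ_kills J hJ]
  rfl

theorem res_sgJ3_kills (hJ : Jᵀ = -J) (i j : Fin 4) :
    (derM (sgJ J * sgJ J * sgJ J)).res (Sig J i j) = 0 := by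
  rw [derM_Sig, sgJ3_kills J hJ]
  rfl

/-- the integral of a derivation with coefficient -/
theorem ber_smul_der (l : List (n × Fin 4)) (hl : ∀ a, a ∈ l)
    (M : Matrix (Fin 4) (Fin 4) (R4 K n)) (hdiv : ∑ b, dd b (vM M b) = 0) {θ : R4 K n}
    (hθ : (derM M).res θ = 0) (Q : Lam K (n × Fin 4)) :
    ber l ((θ : Lam K (n × Fin 4)) * (derM M).lin Q) = 0 := by
  have h1 : (derM M).lin ((θ : Lam K (n × Fin 4)) * Q) =
      (θ : Lam K (n × Fin 4)) * (derM M).lin Q := by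
    have h2 : (derM M).lin (θ : Lam K (n × Fin 4)) = 0 := congrArg Subtype.val hθ
    rw [(derM M).leib, h2, zero_mul, zero_add]
  rw [← h1, derM, ber_der l hl, hdiv, zero_mul, map_zero]

/-- the invariance of the integral under the substitution `C ↦ C h` -/
theorem ber_phi (hJ : Jᵀ = -J) (hJu : IsUnit J.det) (l : List (n × Fin 4)) (hl : ∀ a, a ∈ l)
    (hlen : l.length = Fintype.card (n × Fin 4)) {k U : R4 K n} (hk : k ∈ SS J) (hU : U ∈ SS J)
    (hkU : k * U = 1) {v : (R4 K n)ˣ} (hv : (v : R4 K n) * v = Nn (Sig J) k)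
    (hv1 : ((v⁻¹ : (R4 K n)ˣ) : R4 K n) ∈ SS J) (hv2 : augE (v : R4 K n) = 1)
    (Q : Lam K (n × Fin 4)) :
    ber l (phi (hm (Sig J) k v) Q) = ber l Q := by
  set w : R4 K n := ((v⁻¹ : (R4 K n)ˣ) : R4 K n) with hw
  set h := hm (Sig J) k v with hh
  set k₁ : R4 K n := (Eu : EvDer K (n × Fin 4)).res k * U with hk₁
  have hk₁' : k₁ ∈ SS J := mul_mem (Eu_mem J hk) hU
  set θ₁ : R4 K n := 2 * (k₁ + 2) * k * (w * w) * (1 + k ^ 2 * tau (Sig J)) with hθ₁
  set θ₃ : R4 K n := 4 * (k₁ + 2) * k ^ 3 * (w * w) with hθ₃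
  have h2m := two_mem J
  have h4m : (4 : R4 K n) ∈ SS J := by
    have : (4 : R4 K n) = 2 * 2 := by norm_num
    rw [this]
    exact mul_mem h2m h2m
  have hθ₁m : θ₁ ∈ SS J := mul_mem (mul_mem (mul_mem (mul_mem h2m (add_mem hk₁' h2m)) hk)
    (mul_mem hv1 hv1)) (add_mem (one_mem _) (mul_mem (pow_mem hk _) (tau_mem J)))
  have hθ₃m : θ₃ ∈ SS J := mul_mem (mul_mem (mul_mem h4m (add_mem hk₁' h2m)) (pow_mem hk _))
    (mul_mem hv1 hv1)
  -- the derivative of `h`
  have hD : (Sig J).map ((Eu : EvDer K (n × Fin 4)).res.restrictScalars ℤ) =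
      (2 : R4 K n) • Sig J := by
    ext1 i j
    exact Eu_Sig J i j
  have hkD : ((Eu : EvDer K (n × Fin 4)).res.restrictScalars ℤ) k = k₁ * k := by
    show (Eu : EvDer K (n × Fin 4)).res k = (Eu : EvDer K (n × Fin 4)).res k * U * k
    rw [mul_assoc, mul_comm U, hkU, mul_one]
  have hder := map_D_hm ((Eu : EvDer K (n × Fin 4)).res.restrictScalars ℤ) (Sig_symm J hJ) hD hkD hv
  have hder' : ∀ i j, (Eu : EvDer K (n × Fin 4)).res (h i j) =
      ((θ₁ • sgJ J - θ₃ • (sgJ J * sgJ J * sgJ J)) * h) i j := fun i j =>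
    congrFun (congrFun hder i) j
  have hmem : ∀ i j, h i j ∈ SS J := fun i j => hm_mem J hk hv1 i j
  refine ber_inv l hl hlen (phi h) ?_
    (LinearMap.mulLeft K (θ₁ : Lam K (n × Fin 4)) ∘ₗ (derM (sgJ J)).lin -
      LinearMap.mulLeft K (θ₃ : Lam K (n × Fin 4)) ∘ₗ (derM (sgJ J * sgJ J * sgJ J)).lin) ?_ ?_ ?_ Q
  · rintro ⟨i, r⟩
    have h1 : phi h (xg (i, r)) - xg (i, r) =
        ∑ l, xg (i, l) * ((h l r - (1 : Matrix (Fin 4) (Fin 4) (R4 K n)) l r : R4 K n) :
          Lam K (n × Fin 4)) := by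
      simp only [Subalgebra.coe_sub, mul_sub, Finset.sum_sub_distrib]
      rw [phi_xg]
      congr 1
      rw [Finset.sum_eq_single r]
      · rw [Matrix.one_apply_eq, Subalgebra.coe_one, mul_one]
      · intro b _ hb
        rw [Matrix.one_apply_ne hb, Subalgebra.coe_zero, mul_zero]
      · intro h
        exact absurd (Finset.mem_univ _) h
    rw [h1]
    refine sum_mem fun s _ => xg_mul_mem _ (mem_Fl_one ?_)
    have h2 : augE (h s r - (1 : Matrix (Fin 4) (Fin 4) (R4 K n)) s r) = 0 := by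
      have h3 : augE w = 1 := by
        have h4 : (v : R4 K n) * w = 1 := v.mul_inv
        have h5 := congrArg augE h4
        rw [map_mul, hv2, one_mul, map_one] at h5
        exact h5
      rw [map_sub, hh, hm, Matrix.smul_apply, smul_eq_mul, map_mul, ← hw, h3, augE_qm, one_mul,
        Matrix.one_apply, Matrix.one_apply]
      split_ifs <;> simp
    exact h2
  · intro P Q
    simp only [LinearMap.sub_apply, LinearMap.comp_apply, LinearMap.mulLeft_apply, EvDer.leib]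
    have e1 : (θ₁ : Lam K (n × Fin 4)) * (P * (derM (sgJ J)).lin Q) =
        P * ((θ₁ : Lam K (n × Fin 4)) * (derM (sgJ J)).lin Q) := by
      rw [← mul_assoc, coe_comm θ₁ P, mul_assoc]
    have e3 : (θ₃ : Lam K (n × Fin 4)) * (P * (derM (sgJ J * sgJ J * sgJ J)).lin Q) =
        P * ((θ₃ : Lam K (n × Fin 4)) * (derM (sgJ J * sgJ J * sgJ J)).lin Q) := by
      rw [← mul_assoc, coe_comm θ₃ P, mul_assoc]
    rw [mul_add, mul_add, e1, e3]
    noncomm_ring
  · intro Q
    rw [LinearMap.sub_apply, LinearMap.comp_apply, LinearMap.comp_apply, LinearMap.mulLeft_apply,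
      LinearMap.mulLeft_apply, map_sub,
      ber_smul_der l hl _ (div_sgJ J hJ hJu) (res_kills J (res_sgJ_kills J hJ) hθ₁m),
      ber_smul_der l hl _ (div_sgJ3 J hJ hJu) (res_kills J (res_sgJ3_kills J hJ) hθ₃m), sub_zero]
  · rintro ⟨i, r⟩
    have k1 : ∀ i j, (derM (sgJ J)).lin (h i j : Lam K (n × Fin 4)) = 0 := fun i j =>
      congrArg Subtype.val (res_kills J (res_sgJ_kills J hJ) (hmem i j))
    have k3 : ∀ i j, (derM (sgJ J * sgJ J * sgJ J)).lin (h i j : Lam K (n × Fin 4)) = 0 :=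
      fun i j => congrArg Subtype.val (res_kills J (res_sgJ3_kills J hJ) (hmem i j))
    rw [phi_xg]
    simp only [LinearMap.sub_apply, LinearMap.comp_apply, LinearMap.mulLeft_apply, map_sum,
      EvDer.leib, k1, k3, mul_zero, add_zero, Eu_xg, derM_xg, Finset.sum_add_distrib,
      add_sub_cancel_left]
    have hE : ∀ s, Eu.lin (h s r : Lam K (n × Fin 4)) =
        ((((θ₁ • sgJ J - θ₃ • (sgJ J * sgJ J * sgJ J)) * h) s r : R4 K n) : Lam K (n × Fin 4)) :=
      fun s => congrArg Subtype.val (hder' s r)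
    simp only [hE]
    have hcoe : ∀ s, ((((θ₁ • sgJ J - θ₃ • (sgJ J * sgJ J * sgJ J)) * h) s r : R4 K n) :
        Lam K (n × Fin 4)) = ∑ t, (((θ₁ : Lam K (n × Fin 4)) * (sgJ J s t : R4 K n) -
          (θ₃ : Lam K (n × Fin 4)) * ((sgJ J * sgJ J * sgJ J) s t : R4 K n)) *
            (h t r : Lam K (n × Fin 4))) := by
      intro s
      rw [Matrix.mul_apply]
      have := map_sum (Ev K (n × Fin 4)).val (fun t =>
        (θ₁ • sgJ J - θ₃ • (sgJ J * sgJ J * sgJ J)) s t * h t r) Finset.univ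
      exact this
    simp only [hcoe, Finset.mul_sum, Finset.sum_mul]
    rw [Finset.sum_comm]
    refine Finset.sum_congr rfl fun t _ => ?_
    rw [← Finset.sum_sub_distrib]
    refine Finset.sum_congr rfl fun s _ => ?_
    have c1 := coe_comm θ₁ (xg (i, s))
    have c3 := coe_comm θ₃ (xg (i, s))
    rw [sub_mul, mul_sub, ← mul_assoc, ← mul_assoc, ← mul_assoc, ← mul_assoc, ← mul_assoc,
      ← mul_assoc, ← mul_assoc, ← mul_assoc, c1, c3]

end Pool.Agent.helper61.QC
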