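import Mathlib
import Pool.Agent.helper61.QC.ExchB

/-!
# The exchange theorem
-/

set_option autoImplicit false
set_option linter.unusedSectionVars false
set_option linter.unusedSimpArgs false

namespace Pool.Agent.helper61.QC

open Matrix

variable {K : Type*} [Field K] [CharZero K] {n : Type*} [Fintype n] [DecidableEq n]
  (J : Matrix n n K)

theorem hm_E4_transpose {k : R4 K n} {v : (R4 K n)ˣ} (hJ : Jᵀ = -J)
    (hv : (v : R4 K n) * v = Nn (Sig J) k) :
    hm (Sig J) k v * E4 (R4 K n) * (hm (Sig J) k v)ᵀ = E4 (R4 K n) := by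
  have hS := Sig_symm (ρ := Fin 4) J hJ
  have h1 := hm_transpose (k := k) (v := v) hS
  have h2 : E4 (R4 K n) * (hm (Sig J) k v)ᵀ = hm (Sig J) (-k) v * E4 (R4 K n) := by
    have h3 : E4 (R4 K n) * ((hm (Sig J) k v)ᵀ * E4 (R4 K n)) * E4 (R4 K n) =
        E4 (R4 K n) * (E4 (R4 K n) * hm (Sig J) (-k) v) * E4 (R4 K n) := by rw [h1]
    rw [E4_E4_mul, mul_assoc (E4 (R4 K n)), mul_assoc (hm (Sig J) k v)ᵀ, E4_mul_E4, mul_neg,
      mul_one, mul_neg, neg_mul, neg_inj] at h3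
    exact h3
  rw [mul_assoc, h2, ← mul_assoc, hm_mul hS hv, one_mul]

theorem XA_add_XB : XA J + XB J = Th J (-(E4 (R4 K n))) := by
  rw [XA, XB, ← Th_add]
  congr 1
  rw [eA, eB, pj4, mul_sub, mul_one]
  abel

/-- the exchange theorem -/
theorem exchange (hJ : Jᵀ = -J) (hJu : IsUnit J.det) (l : List (n × Fin 4)) (hl : ∀ a, a ∈ l)
    (hlen : l.length = Fintype.card (n × Fin 4)) {γ γ' : K} (hγ : γ ≠ 0) (hγ' : γ' ≠ 0)
    (hne : γ ≠ γ') (F : R4 K n)
    (hF : ∀ ψ : R4 K n →ₐ[K] R4 K n, (∀ i j, ψ (Sig J i j) = Sig J i j) →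
      (XA J + XB J).map ψ = XA J + XB J → ψ F = F) (m : ℕ) (I I' : Idx n m) :
    ber l ((F * tT m (IsNilpotent.exp (γ • XA J) * IsNilpotent.exp (γ' • XB J)) I I' : R4 K n) :
      Lam K (n × Fin 4)) =
    ber l ((F * tT m (IsNilpotent.exp (γ' • XB J) * IsNilpotent.exp (γ • XA J)) I I' : R4 K n) :
      Lam K (n × Fin 4)) := by
  have hS := Sig_symm (ρ := Fin 4) J hJ
  obtain ⟨Z, hZ, d, hd, hZ0, hdZ, hMA⟩ := block_data J hJ hγ
  obtain ⟨W, hW, d', hd', hW0, hdW, hMB⟩ := block_data' J hJ hγ'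
  have hU : Z - W ∈ SS J := sub_mem hZ hW
  have hU0 : augE (Z - W) ≠ 0 := by
    rw [map_sub, hZ0, hW0, sub_ne_zero]
    intro h
    apply hne
    have h2 : (2 : K) ≠ 0 := two_ne_zero
    field_simp at h
    exact h.symm
  obtain ⟨k, hk, hkU, _⟩ := inv_mem J hU hU0
  rw [mul_comm] at hkU
  obtain ⟨v, hv, _, hv1, hv2⟩ := sqrt_mem J (Nn_mem J hk) (augE_Nn J k)
  set h := hm (Sig J) k v with hh
  have hψS : ∀ i j, phiE h (Sig J i j) = Sig J i j := by
    intro i j
    have h1 := Sig_phiE J h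
    rw [hh, hm_S hS hv, ← hh] at h1
    exact congrFun (congrFun h1 i) j
  have hmapS : (Sig J).map (phiE h : R4 K n →+* R4 K n) = Sig J := by
    ext1 i j
    exact hψS i j
  have hψX : (XA J + XB J).map (phiE h) = XA J + XB J := by
    rw [XA_add_XB, Th_phiE]
    congr 1
    have h1 : (-(E4 (R4 K n))).map (phiE h) = -(E4 (R4 K n)) := by
      have := neg_map (phiE h : R4 K n →+* R4 K n) (E4 (R4 K n))
      rw [E4_map] at this
      exact this
    rw [h1, mul_neg, neg_mul, hh, hm_E4_transpose J hJ hv]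
  have hex := Y_exchange hS hv hdZ hdW hkU
  have hMM : (IsNilpotent.exp (γ' • XB J) * IsNilpotent.exp (γ • XA J)).map (phiE h) =
      IsNilpotent.exp (γ • XA J) * IsNilpotent.exp (γ' • XB J) := by
    have e1 : IsNilpotent.exp (γ' • XB J) * IsNilpotent.exp (γ • XA J) =
        1 + (2 : R4 K n) • Th J (Yba (Sig J) Z d W d') := by
      rw [hMA, hMB, one_add_mul, Yba, add_comm (Yb (Sig J) W d') (Ya (Sig J) Z d)]
    have e2 : IsNilpotent.exp (γ • XA J) * IsNilpotent.exp (γ' • XB J) =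
        1 + (2 : R4 K n) • Th J (Yab (Sig J) Z d W d') := by
      rw [hMA, hMB, one_add_mul, Yab]
    have e3 : (Yba (Sig J) Z d W d').map (phiE h) = Yba (Sig J) Z d W d' := by
      have := Yba_map (phiE h : R4 K n →+* R4 K n) (Sig J) Z d W d'
      rw [hmapS] at this
      refine this.trans ?_
      have f1 : (phiE h : R4 K n →+* R4 K n) Z = Z := hom_fixes J hψS hZ
      have f2 : (phiE h : R4 K n →+* R4 K n) d = d := hom_fixes J hψS hd
      have f3 : (phiE h : R4 K n →+* R4 K n) W = W := hom_fixes J hψS hW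
      have f4 : (phiE h : R4 K n →+* R4 K n) d' = d' := hom_fixes J hψS hd'
      rw [f1, f2, f3, f4]
    rw [e1, e2, one_add_map, Th_phiE, e3, hex]
  have key := ber_phi J hJ hJu l hl hlen hk hU hkU hv hv1 hv2
    ((F * tT m (IsNilpotent.exp (γ' • XB J) * IsNilpotent.exp (γ • XA J)) I I' : R4 K n) :
      Lam K (n × Fin 4))
  rw [← key, ← phiE_coe]
  congr 2
  rw [map_mul, hF (phiE h) hψS hψX]
  congr 1
  have h3 := tT_map (phiE h : R4 K n →+* R4 K n) m
    (IsNilpotent.exp (γ' • XB J) * IsNilpotent.exp (γ • XA J))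
  have h4 := congrFun (congrFun h3 I) I'
  rw [Matrix.map_apply] at h4
  have h5 : (IsNilpotent.exp (γ' • XB J) * IsNilpotent.exp (γ • XA J)).map
      (phiE h : R4 K n →+* R4 K n) =
      IsNilpotent.exp (γ • XA J) * IsNilpotent.exp (γ' • XB J) := hMM
  rw [h5] at h4
  exact h4.symm

end Pool.Agent.helper61.QC
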