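import Mathlib
import Pool.Agent.helper61.QC.Beta
import Pool.Agent.helper61.QC.Even

/-!
# Berezin integrals of products of the sums `∑ z_ab A_ab`
-/

set_option autoImplicit false
set_option linter.unusedSectionVars false
set_option linter.unusedSimpArgs false

namespace Pool.Agent.helper61.QC

open Matrix Equiv

theorem sum_cons {T : Type*} [AddCommMonoid T] {n : Type*} [Fintype n] {k : ℕ}
    (f : (Fin (k + 1) → n) → T) :
    ∑ i, f i = ∑ i0 : n, ∑ i' : Fin k → n, f (Fin.cons i0 i') := by
  rw [← Fintype.sum_prod_type']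
  exact (Fintype.sum_equiv (Fin.consEquiv fun _ => n) _ _ fun x => rfl).symm

theorem ofFn_sum {S : Type*} [Ring S] {n : Type*} [Fintype n] (M : ℕ) (g : Fin M → n → n → S) :
    (List.ofFn fun j => ∑ a, ∑ b, g j a b).prod =
      ∑ a : Fin M → n, ∑ b : Fin M → n, (List.ofFn fun j => g j (a j) (b j)).prod := by
  induction M with
  | zero => simp
  | succ M ih =>
    rw [List.ofFn_succ, List.prod_cons, ih, sum_cons, Finset.sum_mul]
    refine Finset.sum_congr rfl fun a0 _ => ?_
    rw [Finset.mul_sum]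
    refine Finset.sum_congr rfl fun a' _ => ?_
    rw [sum_cons, Finset.sum_mul]
    refine Finset.sum_congr rfl fun b0 _ => ?_
    rw [Finset.mul_sum]
    refine Finset.sum_congr rfl fun b' _ => ?_
    rw [List.ofFn_succ, List.prod_cons, Fin.cons_zero, Fin.cons_zero]
    simp only [Fin.cons_succ]

section Ber

variable {K : Type*} [Field K] {I : Type*} [Fintype I] [DecidableEq I] {ι : Type*} [Fintype ι]
  [DecidableEq ι]

/-- the Berezin integral of matrices -/
noncomputable def berM (l : List I) : Matrix ι ι (Ev K I) →ₗ[K] Matrix ι ι K :=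
  LinearMap.mapMatrix (ber l ∘ₗ (Ev K I).val.toLinearMap)

theorem berM_apply (l : List I) (M : Matrix ι ι (Ev K I)) (i j : ι) :
    berM l M i j = ber l (M i j : Lam K I) := rfl

/-- constant matrices -/
noncomputable def mm (K : Type*) [Field K] (I : Type*) [Fintype I] [DecidableEq I] (ι : Type*)
    [Fintype ι] [DecidableEq ι] : Matrix ι ι K →+* Matrix ι ι (Ev K I) :=
  (algebraMap K (Ev K I)).mapMatrix

theorem mm_apply (B : Matrix ι ι K) (i j : ι) : mm K I ι B i j = algebraMap K (Ev K I) (B i j) :=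
  rfl

theorem berM_smul_mm (l : List I) (z : Ev K I) (B : Matrix ι ι K) :
    berM l (z • mm K I ι B) = ber l (z : Lam K I) • B := by
  ext i j
  rw [berM_apply, Matrix.smul_apply, Matrix.smul_apply, mm_apply, smul_eq_mul, mul_comm,
    ← Algebra.smul_def, Subalgebra.coe_smul, map_smul, smul_eq_mul, smul_eq_mul, mul_comm]

theorem ofFn_smul {R S : Type*} [CommRing R] [Ring S] [Algebra R S] (M : ℕ) (z : Fin M → R)
    (B : Fin M → S) : (List.ofFn fun j => z j • B j).prod =
      (List.ofFn z).prod • (List.ofFn B).prod := by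
  induction M with
  | zero => simp
  | succ M ih =>
    rw [List.ofFn_succ, List.prod_cons, ih, List.ofFn_succ, List.prod_cons, List.ofFn_succ,
      List.prod_cons, smul_mul_smul_comm]

end Ber

section

variable {K : Type*} [Field K] {n : Type*} [Fintype n] [DecidableEq n] (J : Matrix n n K)
  {ι : Type*} [Fintype ι] [DecidableEq ι]

/-- the elements `J x_0` -/
noncomputable def uu (a : n) : n × Fin 2 → K := ∑ k, J k a • Pi.single (k, 0) 1

/-- the elements `x_1` -/
noncomputable def vv (K : Type*) [Field K] {n : Type*} [Fintype n] [DecidableEq n] (b : n) :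
    n × Fin 2 → K := Pi.single (b, 1) 1

/-- the products -/
noncomputable def zz (a b : n) : Ev K (n × Fin 2) := ∑ k, J k a • xx (k, 0) (b, 1)

theorem zz_coe (a b : n) : (zz J a b : Lam K (n × Fin 2)) = lin (uu J a) * lin (vv K b) := by
  rw [uu, lin, lin, map_sum, Finset.sum_mul, vv]
  show (Ev K (n × Fin 2)).val (∑ k, J k a • xx (k, 0) (b, 1)) = _
  rw [map_sum]
  refine Finset.sum_congr rfl fun k _ => ?_
  rw [map_smul, map_smul, smul_mul_assoc]
  rfl

/-- the sum `∑ z_ab A_ab` -/
noncomputable def bbA (A : Matrix n n (Matrix ι ι K)) : Matrix ι ι (Ev K (n × Fin 2)) :=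
  ∑ a, ∑ b, zz J a b • mm K (n × Fin 2) ι (A a b)

theorem coe_prod_ofFn {I : Type*} [Fintype I] [DecidableEq I] (M : ℕ) (z : Fin M → Ev K I) :
    ((List.ofFn z).prod : Ev K I).val = (List.ofFn fun j => (z j : Lam K I)).prod := by
  show (Ev K I).val (List.ofFn z).prod = _
  rw [map_list_prod, List.map_ofFn]
  rfl

theorem berM_prod (l : List (n × Fin 2)) (M : ℕ) (A : Fin M → Matrix n n (Matrix ι ι K)) :
    berM l (List.ofFn fun j => bbA J (A j)).prod =
      ∑ a : Fin M → n, ∑ b : Fin M → n, beta l (uu J) (vv K) a b •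
        (List.ofFn fun j => A j (a j) (b j)).prod := by
  simp only [bbA]
  rw [ofFn_sum, map_sum]
  refine Finset.sum_congr rfl fun a _ => ?_
  rw [map_sum]
  refine Finset.sum_congr rfl fun b _ => ?_
  rw [ofFn_smul]
  have h : (List.ofFn fun j => mm K (n × Fin 2) ι (A j (a j) (b j))).prod =
      mm K (n × Fin 2) ι (List.ofFn fun j => A j (a j) (b j)).prod := by
    rw [map_list_prod, List.map_ofFn]
    rfl
  rw [h, berM_smul_mm, beta, coe_prod_ofFn]
  simp only [zz_coe]

/-! ## the degree -/

theorem Eu_lin {I : Type*} [Fintype I] [DecidableEq I] (m : I → K) :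
    (Eu (K := K) (I := I)).lin (lin m) = lin m := by
  rw [lin, ι_eq, map_sum]
  refine Finset.sum_congr rfl fun a _ => ?_
  rw [map_smul, Eu_xg]

theorem Eu_prod {I : Type*} [Fintype I] [DecidableEq I] (M : ℕ) (u v : Fin M → I → K) :
    (Eu (K := K) (I := I)).lin (List.ofFn fun j => (lin (u j) * lin (v j) : Lam K I)).prod =
      (2 * M : K) • (List.ofFn fun j => (lin (u j) * lin (v j) : Lam K I)).prod := by
  induction M with
  | zero => rw [List.ofFn_zero, List.prod_nil, leib_one Eu.leib, Nat.cast_zero, mul_zero, zero_smul]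
  | succ M ih =>
    rw [List.ofFn_succ, List.prod_cons, Eu.leib, ih (fun j => u j.succ) fun j => v j.succ,
      Eu.leib, Eu_lin, Eu_lin, mul_smul_comm, ← two_smul K (lin (u 0) * lin (v 0) : Lam K I),
      smul_mul_assoc, ← add_smul]
    congr 1
    push_cast
    ring

theorem beta_degree [CharZero K] {I : Type*} [Fintype I] [DecidableEq I] {l : List I}
    (hl : ∀ a, a ∈ l) (u v : n → I → K) {M : ℕ} (hM : Fintype.card I ≠ 2 * M)
    (a b : Fin M → n) : beta l u v a b = 0 := by
  have h := ber_Eu l hl (List.ofFn fun j => (lin (u (a j)) * lin (v (b j)) : Lam K I)).prod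
  rw [Eu_prod M (fun j => u (a j)) fun j => v (b j), map_smul, smul_eq_mul, ← sub_eq_zero,
    ← sub_mul] at h
  refine (mul_eq_zero.1 h).resolve_left ?_
  intro h2
  rw [sub_eq_zero] at h2
  apply hM
  have h3 : ((2 * M : ℕ) : K) = (Fintype.card I : ℕ) := by push_cast; exact h2
  exact (Nat.cast_injective h3).symm

theorem berM_prod_zero [CharZero K] {l : List (n × Fin 2)} (hl : ∀ a, a ∈ l) {M : ℕ}
    (hM : Fintype.card n ≠ M) (A : Fin M → Matrix n n (Matrix ι ι K)) :
    berM l (List.ofFn fun j => bbA J (A j)).prod = 0 := by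
  rw [berM_prod]
  refine Finset.sum_eq_zero fun a _ => Finset.sum_eq_zero fun b _ => ?_
  rw [beta_degree hl, zero_smul]
  rw [Fintype.card_prod, Fintype.card_fin]
  omega

/-! ## the constant -/

theorem dd_notin {I : Type*} [Fintype I] [DecidableEq I] {a : I} {l : List I} (h : a ∉ l) :
    dd a ((l.map xg).prod : Lam K I) = 0 := by
  induction l with
  | nil => rw [List.map_nil, List.prod_nil, dd_one]
  | cons b l ih =>
    rw [List.mem_cons, not_or] at h
    rw [List.map_cons, List.prod_cons, dd_xg_mul, if_neg h.1, ih h.2, mul_zero, sub_zero]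

theorem topD_reverse {I : Type*} [Fintype I] [DecidableEq I] {l : List I} (h : l.Nodup) :
    topD l.reverse ((l.map xg).prod : Lam K I) = 1 := by
  induction l with
  | nil => rfl
  | cons b l ih =>
    rw [List.nodup_cons] at h
    rw [List.reverse_cons, topD_append, topD_cons, topD_nil, List.map_cons, List.prod_cons,
      dd_xg_mul, if_pos rfl, dd_notin h.1, mul_zero, sub_zero, ih h.2]

/-- the list of the variables -/
def l2 {N : ℕ} (e : Fin N ≃ n) : List (n × Fin 2) :=
  (List.ofFn fun j => [((e j, 0) : n × Fin 2), (e j, 1)]).flatten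

theorem mem_l2 {N : ℕ} (e : Fin N ≃ n) (a : n × Fin 2) : a ∈ l2 e := by
  rw [l2, List.mem_flatten]
  obtain ⟨a, r⟩ := a
  refine ⟨[(a, 0), (a, 1)], ?_, ?_⟩
  · rw [List.mem_ofFn]
    exact ⟨e.symm a, by rw [Equiv.apply_symm_apply]⟩
  · fin_cases r <;> simp

theorem length_l2 {N : ℕ} (e : Fin N ≃ n) : (l2 e).length = Fintype.card (n × Fin 2) := by
  rw [l2, List.length_flatten, List.map_ofFn, Fintype.card_prod, Fintype.card_fin,
    ← Fintype.card_congr e, Fintype.card_fin]
  have : (List.length ∘ fun j => [((e j, 0) : n × Fin 2), (e j, 1)]) = fun _ => 2 := rfl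
  rw [this, List.ofFn_const, List.sum_replicate, smul_eq_mul]

theorem nodup_l2 {N : ℕ} (e : Fin N ≃ n) : (l2 e).Nodup := by
  have h : (l2 e).toFinset = Finset.univ := by
    ext a
    simp [mem_l2]
  have h2 : Multiset.Nodup ((l2 e : List (n × Fin 2)) : Multiset (n × Fin 2)) := by
    rw [← Multiset.toFinset_card_eq_card_iff_nodup]
    rw [Multiset.coe_card, length_l2, ← Finset.card_univ, ← h]
    rfl
  exact h2

theorem prod_l2 {N : ℕ} (e : Fin N ≃ n) : (((l2 e).map xg).prod : Lam K (n × Fin 2)) =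
    (List.ofFn fun j => (xg (e j, 0) * xg (e j, 1) : Lam K (n × Fin 2))).prod := by
  rw [l2, List.map_flatten, List.prod_flatten, List.map_map, List.map_ofFn]
  congr 2
  funext j
  simp

/-- the constant -/
noncomputable def c0 {N : ℕ} (e : Fin N ≃ n) : K := beta (l2 e).reverse (uu J) (vv K) e e

theorem c0_ne_zero (hJu : IsUnit J.det) {N : ℕ} (e : Fin N ≃ n) :
    c0 J e ≠ 0 := by
  intro h0
  have h := sum_beta (l2 e).reverse (uu J) (vv K) e (E := K)
    (fun j => Matrix.of fun a b => if b = e j then J⁻¹ a (e j) else 0)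
  rw [c0] at h0
  rw [h0, zero_smul] at h
  have h1 : ∀ j : Fin N, ∑ a, ∑ b, (if b = e j then J⁻¹ a (e j) else 0) •
      (lin (uu J a) * lin (vv K b) : Lam K (n × Fin 2)) = xg (e j, 0) * xg (e j, 1) := by
    intro j
    have h2 : ∀ a, ∑ b, (if b = e j then J⁻¹ a (e j) else 0) •
        (lin (uu J a) * lin (vv K b) : Lam K (n × Fin 2)) =
        J⁻¹ a (e j) • (lin (uu J a) * lin (vv K (e j))) := by
      intro a
      rw [Finset.sum_eq_single (e j)]
      · rw [if_pos rfl]
      · intro b _ hb
        rw [if_neg hb, zero_smul]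
      · intro h
        exact absurd (Finset.mem_univ _) h
    simp only [h2]
    have h3 : ∑ a, J⁻¹ a (e j) • uu J a = Pi.single ((e j, 0) : n × Fin 2) (1 : K) := by
      have h4 : ∑ a, J⁻¹ a (e j) • uu J a =
          ∑ k, ((J * J⁻¹) k (e j)) • (Pi.single ((k, 0) : n × Fin 2) (1 : K)) := by
        simp only [uu, Finset.smul_sum, Matrix.mul_apply, Finset.sum_smul, smul_smul]
        rw [Finset.sum_comm]
        refine Finset.sum_congr rfl fun k _ => Finset.sum_congr rfl fun a _ => ?_
        rw [mul_comm]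
      rw [h4, Matrix.mul_nonsing_inv _ hJu, Finset.sum_eq_single (e j)]
      · rw [Matrix.one_apply_eq, one_smul]
      · intro k _ hk
        rw [Matrix.one_apply_ne hk, zero_smul]
      · intro h
        exact absurd (Finset.mem_univ _) h
    have h5 : ∑ a, J⁻¹ a (e j) • (lin (uu J a) * lin (vv K (e j)) : Lam K (n × Fin 2)) =
        lin (∑ a, J⁻¹ a (e j) • uu J a) * lin (vv K (e j)) := by
      rw [lin, lin, map_sum, Finset.sum_mul]
      refine Finset.sum_congr rfl fun a _ => ?_
      rw [map_smul, smul_mul_assoc]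
      rfl
    rw [h5, h3]
    rfl
  have h2 : ∑ a : Fin N → n, ∑ b : Fin N → n, beta (l2 e).reverse (uu J) (vv K) a b •
      (List.ofFn fun j => (Matrix.of fun a b => if b = e j then J⁻¹ a (e j) else 0 :
        Matrix n n K) (a j) (b j)).prod = 1 := by
    have h3 : ber (l2 e).reverse (List.ofFn fun j : Fin N => ∑ a, ∑ b,
        (if b = e j then J⁻¹ a (e j) else 0) •
          (lin (uu J a) * lin (vv K b) : Lam K (n × Fin 2))).prod = 1 := by
      simp only [h1]
      rw [← prod_l2, ber_apply, topD_reverse (nodup_l2 e), map_one]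
    rw [← h3, ofFn_sum, map_sum]
    refine Finset.sum_congr rfl fun a _ => ?_
    rw [map_sum]
    refine Finset.sum_congr rfl fun b _ => ?_
    rw [ofFn_smul, map_smul, beta, smul_eq_mul, smul_eq_mul, mul_comm]
    rfl
  rw [h2] at h
  exact one_ne_zero h

end

end Pool.Agent.helper61.QC
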