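import Mathlib
import Pool.Agent.helper61.QC.Pol
import Pool.Agent.helper61.QC.S4

/-!
# The Berezin integral of `ζ ^ i exp (κ 𝔸)`
-/

set_option autoImplicit false
set_option linter.unusedSectionVars false
set_option linter.unusedSimpArgs false

namespace Pool.Agent.helper61.QC

open Matrix Equiv

/-- `1` for the first `i` indices and `A` for the others -/
def Wf {n : Type*} [Fintype n] [DecidableEq n] {E : Type*} [Ring E] (A : Matrix n n E) (k : ℕ) :
    ∀ i : ℕ, Fin (k + i) → Matrix n n E
  | 0 => fun _ => A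
  | i + 1 => (Fin.cons 1 (Wf A k i) : Fin (k + i + 1) → Matrix n n E)

theorem altG_Wf {n : Type*} [Fintype n] [DecidableEq n] {E : Type*} [Ring E] (A : Matrix n n E)
    (k i : ℕ) : altG (k + i) (Wf A k i) =
      (∏ j ∈ Finset.range i, ((Fintype.card n : ℤ) - (k + j))) • altG k (fun _ => A) := by
  induction i with
  | zero => rw [Finset.range_zero, Finset.prod_empty, one_smul]; rfl
  | succ i ih =>
    show altG (k + i + 1) (Fin.cons 1 (Wf A k i) : Fin (k + i + 1) → Matrix n n E) = _
    rw [altG_cons, ih, Finset.prod_range_succ, smul_smul, mul_comm]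
    push_cast
    rfl

section

variable {K : Type*} [Field K] {n : Type*} [Fintype n] [DecidableEq n] (J : Matrix n n K)
  {ι : Type*} [Fintype ι] [DecidableEq ι]

theorem prod_Wf (A : Matrix n n (Matrix ι ι K)) (k i : ℕ) :
    (List.ofFn fun j => bbA J (Wf A k i j)).prod = bbA J 1 ^ i * bbA J A ^ k := by
  induction i with
  | zero =>
    rw [pow_zero, one_mul]
    show (List.ofFn fun _ : Fin k => bbA J A).prod = _
    rw [List.ofFn_const, List.prod_replicate]
  | succ i ih =>
    show (List.ofFn fun j : Fin (k + i + 1) => bbA J ((Fin.cons 1 (Wf A k i) :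
      Fin (k + i + 1) → Matrix n n (Matrix ι ι K)) j)).prod = _
    rw [List.ofFn_succ, List.prod_cons]
    simp only [Fin.cons_zero, Fin.cons_succ]
    rw [ih, pow_succ', mul_assoc]

/-- `ζ` -/
noncomputable def zt : Ev K (n × Fin 2) := ∑ a, zz J a a

theorem bbA_one : bbA J (1 : Matrix n n (Matrix ι ι K)) =
    zt J • (1 : Matrix ι ι (Ev K (n × Fin 2))) := by
  rw [bbA, zt, Finset.sum_smul]
  refine Finset.sum_congr rfl fun a _ => ?_
  rw [Finset.sum_eq_single a]
  · rw [Matrix.one_apply_eq, map_one]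
  · intro b _ hb
    rw [Matrix.one_apply_ne hb.symm, map_zero, smul_zero]
  · intro h
    exact absurd (Finset.mem_univ _) h

theorem bbA_one_pow_mul (i : ℕ) (M : Matrix ι ι (Ev K (n × Fin 2))) :
    bbA J (1 : Matrix n n (Matrix ι ι K)) ^ i * M = zt J ^ i • M := by
  rw [bbA_one, smul_pow, one_pow, smul_mul_assoc, one_mul]

theorem berM_pow_zero [CharZero K] {l : List (n × Fin 2)} (hl : ∀ a, a ∈ l) {k i : ℕ}
    (h : Fintype.card n ≠ k + i) (A : Matrix n n (Matrix ι ι K)) :
    berM l (zt J ^ i • bbA J A ^ k) = 0 := by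
  rw [← bbA_one_pow_mul, ← prod_Wf, berM_prod_zero J hl h]

theorem berM_pow {k i : ℕ} (e : Fin (k + i) ≃ n) (A : Matrix n n (Matrix ι ι K)) :
    berM (l2 e).reverse (zt J ^ i • bbA J A ^ k) =
      (c0 J e * ((i.factorial : ℕ) : K)) • altG k (fun _ => A) := by
  rw [← bbA_one_pow_mul, ← prod_Wf, berM_prod, sum_beta, ← c0, altG_Wf, mul_smul]
  congr 1
  have hc : (Fintype.card n : ℤ) = k + i := by
    rw [← Fintype.card_congr e, Fintype.card_fin]
    push_cast
    rfl
  have h : ∏ j ∈ Finset.range i, ((Fintype.card n : ℤ) - (k + j)) = ((i.factorial : ℕ) : ℤ) := by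
    rw [← Finset.prod_range_add_one_eq_factorial, Nat.cast_prod,
      ← Finset.prod_range_reflect (fun x => ((x + 1 : ℕ) : ℤ))]
    refine Finset.prod_congr rfl fun j hj => ?_
    rw [Finset.mem_range] at hj
    rw [hc]
    have : ((i - 1 - j + 1 : ℕ) : ℤ) = i - j := by omega
    rw [this]
    ring
  rw [h, natCast_zsmul, ← Nat.cast_smul_eq_nsmul K]

/-- `𝔸` is nilpotent -/
theorem bbA_pow_eq_zero {M : ℕ} (hM : Fintype.card n < M) (A : Matrix n n (Matrix ι ι K)) :
    bbA J A ^ M = 0 := by
  have h : bbA J A ^ M = (List.ofFn fun _ : Fin M => bbA J A).prod := by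
    rw [List.ofFn_const, List.prod_replicate]
  rw [h]
  simp only [bbA]
  rw [ofFn_sum]
  refine Finset.sum_eq_zero fun a _ => Finset.sum_eq_zero fun b _ => ?_
  rw [ofFn_smul]
  have h2 : (List.ofFn fun j => zz J (a j) (b j)).prod = 0 := by
    apply Subtype.ext
    have h3 := coe_prod_ofFn (K := K) M fun j => zz J (a j) (b j)
    refine h3.trans ?_
    simp only [zz_coe]
    obtain ⟨s, hs⟩ := exists_sign (K := K) (I := n × Fin 2) M
    rw [hs (fun j => uu J (a j)) fun j => vv K (b j), ofFn_lin]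
    have ha : ¬ Function.Injective a := by
      intro h
      have := Fintype.card_le_of_injective a h
      rw [Fintype.card_fin] at this
      omega
    have h4 : (ExteriorAlgebra.ιMulti K M fun j => uu J (a j)) = 0 := by
      obtain ⟨p, q, hpq, hne⟩ : ∃ p q, a p = a q ∧ p ≠ q := by
        simpa [Function.Injective, not_forall] using ha
      exact AlternatingMap.map_eq_zero_of_eq _ _ (by rw [hpq]) hne
    rw [h4, zero_mul, smul_zero]
    rfl
  rw [h2, zero_smul]

theorem bbA_nilp (A : Matrix n n (Matrix ι ι K)) : IsNilpotent (bbA J A) :=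
  ⟨_, bbA_pow_eq_zero J (Nat.lt_succ_self _) A⟩

/-- the Berezin integral of `ζ ^ i exp (κ 𝔸)` -/
theorem berM_exp [CharZero K] {k i : ℕ} (e : Fin (k + i) ≃ n) (A : Matrix n n (Matrix ι ι K))
    (κ : K) : berM (l2 e).reverse (zt J ^ i • IsNilpotent.exp (κ • bbA J A)) =
      ((k.factorial : K)⁻¹ * κ ^ k * (c0 J e * ((i.factorial : ℕ) : K))) •
        altG k (fun _ => A) := by
  have hc : Fintype.card n = k + i := by
    rw [← Fintype.card_congr e, Fintype.card_fin]
  have h1 : (κ • bbA J A) ^ (k + i + 1) = 0 := by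
    rw [smul_pow, bbA_pow_eq_zero J (by omega) A, smul_zero]
  rw [IsNilpotent.exp_eq_sum h1, Finset.smul_sum, map_sum, Finset.sum_eq_single k]
  · rw [← smul_comm, map_rat_smul, smul_pow, ← smul_comm, map_smul, berM_pow, smul_smul,
      ← Rat.cast_smul_eq_qsmul K, smul_smul, ← mul_assoc]
    congr 2
    push_cast
    rfl
  · intro r _ hr
    rw [← smul_comm, map_rat_smul, smul_pow, ← smul_comm, map_smul, berM_pow_zero, smul_zero,
      smul_zero]
    · intro a
      rw [List.mem_reverse]
      exact mem_l2 e a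
    · omega
  · intro h
    exact absurd (Finset.mem_range.2 (by omega)) h

end

end Pool.Agent.helper61.QC
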