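import Mathlib
import Pool.Agent.helper61.QC.Pw
import Pool.Agent.helper61.QC.Tens

/-!
# The sum `∑ z_ab A_ab` for the symplectic Lie algebra
-/

set_option autoImplicit false
set_option linter.unusedSectionVars false
set_option linter.unusedSimpArgs false

namespace Pool.Agent.helper61.QC

open Matrix Equiv

section

variable {K : Type*} [Field K] {n : Type*} [Fintype n] [DecidableEq n] (J : Matrix n n K)
  {ι : Type*} [Fintype ι] [DecidableEq ι]

/-- `ε⁻¹` -/
def e2 (R : Type*) [CommRing R] : Matrix (Fin 2) (Fin 2) R := !![0, -1; 1, 0]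

/-- the matrix `X` -/
noncomputable def X2 : Matrix n n (Ev K (n × Fin 2)) := Th J (e2 (Ev K (n × Fin 2)))

theorem X2_apply (i j : n) : X2 J i j =
    -(∑ k, J k j • xx (K := K) ((i, 0) : n × Fin 2) (k, 1)) + ∑ k, J k j • xx (i, 1) (k, 0) := by
  rw [X2, Th_apply]
  simp [Fin.sum_univ_two, e2]

/-- the projection to the symplectic Lie algebra -/
noncomputable def Yp : Matrix n n K →ₗ[K] Matrix n n K where
  toFun a := (2 : K)⁻¹ • (a - J⁻¹ * aᵀ * J)
  map_add' a b := by
    rw [Matrix.transpose_add, mul_add, add_mul, ← smul_add]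
    congr 1
    abel
  map_smul' c a := by
    rw [Matrix.transpose_smul, mul_smul_comm, smul_mul_assoc, ← smul_sub, smul_comm]
    rfl

theorem Yp_apply (a : Matrix n n K) : Yp J a = (2 : K)⁻¹ • (a - J⁻¹ * aᵀ * J) := rfl

theorem mul_algebraMap_eq {I : Type*} [Fintype I] [DecidableEq I] (z : Ev K I) (c : K) :
    z * algebraMap K (Ev K I) c = c • z := by
  rw [mul_comm, ← Algebra.smul_def]

theorem bbA_apply (A : Matrix n n (Matrix ι ι K)) (i j : ι) :
    bbA J A i j = ∑ a, ∑ b, A a b i j • zz J a b := by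
  rw [bbA, Matrix.sum_apply]
  refine Finset.sum_congr rfl fun a _ => ?_
  rw [Matrix.sum_apply]
  refine Finset.sum_congr rfl fun b _ => ?_
  rw [Matrix.smul_apply, mm_apply, smul_eq_mul, mul_algebraMap_eq]

/-- the family `Yp (E_ba)` -/
noncomputable def Ye : Matrix n n (Matrix n n K) :=
  Matrix.of fun a b => Yp J (Matrix.single b a 1)

theorem bbA_Ye (hJ : Jᵀ = -J) (hJu : IsUnit J.det) : bbA J (Ye J) = -((2 : K)⁻¹ • X2 J) := by
  ext1 i j
  rw [bbA_apply, Matrix.neg_apply, Matrix.smul_apply]
  have h1 : ∀ a b, (Ye J a b) i j • zz J a b = (2 : K)⁻¹ •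
      ((Matrix.single b a (1 : K)) i j • zz J a b - (J⁻¹ i a * J b j) • zz J a b) := by
    intro a b
    rw [Ye, Matrix.of_apply, Yp_apply, Matrix.smul_apply, Matrix.sub_apply, smul_eq_mul,
      mul_smul, sub_smul, Matrix.transpose_single]
    congr 3
    rw [Matrix.mul_apply, Finset.sum_eq_single b]
    · rw [Matrix.mul_apply, Finset.sum_eq_single a]
      · simp
      · intro x _ hx
        rw [Matrix.single_apply_of_row_ne, mul_zero]
        exact hx.symm
      · intro h
        exact absurd (Finset.mem_univ _) h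
    · intro x _ hx
      rw [Matrix.mul_apply, Finset.sum_eq_zero, zero_mul]
      intro y _
      rw [Matrix.single_apply_of_col_ne, mul_zero]
      exact hx.symm
    · intro h
      exact absurd (Finset.mem_univ _) h
  simp only [h1]
  simp only [← Finset.smul_sum, Finset.sum_sub_distrib]
  rw [← smul_neg]
  congr 1
  have h2 : ∑ a, ∑ b, (Matrix.single b a (1 : K)) i j • zz J a b = zz J j i := by
    rw [Finset.sum_eq_single j]
    · rw [Finset.sum_eq_single i]
      · rw [Matrix.single_apply_same, one_smul]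
      · intro x _ hx
        rw [Matrix.single_apply_of_row_ne hx, zero_smul]
      · intro h
        exact absurd (Finset.mem_univ _) h
    · intro x _ hx
      refine Finset.sum_eq_zero fun y _ => ?_
      rw [Matrix.single_apply_of_col_ne _ _ hx, zero_smul]
    · intro h
      exact absurd (Finset.mem_univ _) h
  have h3 : ∀ b, ∑ a, J⁻¹ i a • zz J a b = -xx ((i, 0) : n × Fin 2) (b, 1) := by
    intro b
    have h4 : ∑ a, J⁻¹ i a • zz J a b =
        ∑ k, ((J⁻¹ * Jᵀ) i k) • xx (K := K) ((k, 0) : n × Fin 2) (b, 1) := by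
      simp only [zz, Finset.smul_sum, Matrix.mul_apply, Finset.sum_smul, smul_smul,
        Matrix.transpose_apply]
      rw [Finset.sum_comm]
    rw [h4, hJ, mul_neg, Matrix.nonsing_inv_mul _ hJu, Finset.sum_eq_single i]
    · rw [Matrix.neg_apply, Matrix.one_apply_eq, neg_smul, one_smul]
    · intro k _ hk
      rw [Matrix.neg_apply, Matrix.one_apply_ne hk.symm, neg_zero, zero_smul]
    · intro h
      exact absurd (Finset.mem_univ _) h
  have h5 : ∑ a, ∑ b, (J⁻¹ i a * J b j) • zz J a b =
      -∑ b, J b j • xx (K := K) ((i, 0) : n × Fin 2) (b, 1) := by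
    rw [Finset.sum_comm, ← Finset.sum_neg_distrib]
    refine Finset.sum_congr rfl fun b _ => ?_
    rw [← smul_neg, ← h3, Finset.smul_sum]
    refine Finset.sum_congr rfl fun a _ => ?_
    rw [smul_smul, mul_comm]
  rw [h2, h5, X2_apply, zz, sub_neg_eq_add, neg_add, neg_neg, add_comm, ← Finset.sum_neg_distrib]
  congr 1
  refine Finset.sum_congr rfl fun k _ => ?_
  rw [xx_swap, smul_neg]

end

end Pool.Agent.helper61.QC
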