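import Mathlib
import Pool.Agent.helper61.QC.Star

/-!
# The Berezin integral as a symmetrised minor
-/

set_option autoImplicit false
set_option linter.unusedSectionVars false
set_option linter.unusedSimpArgs false

namespace Pool.Agent.helper61.QC

open Matrix Equiv

universe u v

theorem sum4_comm {n T : Type*} [Fintype n] [AddCommMonoid T] (G : n → n → n → n → T) :
    ∑ a, ∑ b, ∑ i, ∑ j, G a b i j = ∑ i, ∑ j, ∑ a, ∑ b, G a b i j := by
  have h : ∀ a, ∑ b, ∑ i, ∑ j, G a b i j = ∑ i, ∑ j, ∑ b, G a b i j := by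
    intro a
    rw [Finset.sum_comm]
    refine Finset.sum_congr rfl fun i _ => ?_
    rw [Finset.sum_comm]
  simp only [h]
  rw [Finset.sum_comm]
  refine Finset.sum_congr rfl fun i _ => ?_
  rw [Finset.sum_comm]

section FR

variable {K : Type*} [Field K] {n : Type*} [Fintype n] [DecidableEq n] {S : Type*} [CommRing S]
  [Algebra K S]

/-- the extension of a linear form to matrices over an algebra -/
noncomputable def fR (f : Matrix n n K →ₗ[K] K) (M : Matrix n n S) : S :=
  ∑ i, ∑ j, f (Matrix.single i j 1) • M i j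

theorem fR_map {S' : Type*} [CommRing S'] [Algebra K S'] (f : Matrix n n K →ₗ[K] K)
    (φ : S →ₐ[K] S') (M : Matrix n n S) : φ (fR f M) = fR f (M.map φ) := by
  rw [fR, fR, map_sum]
  refine Finset.sum_congr rfl fun i _ => ?_
  rw [map_sum]
  refine Finset.sum_congr rfl fun j _ => ?_
  rw [map_smul, Matrix.map_apply]

theorem fR_add (f : Matrix n n K →ₗ[K] K) (M N : Matrix n n S) :
    fR f (M + N) = fR f M + fR f N := by
  simp only [fR, Matrix.add_apply, smul_add, Finset.sum_add_distrib]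

theorem f_eq (f : Matrix n n K →ₗ[K] K) (a : Matrix n n K) :
    f a = ∑ i, ∑ j, f (Matrix.single i j 1) * a i j := by
  conv_lhs => rw [Matrix.matrix_eq_sum_single a]
  simp only [map_sum]
  refine Finset.sum_congr rfl fun i _ => Finset.sum_congr rfl fun j _ => ?_
  have h3 : Matrix.single i j (a i j) = a i j • Matrix.single i j (1 : K) := by
    rw [Matrix.smul_single, smul_eq_mul, mul_one]
  rw [h3, map_smul, smul_eq_mul, mul_comm]

end FR

section

variable {K : Type v} [Field K] {n : Type u} [Fintype n] [DecidableEq n] (J : Matrix n n K)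
  {ι : Type*} [Fintype ι] [DecidableEq ι]

/-- the scalar part -/
noncomputable def et (f : Matrix n n K →ₗ[K] K) : Ev K (n × Fin 2) :=
  ∑ a, ∑ b, f (Matrix.single b a 1) • zz J a b

theorem et_eq [CharZero K] (hJ : Jᵀ = -J) (hJu : IsUnit J.det) (f : Matrix n n K →ₗ[K] K)
    (hf : ∀ a, f (J⁻¹ * aᵀ * J) = -f a) : et J f = fR f (-((2 : K)⁻¹ • X2 J)) := by
  rw [← bbA_Ye J hJ hJu, fR]
  simp only [bbA_apply, Finset.smul_sum, smul_smul]
  have h1 : ∀ a b, f (Matrix.single b a 1) =
      ∑ i, ∑ j, f (Matrix.single i j 1) * (Ye J a b) i j := by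
    intro a b
    rw [← f_eq, Ye, Matrix.of_apply, Yp_apply, map_smul, map_sub, hf, sub_neg_eq_add,
      ← two_smul K, smul_smul, inv_mul_cancel₀ two_ne_zero, one_smul]
  rw [et]
  have h2 : ∀ a b, f (Matrix.single b a 1) • zz J a b =
      ∑ i, ∑ j, (f (Matrix.single i j 1) * (Ye J a b) i j) • zz J a b := by
    intro a b
    rw [h1 a b, Finset.sum_smul]
    refine Finset.sum_congr rfl fun i _ => ?_
    rw [Finset.sum_smul]
  simp only [h2]
  rw [sum4_comm]

theorem mm_dD (m : ℕ) (M : Matrix n n K) :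
    mm K (n × Fin 2) (Idx n m) (dD m M) = dD m (mm K (n × Fin 2) n M) :=
  dD_map (algebraMap K (Ev K (n × Fin 2))) m M

/-- `dD` as an additive map -/
def dDa (R : Type*) [CommRing R] (m : ℕ) : Matrix n n R →+ Matrix (Idx n m) (Idx n m) R where
  toFun := dD m
  map_zero' := by
    have := dD_smul (n := n) m (0 : R) 0
    rwa [zero_smul, zero_smul] at this
  map_add' := dD_add m

theorem dDa_apply (R : Type*) [CommRing R] (m : ℕ) (M : Matrix n n R) : dDa R m M = dD m M := rfl

theorem bbA_dD (m : ℕ) (A : Matrix n n (Matrix n n K)) :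
    bbA J (Matrix.of fun a b => dD m (A a b)) = dD m (bbA J A) := by
  rw [bbA, bbA, ← dDa_apply, map_sum]
  refine Finset.sum_congr rfl fun a _ => ?_
  rw [map_sum]
  refine Finset.sum_congr rfl fun b _ => ?_
  rw [Matrix.of_apply, mm_dD, dDa_apply, dD_smul]

theorem bbA_add (A B : Matrix n n (Matrix ι ι K)) : bbA J (A + B) = bbA J A + bbA J B := by
  simp only [bbA, Matrix.add_apply, map_add, smul_add, Finset.sum_add_distrib]

/-- the matrix `x + s η` in the tensor representation -/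
noncomputable def As (f : Matrix n n K →ₗ[K] K) (m : ℕ) (s : K) :
    Matrix n n (Matrix (Idx n m) (Idx n m) K) :=
  Matrix.of fun a b => dD m (Ye J a b) + (s * f (Matrix.single b a 1)) • 1

theorem bbA_As [CharZero K] (hJ : Jᵀ = -J) (hJu : IsUnit J.det) (f : Matrix n n K →ₗ[K] K)
    (m : ℕ) (s : K) : bbA J (As J f m s) =
      dD m (-((2 : K)⁻¹ • X2 J)) + (s • et J f) • 1 := by
  have h : As J f m s = (Matrix.of fun a b => dD m (Ye J a b)) +
      Matrix.of fun a b => (s * f (Matrix.single b a 1)) • 1 := rfl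
  rw [h, bbA_add, bbA_dD, bbA_Ye J hJ hJu]
  congr 1
  ext1 i j
  rw [bbA_apply, Matrix.smul_apply, et]
  simp only [Matrix.of_apply, Matrix.smul_apply, smul_eq_mul]
  by_cases hij : i = j
  · subst hij
    simp only [Matrix.one_apply_eq, mul_one]
    rw [Finset.smul_sum]
    refine Finset.sum_congr rfl fun a _ => ?_
    rw [Finset.smul_sum]
    refine Finset.sum_congr rfl fun b _ => ?_
    rw [smul_smul]
  · simp only [Matrix.one_apply_ne hij, mul_zero, zero_smul, Finset.sum_const_zero]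

/-- the function whose Berezin integral is taken -/
noncomputable def PP [CharZero K] (f : Matrix n n K →ₗ[K] K) (m i : ℕ) (γ : K) :
    Matrix (Idx n m) (Idx n m) (Ev K (n × Fin 2)) :=
  (zt J ^ i * IsNilpotent.exp (fR f (-((2 : K)⁻¹ • X2 J)))) •
    tT m (IsNilpotent.exp (γ • X2 J))

theorem aug_et [CharZero K] (f : Matrix n n K →ₗ[K] K) : augE (et J f) = 0 := by
  rw [et, map_sum]
  refine Finset.sum_eq_zero fun a _ => ?_
  rw [map_sum]
  refine Finset.sum_eq_zero fun b _ => ?_
  rw [map_smul, augE_apply, zz_coe, map_mul]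
  have h : aug (lin (vv K b) : Lam K (n × Fin 2)) = 0 := by
    rw [lin, vv]
    exact aug_xg _
  rw [h, mul_zero, smul_zero]

theorem X2_nilp [CharZero K] (hJ : Jᵀ = -J) (hJu : IsUnit J.det) : IsNilpotent (X2 J) := by
  obtain ⟨M, hM⟩ := bbA_nilp J (Ye J)
  rw [bbA_Ye J hJ hJu] at hM
  refine ⟨M, ?_⟩
  have h : X2 J = (-2 : K) • (-((2 : K)⁻¹ • X2 J)) := by
    rw [smul_neg, neg_smul, neg_neg, smul_smul, mul_inv_cancel₀ two_ne_zero, one_smul]
  rw [h, smul_pow, hM, smul_zero]

/-- the exponential of `κ 𝔸` -/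
theorem exp_bbA [CharZero K] (hJ : Jᵀ = -J) (hJu : IsUnit J.det) (f : Matrix n n K →ₗ[K] K)
    (hf : ∀ a, f (J⁻¹ * aᵀ * J) = -f a) (m i : ℕ) {γ s : K} (hs : s * (-2 * γ) = 1) :
    zt J ^ i • IsNilpotent.exp ((-2 * γ) • bbA J (As J f m s)) = PP J f m i γ := by
  have h1 : (-2 * γ) • bbA J (As J f m s) = dD m (γ • X2 J) +
      algebraMap (Ev K (n × Fin 2)) (Matrix (Idx n m) (Idx n m) (Ev K (n × Fin 2))) (et J f) := by
    rw [bbA_As J hJ hJu, smul_add]
    congr 1
    · have h2 : dD m (γ • X2 J) = dD m (algebraMap K (Ev K (n × Fin 2)) (-2 * γ) •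
          (-((2 : K)⁻¹ • X2 J))) := by
        congr 1
        rw [algebraMap_smul, smul_neg, smul_smul, ← neg_smul]
        congr 1
        field_simp
      rw [h2, dD_smul, algebraMap_smul]
    · rw [← smul_assoc, smul_smul, mul_comm, hs, one_smul, Algebra.algebraMap_eq_smul_one]
  have h2 : IsNilpotent (et J f) := nilp (aug_et J f)
  have h3 : IsNilpotent (γ • X2 J) := by
    obtain ⟨M, hM⟩ := X2_nilp J hJ hJu
    exact ⟨M, by rw [smul_pow, hM, smul_zero]⟩
  rw [h1, IsNilpotent.exp_add_of_commute (Algebra.commutes _ _).symm (dD_nilpotent m h3)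
    (h2.map _), exp_dD m h3, ← IsNilpotent.map_exp h2, PP, ← et_eq J hJ hJu f hf, mul_smul]
  congr 1
  rw [← Algebra.commutes, ← Algebra.smul_def]

/-- the Berezin integral of `PP` is a symmetrised minor -/
theorem berM_PP [CharZero K] (hJ : Jᵀ = -J) (hJu : IsUnit J.det) (f : Matrix n n K →ₗ[K] K)
    (hf : ∀ a, f (J⁻¹ * aᵀ * J) = -f a) (m : ℕ) {k i : ℕ} (e : Fin (k + i) ≃ n) {γ s : K}
    (hs : s * (-2 * γ) = 1) : ∃ c : K, c ≠ 0 ∧
      berM (l2 e).reverse (PP J f m i γ) = c • altG k (fun _ => As J f m s) := by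
  refine ⟨(k.factorial : K)⁻¹ * (-2 * γ) ^ k * (c0 J e * ((i.factorial : ℕ) : K)), ?_, ?_⟩
  · have h1 : (-2 * γ) ≠ 0 := by
      intro h
      rw [h, mul_zero] at hs
      exact zero_ne_one hs
    refine mul_ne_zero (mul_ne_zero (inv_ne_zero ?_) (pow_ne_zero _ h1))
      (mul_ne_zero (c0_ne_zero J hJu e) ?_)
    · exact_mod_cast Nat.factorial_ne_zero k
    · exact_mod_cast Nat.factorial_ne_zero i
  · rw [← exp_bbA J hJ hJu f hf m i hs, berM_exp]

end

end Pool.Agent.helper61.QC
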