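import Mathlib
import Pool.Agent.helper61.QC.StarB
import Pool.Agent.helper61.QC.Ber2
import Pool.Agent.helper61.QC.ExchC

/-!
# The Berezin integrals commute
-/

set_option autoImplicit false
set_option linter.unusedSectionVars false
set_option linter.unusedSimpArgs false

namespace Pool.Agent.helper61.QC

open Matrix Equiv

universe u v

section EmbE

variable {K : Type*} [Field K] [CharZero K] {I I' : Type*} [Fintype I] [DecidableEq I]
  [Fintype I'] [DecidableEq I']

/-- `emb` on the even parts -/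
noncomputable def embE (e : I' → I) : Ev K I' →ₐ[K] Ev K I :=
  homE (fun a => xg (e a)) fun a => gr_xg (e a)

theorem embE_coe (e : I' → I) (P : Ev K I') : (embE e P : Lam K I) = emb e P := rfl

theorem embE_xx (e : I' → I) (a b : I') : embE e (xx a b : Ev K I') = xx (e a) (e b) := by
  apply Subtype.ext
  rw [embE_coe, xx_coe, xx_coe, map_mul, emb_xg, emb_xg]

end EmbE

section

variable {K : Type v} [Field K] [CharZero K] {n : Type u} [Fintype n] [DecidableEq n]
  (J : Matrix n n K)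

/-- the variables of the first block -/
def eAi (n : Type u) : n × Fin 2 → n × Fin 4 := fun p => (p.1, ![0, 1] p.2)

/-- the variables of the second block -/
def eBi (n : Type u) : n × Fin 2 → n × Fin 4 := fun p => (p.1, ![2, 3] p.2)

theorem eAi_inj : Function.Injective (eAi n) := by
  rintro ⟨a, r⟩ ⟨b, s⟩ h
  rw [eAi, eAi, Prod.mk.injEq] at h
  obtain ⟨h1, h2⟩ := h
  dsimp only at h1 h2
  fin_cases r <;> fin_cases s <;> simp_all

theorem eBi_inj : Function.Injective (eBi n) := by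
  rintro ⟨a, r⟩ ⟨b, s⟩ h
  rw [eBi, eBi, Prod.mk.injEq] at h
  obtain ⟨h1, h2⟩ := h
  dsimp only at h1 h2
  fin_cases r <;> fin_cases s <;> simp_all

theorem eAi_ne_eBi (p q : n × Fin 2) : eAi n p ≠ eBi n q := by
  obtain ⟨a, r⟩ := p
  obtain ⟨b, s⟩ := q
  intro h
  rw [eAi, eBi, Prod.mk.injEq] at h
  obtain ⟨h1, h2⟩ := h
  dsimp only at h1 h2
  fin_cases r <;> fin_cases s <;> simp_all

/-- the list of all variables -/
def l4 (l : List (n × Fin 2)) : List (n × Fin 4) := l.map (eAi n) ++ l.map (eBi n)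

theorem mem_l4 {l : List (n × Fin 2)} (hl : ∀ a, a ∈ l) (a : n × Fin 4) : a ∈ l4 l := by
  obtain ⟨a, r⟩ := a
  rw [l4, List.mem_append, List.mem_map, List.mem_map]
  fin_cases r
  · exact Or.inl ⟨(a, 0), hl _, rfl⟩
  · exact Or.inl ⟨(a, 1), hl _, rfl⟩
  · exact Or.inr ⟨(a, 0), hl _, rfl⟩
  · exact Or.inr ⟨(a, 1), hl _, rfl⟩

theorem length_l4 {l : List (n × Fin 2)} (hl : l.length = Fintype.card (n × Fin 2)) :
    (l4 l).length = Fintype.card (n × Fin 4) := by
  rw [l4, List.length_append, List.length_map, List.length_map, hl, Fintype.card_prod,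
    Fintype.card_prod, Fintype.card_fin, Fintype.card_fin]
  ring

theorem eA_eq (R : Type*) [CommRing R] :
    eA R = !![0, -1, 0, 0; 1, 0, 0, 0; 0, 0, 0, 0; 0, 0, 0, 0] := by
  ext i j
  fin_cases i <;> fin_cases j <;> simp [eA, E4, pi4, Matrix.mul_apply, Fin.sum_univ_four]

theorem eB_eq (R : Type*) [CommRing R] :
    eB R = !![0, 0, 0, 0; 0, 0, 0, 0; 0, 0, 0, -1; 0, 0, 1, 0] := by
  have h : eB R = -(E4 R - E4 R * pi4 R) := by rw [eB, pj4, mul_sub, mul_one]
  rw [h]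
  ext i j
  fin_cases i <;> fin_cases j <;> simp [E4, pi4, Matrix.mul_apply, Fin.sum_univ_four]

theorem X2_mapA : (X2 J).map (embE (eAi n)) = XA J := by
  ext1 i j
  rw [Matrix.map_apply, X2_apply, XA, Th_apply, map_add, map_neg, map_sum, map_sum, eA_eq]
  simp only [map_smul, embE_xx, eAi]
  simp [Fin.sum_univ_four]

theorem X2_mapB : (X2 J).map (embE (eBi n)) = XB J := by
  ext1 i j
  rw [Matrix.map_apply, X2_apply, XB, Th_apply, map_add, map_neg, map_sum, map_sum, eB_eq]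
  simp only [map_smul, embE_xx, eBi]
  simp [Fin.sum_univ_four]

theorem zt_mapA : embE (eAi n) (zt J) = Sig J 0 1 := by
  rw [zt, map_sum, Sig_apply, Finset.sum_comm]
  refine Finset.sum_congr rfl fun a _ => ?_
  rw [zz, map_sum]
  refine Finset.sum_congr rfl fun k _ => ?_
  rw [map_smul, embE_xx]
  rfl

theorem zt_mapB : embE (eBi n) (zt J) = Sig J 2 3 := by
  rw [zt, map_sum, Sig_apply, Finset.sum_comm]
  refine Finset.sum_congr rfl fun a _ => ?_
  rw [zz, map_sum]
  refine Finset.sum_congr rfl fun k _ => ?_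
  rw [map_smul, embE_xx]
  rfl

/-! ## products of Berezin integrals -/

variable {ι : Type*} [Fintype ι] [DecidableEq ι]

theorem berM_mul (l : List (n × Fin 2)) (P Q : Matrix ι ι (Ev K (n × Fin 2))) :
    berM l P * berM l Q = berM (l4 l) (P.map (embE (eAi n)) * Q.map (embE (eBi n))) := by
  ext1 i j
  rw [Matrix.mul_apply, berM_apply, Matrix.mul_apply]
  show _ = ber (l4 l) ((Ev K (n × Fin 4)).val _)
  rw [map_sum, map_sum]
  refine Finset.sum_congr rfl fun k _ => ?_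
  rw [berM_apply, berM_apply, map_mul, Matrix.map_apply, Matrix.map_apply]
  exact (ber_mul eAi_inj eBi_inj eAi_ne_eBi l l (gr_coe (P i k)) _).symm

theorem berM_mul' (l : List (n × Fin 2)) (P Q : Matrix ι ι (Ev K (n × Fin 2))) :
    berM l Q * berM l P = berM (l4 l) (Q.map (embE (eBi n)) * P.map (embE (eAi n))) := by
  ext1 i j
  rw [Matrix.mul_apply, berM_apply, Matrix.mul_apply]
  show _ = ber (l4 l) ((Ev K (n × Fin 4)).val _)
  rw [map_sum, map_sum]
  refine Finset.sum_congr rfl fun k _ => ?_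
  rw [berM_apply, berM_apply, mul_comm (Q.map (embE (eBi n)) i k), map_mul, Matrix.map_apply,
    Matrix.map_apply, mul_comm (ber l (Q i k : Lam K (n × Fin 2)))]
  exact (ber_mul eAi_inj eBi_inj eAi_ne_eBi l l (gr_coe (P k j)) _).symm

theorem map_neg_half {a b : Type*} {S S' : Type*} [CommRing S] [CommRing S'] [Algebra K S]
    [Algebra K S'] (φ : S →ₐ[K] S') (X : Matrix a b S) :
    (-((2 : K)⁻¹ • X)).map φ = -((2 : K)⁻¹ • X.map φ) := by
  ext1 i j
  rw [Matrix.map_apply, Matrix.neg_apply, Matrix.neg_apply, Matrix.smul_apply,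
    Matrix.smul_apply, map_neg, map_smul, Matrix.map_apply]

theorem fX2_nilp (hJ : Jᵀ = -J) (hJu : IsUnit J.det) (f : Matrix n n K →ₗ[K] K)
    (hf : ∀ a, f (J⁻¹ * aᵀ * J) = -f a) : IsNilpotent (fR f (-((2 : K)⁻¹ • X2 J))) := by
  rw [← et_eq J hJ hJu f hf]
  exact nilp (aug_et J f)

theorem PP_map (hJ : Jᵀ = -J) (hJu : IsUnit J.det) (f : Matrix n n K →ₗ[K] K)
    (hf : ∀ a, f (J⁻¹ * aᵀ * J) = -f a) (m i : ℕ) (γ : K)
    (φ : Ev K (n × Fin 2) →ₐ[K] R4 K n) :
    (PP J f m i γ).map φ =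
      (φ (zt J) ^ i * IsNilpotent.exp (fR f (-((2 : K)⁻¹ • (X2 J).map φ)))) •
        tT m (IsNilpotent.exp (γ • (X2 J).map φ)) := by
  have h1 : ∀ c : K, (c • X2 J).map φ = c • (X2 J).map φ := by
    intro c
    ext1 i j
    rw [Matrix.map_apply, Matrix.smul_apply, Matrix.smul_apply, map_smul, Matrix.map_apply]
  have h3 : IsNilpotent (γ • X2 J) := by
    obtain ⟨M, hM⟩ := X2_nilp J hJ hJu
    exact ⟨M, by rw [smul_pow, hM, smul_zero]⟩
  have h4 : (tT m (IsNilpotent.exp (γ • X2 J))).map φ =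
      tT m (IsNilpotent.exp (γ • (X2 J).map φ)) := by
    have := tT_map (φ : Ev K (n × Fin 2) →+* R4 K n) m (IsNilpotent.exp (γ • X2 J))
    refine this.trans ?_
    congr 1
    have h5 := IsNilpotent.map_exp h3 (φ : Ev K (n × Fin 2) →+* R4 K n).mapMatrix
    refine Eq.trans h5 ?_
    congr 1
    exact h1 γ
  have h6 : φ (IsNilpotent.exp (fR f (-((2 : K)⁻¹ • X2 J)))) =
      IsNilpotent.exp (fR f (-((2 : K)⁻¹ • (X2 J).map φ))) := by
    rw [IsNilpotent.map_exp (fX2_nilp J hJ hJu f hf) φ, fR_map, map_neg_half]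
  rw [← h4, ← h6]
  ext1 I I'
  rw [PP, Matrix.map_apply, Matrix.smul_apply, Matrix.smul_apply, smul_eq_mul, smul_eq_mul,
    map_mul, map_mul, map_pow, Matrix.map_apply]

/-- the Berezin integrals commute -/
theorem berM_commute (hJ : Jᵀ = -J) (hJu : IsUnit J.det) (f : Matrix n n K →ₗ[K] K)
    (hf : ∀ a, f (J⁻¹ * aᵀ * J) = -f a) (m i i' : ℕ) {γ γ' : K} (hγ : γ ≠ 0) (hγ' : γ' ≠ 0)
    (hne : γ ≠ γ') {l : List (n × Fin 2)} (hl : ∀ a, a ∈ l)
    (hlen : l.length = Fintype.card (n × Fin 2)) :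
    Commute (berM l (PP J f m i γ)) (berM l (PP J f m i' γ')) := by
  set F : R4 K n := Sig J 0 1 ^ i * Sig J 2 3 ^ i' *
    IsNilpotent.exp (fR f (-((2 : K)⁻¹ • (XA J + XB J)))) with hF
  have hn := fX2_nilp J hJ hJu f hf
  have hnA : IsNilpotent (fR f (-((2 : K)⁻¹ • XA J))) := by
    have := hn.map (embE (eAi n))
    rw [fR_map, map_neg_half, X2_mapA] at this
    exact this
  have hnB : IsNilpotent (fR f (-((2 : K)⁻¹ • XB J))) := by
    have := hn.map (embE (eBi n))
    rw [fR_map, map_neg_half, X2_mapB] at this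
    exact this
  have hexp : IsNilpotent.exp (fR f (-((2 : K)⁻¹ • XA J))) *
      IsNilpotent.exp (fR f (-((2 : K)⁻¹ • XB J))) =
      IsNilpotent.exp (fR f (-((2 : K)⁻¹ • (XA J + XB J)))) := by
    rw [← IsNilpotent.exp_add_of_commute (Commute.all _ _) hnA hnB, ← fR_add, ← neg_add,
      ← smul_add]
  have hFψ : ∀ ψ : R4 K n →ₐ[K] R4 K n, (∀ i j, ψ (Sig J i j) = Sig J i j) →
      (XA J + XB J).map ψ = XA J + XB J → ψ F = F := by
    intro ψ h1 h2
    have h3 : IsNilpotent (fR f (-((2 : K)⁻¹ • (XA J + XB J)))) := by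
      rw [smul_add, neg_add, fR_add]
      exact (Commute.all _ _).isNilpotent_add hnA hnB
    rw [hF, map_mul, map_mul, map_pow, map_pow, h1, h1, IsNilpotent.map_exp h3, fR_map,
      map_neg_half, h2]
  rw [Commute, SemiconjBy, berM_mul, berM_mul', PP_map J hJ hJu f hf, PP_map J hJ hJu f hf,
    X2_mapA, X2_mapB, zt_mapA, zt_mapB]
  have e1 : (Sig J 0 1 ^ i * IsNilpotent.exp (fR f (-((2 : K)⁻¹ • XA J)))) •
        tT m (IsNilpotent.exp (γ • XA J)) *
      (Sig J 2 3 ^ i' * IsNilpotent.exp (fR f (-((2 : K)⁻¹ • XB J)))) •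
        tT m (IsNilpotent.exp (γ' • XB J)) =
      F • tT m (IsNilpotent.exp (γ • XA J) * IsNilpotent.exp (γ' • XB J)) := by
    rw [Matrix.smul_mul, Matrix.mul_smul, smul_smul, ← tT_mul, hF, ← hexp, mul_mul_mul_comm]
  have e2 : (Sig J 2 3 ^ i' * IsNilpotent.exp (fR f (-((2 : K)⁻¹ • XB J)))) •
        tT m (IsNilpotent.exp (γ' • XB J)) *
      (Sig J 0 1 ^ i * IsNilpotent.exp (fR f (-((2 : K)⁻¹ • XA J)))) •
        tT m (IsNilpotent.exp (γ • XA J)) =
      F • tT m (IsNilpotent.exp (γ' • XB J) * IsNilpotent.exp (γ • XA J)) := by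
    rw [Matrix.smul_mul, Matrix.mul_smul, smul_smul, ← tT_mul, hF, ← hexp,
      mul_comm (Sig J 2 3 ^ i' * _), mul_mul_mul_comm]
  rw [e1, e2]
  ext1 I I'
  exact exchange J hJ hJu (l4 l) (mem_l4 hl) (length_l4 hlen) hγ hγ' hne F hFψ m I I'

end

end Pool.Agent.helper61.QC
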