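import Mathlib
import Pool.Agent.helper49.QA.Inj
import Pool.Agent.helper61.QC.Tens

/-!
# The tensor powers of a faithful representation separate the elements of `U(L)`
-/

set_option autoImplicit false
set_option linter.unusedSectionVars false
set_option linter.unusedSimpArgs false

namespace Pool.Agent.helper61.QC

open Matrix MvPolynomial Pool.Agent.helper5.AS Pool.Agent.helper49.QA

attribute [local instance 100] LieRing.ofAssociativeRing

universe u v

variable {K : Type v} [Field K] {L : Type*} [LieRing L] [LieAlgebra K L] {n : Type u} [Fintype n]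
  [DecidableEq n] (ρ : L →ₗ[K] Matrix n n K) (hρ : IsLieMap ρ)

/-- the representation of `U(L)` in the tensor power -/
noncomputable def repU (m : ℕ) : Ue K L →ₐ[K] Matrix (Idx n m) (Idx n m) K :=
  UniversalEnvelopingAlgebra.lift K
    { toFun := fun x => dD m (ρ x)
      map_add' := fun x y => by rw [map_add, dD_add]
      map_smul' := fun c x => by
        rw [map_smul, dD_smul]
        rfl
      map_lie' := fun {x y} => by
        rw [LieRing.of_associative_ring_bracket, hρ, dD_lie] }

theorem repU_ι (m : ℕ) (x : L) : repU ρ hρ m (ιU K L x) = dD m (ρ x) :=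
  UniversalEnvelopingAlgebra.lift_ι_apply K (A := Matrix (Idx n m) (Idx n m) K)
    { toFun := fun x => dD m (ρ x)
      map_add' := fun x y => by rw [map_add, dD_add]
      map_smul' := fun c x => by
        rw [map_smul, dD_smul]
        rfl
      map_lie' := fun {x y} => by
        rw [LieRing.of_associative_ring_bracket, hρ, dD_lie] } x

section

variable {κ : Type*} (bM : Module.Basis κ K (Module.Dual K (Matrix n n K)))

/-- the coordinate functions -/
noncomputable def yf : Matrix n n (MvPolynomial κ K) :=
  Matrix.of fun i j => lfn bM (Matrix.entryLinearMap K K i j)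

theorem vfb_yf (b : Matrix n n K) (i j : n) :
    vfb bM b (yf bM i j) = ∑ k, yf bM i k * C (b k j) := by
  have h : rm b (Matrix.entryLinearMap K K i j) = ∑ k, b k j • Matrix.entryLinearMap K K i k := by
    refine LinearMap.ext fun e => ?_
    rw [rm_apply, LinearMap.sum_apply]
    simp only [Matrix.entryLinearMap_apply, LinearMap.smul_apply, Matrix.mul_apply, smul_eq_mul]
    exact Finset.sum_congr rfl fun k _ => mul_comm _ _
  rw [yf, Matrix.of_apply, vfb_lfn, h, map_sum]
  refine Finset.sum_congr rfl fun k _ => ?_
  rw [map_smul, MvPolynomial.smul_eq_C_mul, mul_comm]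
  rfl

theorem vfb_tT (b : Matrix n n K) (m : ℕ) (I J : Idx n m) :
    vfb bM b (tT m (yf bM) I J) = ∑ L, tT m (yf bM) I L * C (dD m b L J) := by
  induction m with
  | zero =>
    have h : tT 0 (yf bM) I J = 1 := by
      rw [tT]
      exact Matrix.one_apply_eq _
    rw [h, Derivation.map_one_eq_zero]
    refine (Finset.sum_eq_zero fun L _ => ?_).symm
    rw [dD]
    simp
  | succ m ih =>
    obtain ⟨i, I⟩ := I
    obtain ⟨j, J⟩ := J
    rw [tT_succ_apply, Derivation.leibniz, ih, vfb_yf, smul_eq_mul, smul_eq_mul]
    have h : ∀ (k : n) (L : Idx n m), (dD (m + 1) b) ((k, L) : n × Idx n m) ((j, J) : n × Idx n m) =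
        b k j * (1 : Matrix (Idx n m) (Idx n m) K) L J + (1 : Matrix n n K) k j * dD m b L J :=
      fun k L => rfl
    have h2 : ∑ L : Idx n (m + 1), tT (m + 1) (yf bM) ((i, I) : n × Idx n m) L *
        C (dD (m + 1) b L ((j, J) : n × Idx n m)) =
        ∑ k : n, ∑ L : Idx n m, (yf bM i k * tT m (yf bM) I L) *
          C (b k j * (1 : Matrix (Idx n m) (Idx n m) K) L J +
            (1 : Matrix n n K) k j * dD m b L J) := by
      rw [← Fintype.sum_prod_type']
      refine Finset.sum_congr rfl fun x _ => ?_
      obtain ⟨k, L⟩ := x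
      rw [← h, tT_succ_apply]
    rw [h2]
    simp only [map_add, map_mul, mul_add, Finset.sum_add_distrib]
    rw [add_comm]
    congr 1
    · rw [Finset.mul_sum]
      refine Finset.sum_congr rfl fun k _ => ?_
      rw [Finset.sum_eq_single J]
      · rw [Matrix.one_apply_eq, map_one, mul_one]
        ring
      · intro L _ hL
        rw [Matrix.one_apply_ne hL, map_zero, mul_zero, mul_zero]
      · intro h
        exact absurd (Finset.mem_univ _) h
    · rw [Finset.sum_eq_single j]
      · rw [Finset.mul_sum]
        refine Finset.sum_congr rfl fun L _ => ?_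
        rw [Matrix.one_apply_eq, map_one, one_mul]
        ring
      · intro k _ hk
        refine Finset.sum_eq_zero fun L _ => ?_
        rw [Matrix.one_apply_ne hk, map_zero, zero_mul, mul_zero]
      · intro h
        exact absurd (Finset.mem_univ _) h

theorem opU_tT (u : Ue K L) (m : ℕ) (I J : Idx n m) :
    opU bM ρ hρ u (tT m (yf bM) I J) = ∑ L, tT m (yf bM) I L * C (repU ρ hρ m u L J) := by
  obtain ⟨t, rfl⟩ : ∃ t, pU t = u := RingCon.mk'_surjective _ u
  induction t using TensorAlgebra.induction generalizing I J with
  | algebraMap r =>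
    rw [AlgHom.commutes, AlgHom.commutes, AlgHom.commutes, Algebra.algebraMap_eq_smul_one,
      Algebra.algebraMap_eq_smul_one, LinearMap.smul_apply, Module.End.one_apply,
      Finset.sum_eq_single J]
    · rw [Matrix.smul_apply, Matrix.one_apply_eq, smul_eq_mul, mul_one,
        MvPolynomial.smul_eq_C_mul, mul_comm]
    · intro L _ hL
      rw [Matrix.smul_apply, Matrix.one_apply_ne hL, smul_zero, map_zero, mul_zero]
    · intro h
      exact absurd (Finset.mem_univ _) h
  | ι x =>
    rw [pU_ι, Pool.Agent.helper49.QA.opU_ι, repU_ι, vfL_apply, vfb_tT]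
  | mul a b ha hb =>
    rw [map_mul (pU (𝕜 := K) (L := L)), map_mul (opU bM ρ hρ), Module.End.mul_apply, hb, map_sum,
      map_mul (repU ρ hρ m)]
    have h : ∀ M, opU bM ρ hρ (pU a) (tT m (yf bM) I M * C (repU ρ hρ m (pU b) M J)) =
        ∑ L, tT m (yf bM) I L * C (repU ρ hρ m (pU a) L M * repU ρ hρ m (pU b) M J) := by
      intro M
      rw [mul_comm, ← MvPolynomial.smul_eq_C_mul, map_smul, ha, MvPolynomial.smul_eq_C_mul,
        Finset.mul_sum]
      refine Finset.sum_congr rfl fun L _ => ?_
      rw [C_mul]
      ring
    simp only [h]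
    rw [Finset.sum_comm]
    refine Finset.sum_congr rfl fun L _ => ?_
    rw [← Finset.mul_sum, ← map_sum, Matrix.mul_apply]
  | add a b ha hb =>
    rw [map_add (pU (𝕜 := K) (L := L)), map_add (opU bM ρ hρ), LinearMap.add_apply, ha, hb,
      map_add (repU ρ hρ m), ← Finset.sum_add_distrib]
    refine Finset.sum_congr rfl fun L _ => ?_
    rw [Matrix.add_apply, C_add, mul_add]

/-- the entries of the tensor powers of the generic matrix span all polynomial functions -/
theorem span_tT (W : Submodule K (MvPolynomial κ K))
    (hW : ∀ (m : ℕ) (I J : Idx n m), tT m (yf bM) I J ∈ W) : W = ⊤ := by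
  have hW' : ∀ p ∈ Submodule.span K {p | ∃ (m : ℕ) (I J : Idx n m), tT m (yf bM) I J = p}, p ∈ W := by
    intro p hp
    refine Submodule.span_le.2 ?_ hp
    rintro _ ⟨m, I, J, rfl⟩
    exact hW m I J
  have key : ∀ p : MvPolynomial κ K,
      p ∈ Submodule.span K {p | ∃ (m : ℕ) (I J : Idx n m), tT m (yf bM) I J = p} := by
    intro p
    induction p using MvPolynomial.induction_on with
    | C a =>
      have h : (C a : MvPolynomial κ K) = a • tT 0 (yf bM) PUnit.unit PUnit.unit := by
        rw [tT, MvPolynomial.smul_eq_C_mul]
        have : (1 : Matrix (Idx n 0) (Idx n 0) (MvPolynomial κ K)) PUnit.unit PUnit.unit = 1 :=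
          Matrix.one_apply_eq _
        rw [this, mul_one]
      rw [h]
      exact Submodule.smul_mem _ _ (Submodule.subset_span ⟨0, _, _, rfl⟩)
    | add p q hp hq => exact add_mem hp hq
    | mul_X p k hp =>
      have h1 : (X k : MvPolynomial κ K) = ∑ i, ∑ j, bM k (Matrix.single i j 1) • yf bM i j := by
        have h2 : bM k = ∑ i, ∑ j, bM k (Matrix.single i j 1) • Matrix.entryLinearMap K K i j := by
          refine LinearMap.ext fun e => ?_
          conv_lhs => rw [Matrix.matrix_eq_sum_single e]
          simp only [map_sum, LinearMap.sum_apply, LinearMap.smul_apply,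
            Matrix.entryLinearMap_apply, smul_eq_mul]
          refine Finset.sum_congr rfl fun i _ => Finset.sum_congr rfl fun j _ => ?_
          have h3 : Matrix.single i j (e i j) = e i j • Matrix.single i j (1 : K) := by
            rw [Matrix.smul_single, smul_eq_mul, mul_one]
          rw [h3, map_smul, smul_eq_mul, mul_comm]
        have h4 : (X k : MvPolynomial κ K) = lfn bM (bM k) := by
          rw [lfn, Module.Basis.constr_basis]
        rw [h4]
        conv_lhs => rw [h2]
        simp only [map_sum, map_smul]
        rfl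
      rw [h1, Finset.mul_sum]
      refine sum_mem fun i _ => ?_
      rw [Finset.mul_sum]
      refine sum_mem fun j _ => ?_
      rw [mul_smul_comm]
      refine Submodule.smul_mem _ _ ?_
      induction hp using Submodule.span_induction with
      | mem x hx =>
        obtain ⟨m, I, J, rfl⟩ := hx
        refine Submodule.subset_span ⟨m + 1, ((i, I) : n × Idx n m), ((j, J) : n × Idx n m), ?_⟩
        rw [tT_succ_apply, mul_comm]
      | zero => rw [zero_mul]; exact zero_mem _
      | add x y _ _ hx hy => rw [add_mul]; exact add_mem hx hy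
      | smul c x _ hx => rw [smul_mul_assoc]; exact Submodule.smul_mem _ _ hx
  rw [eq_top_iff]
  intro p _
  exact hW' p (key p)

end

/-- the tensor powers separate the elements of `U(L)` -/
theorem eq_zero_of_repU [CharZero K] (hinj : Function.Injective ρ) {u : Ue K L}
    (hu : ∀ m, repU ρ hρ m u = 0) : u = 0 := by
  refine eq_zero_of_op ρ hρ hinj ?_
  have h := span_tT (bD K (Matrix n n K)) (LinearMap.ker (opU (bD K (Matrix n n K)) ρ hρ u)) (by
    intro m I J
    rw [LinearMap.mem_ker, opU_tT, hu m]
    refine Finset.sum_eq_zero fun L _ => ?_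
    rw [Matrix.zero_apply, map_zero, mul_zero])
  exact LinearMap.ker_eq_top.1 h

end Pool.Agent.helper61.QC
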