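import Mathlib
import Pool.Agent.helper61.QC.Blk
import Pool.Agent.helper61.QC.Rep
import Pool.Agent.helper90.MF.TAout

/-!
# Type C: the symmetrised minors of `x + s η` commute in `U(sp)`

The main results are `alt_commute` (in the common format) and `TC` (in the format of
`Pool.Agent.helper90.MF.TA`).
-/

set_option autoImplicit false
set_option linter.unusedSectionVars false
set_option linter.unusedSimpArgs false

namespace Pool.Agent.helper61.QC

open Matrix Equiv Pool.Agent.helper5.AS Pool.Agent.helper49.QA Pool.Agent.helper90.MF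

attribute [local instance 100] LieRing.ofAssociativeRing

universe u v w

section

variable {K : Type v} [Field K] [CharZero K] {n : Type u} [Fintype n] [DecidableEq n]
  (J : Matrix n n K)

/-- the symplectic Lie algebra of the form `J` -/
def spL (hJu : IsUnit J.det) : LieSubalgebra K (Matrix n n K) where
  carrier := {a | J⁻¹ * aᵀ * J = -a}
  add_mem' {a b} ha hb := by
    rw [Set.mem_ofPred_eq] at *
    rw [Matrix.transpose_add, mul_add, add_mul, ha, hb, neg_add]
  zero_mem' := by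
    rw [Set.mem_ofPred_eq, Matrix.transpose_zero, mul_zero, zero_mul, neg_zero]
  smul_mem' c a ha := by
    rw [Set.mem_ofPred_eq] at *
    rw [Matrix.transpose_smul, mul_smul_comm, smul_mul_assoc, ha, smul_neg]
  lie_mem' {a b} ha hb := by
    change J⁻¹ * aᵀ * J = -a at ha
    change J⁻¹ * bᵀ * J = -b at hb
    change J⁻¹ * (⁅a, b⁆)ᵀ * J = -⁅a, b⁆
    have h1 : J⁻¹ * (a * b)ᵀ * J = b * a := by
      rw [Matrix.transpose_mul]
      calc J⁻¹ * (bᵀ * aᵀ) * J = (J⁻¹ * bᵀ * J) * (J⁻¹ * aᵀ * J) := by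
            simp only [Matrix.mul_assoc]
            rw [← Matrix.mul_assoc J J⁻¹, Matrix.mul_nonsing_inv _ hJu, Matrix.one_mul]
        _ = b * a := by rw [ha, hb, neg_mul_neg]
    have h2 : J⁻¹ * (b * a)ᵀ * J = a * b := by
      rw [Matrix.transpose_mul]
      calc J⁻¹ * (aᵀ * bᵀ) * J = (J⁻¹ * aᵀ * J) * (J⁻¹ * bᵀ * J) := by
            simp only [Matrix.mul_assoc]
            rw [← Matrix.mul_assoc J J⁻¹, Matrix.mul_nonsing_inv _ hJu, Matrix.one_mul]
        _ = a * b := by rw [ha, hb, neg_mul_neg]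
    rw [LieRing.of_associative_ring_bracket, Matrix.transpose_sub, mul_sub, sub_mul, h1, h2,
      neg_sub]

variable {J} (hJ : Jᵀ = -J) (hJu : IsUnit J.det)

theorem mem_spL (a : Matrix n n K) : a ∈ spL J hJu ↔ J⁻¹ * aᵀ * J = -a := Iff.rfl

include hJ hJu in
theorem star_star (a : Matrix n n K) : J⁻¹ * (J⁻¹ * aᵀ * J)ᵀ * J = a := by
  rw [Matrix.transpose_mul, Matrix.transpose_mul, Matrix.transpose_transpose,
    Matrix.transpose_nonsing_inv, hJ]
  have h1 : (-J)⁻¹ = -J⁻¹ := by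
    apply Matrix.inv_eq_right_inv
    rw [neg_mul_neg, Matrix.mul_nonsing_inv _ hJu]
  rw [h1]
  calc J⁻¹ * (-J * (a * -J⁻¹)) * J = (J⁻¹ * J) * a * (J⁻¹ * J) := by
        simp only [Matrix.mul_assoc, neg_mul, mul_neg, neg_neg]
    _ = a := by rw [Matrix.nonsing_inv_mul _ hJu, one_mul, mul_one]

include hJ in
theorem Yp_mem (a : Matrix n n K) : Yp J a ∈ spL J hJu := by
  rw [mem_spL, Yp_apply, Matrix.transpose_smul, mul_smul_comm, smul_mul_assoc,
    Matrix.transpose_sub, mul_sub, sub_mul, star_star hJ hJu, ← smul_neg, neg_sub]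

/-- the projection to the symplectic Lie algebra -/
noncomputable def Y0 : Matrix n n K →ₗ[K] spL J hJu :=
  LinearMap.codRestrict (spL J hJu).toSubmodule (Yp J) (Yp_mem hJ hJu)

theorem Y0_coe (a : Matrix n n K) : (Y0 hJ hJu a : Matrix n n K) = Yp J a := rfl

/-- the inclusion -/
noncomputable def rh : spL J hJu →ₗ[K] Matrix n n K := (spL J hJu).toSubmodule.subtype

theorem rh_lie : IsLieMap (rh hJu) := fun _ _ => rfl

theorem rh_inj : Function.Injective (rh hJu) := Subtype.val_injective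

/-- the matrix `x + s η` over `U(sp)` -/
noncomputable def AsU (f : Matrix n n K →ₗ[K] K) (s : K) : Matrix n n (Ue K (spL J hJu)) :=
  Matrix.of fun a b => ιU K _ (Y0 hJ hJu (Matrix.single b a 1)) +
    algebraMap K _ (s * f (Matrix.single b a 1))

theorem AsU_map (f : Matrix n n K →ₗ[K] K) (s : K) (m : ℕ) :
    (AsU hJ hJu f s).map (repU (rh hJu) (rh_lie hJu) m) = As J f m s := by
  ext1 a b
  rw [Matrix.map_apply, AsU, Matrix.of_apply, map_add, repU_ι, AlgHom.commutes, As,
    Matrix.of_apply, Algebra.algebraMap_eq_smul_one]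
  rfl

theorem Dk_eq_altG {n : Type*} [Fintype n] [DecidableEq n] {E : Type*} [Ring E] (k : ℕ)
    (A : Matrix n n E) : Dk k A = altG k (fun _ => A) := by
  rw [Dk, altG]
  refine Finset.sum_congr rfl fun i _ => Finset.sum_congr rfl fun τ _ => ?_
  rw [zsmul_eq_mul]

theorem Dk_zero {n : Type*} [Fintype n] [DecidableEq n] {E : Type*} [Ring E] {k : ℕ}
    (hk : Fintype.card n < k) (A : Matrix n n E) : Dk k A = 0 := by
  rw [Dk_eq_altG, altG]
  refine Finset.sum_eq_zero fun i _ => altG_inner_eq_zero _ fun h => ?_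
  have := Fintype.card_le_of_injective i h
  rw [Fintype.card_fin] at this
  omega

theorem l2_cast {N N' : ℕ} (h : N' = N) (e : Fin N ≃ n) :
    l2 ((finCongr h).trans e) = l2 e := by
  subst h
  rfl

theorem rep_commute (f : Matrix n n K →ₗ[K] K)
    (hf : ∀ a, f (J⁻¹ * aᵀ * J) = -f a) (m k k' : ℕ) {s s' : K} (hs : s ≠ 0) (hs' : s' ≠ 0)
    (hne : s ≠ s') (hk : k ≤ Fintype.card n) (hk' : k' ≤ Fintype.card n)
    (hJ : Jᵀ = -J) (hJu : IsUnit J.det) :
    Commute (altG k (fun _ => As J f m s)) (altG k' (fun _ => As J f m s')) := by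
  obtain ⟨i, hi⟩ := Nat.exists_eq_add_of_le hk
  obtain ⟨i', hi'⟩ := Nat.exists_eq_add_of_le hk'
  let e : Fin (k + i) ≃ n := (finCongr hi.symm).trans (Fintype.equivFin n).symm
  have h' : k' + i' = k + i := by omega
  let e' : Fin (k' + i') ≃ n := (finCongr h').trans e
  have he : l2 e' = l2 e := l2_cast h' e
  have g1 : s * (-2 * (-(2 * s)⁻¹)) = 1 := by
    field_simp
  have g2 : s' * (-2 * (-(2 * s')⁻¹)) = 1 := by
    field_simp
  obtain ⟨c, hc, h1⟩ := berM_PP J hJ hJu f hf m e g1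
  obtain ⟨c', hc', h2⟩ := berM_PP J hJ hJu f hf m e' g2
  have h3 : altG k (fun _ => As J f m s) = c⁻¹ • berM (l2 e).reverse (PP J f m i (-(2 * s)⁻¹)) := by
    rw [h1, smul_smul, inv_mul_cancel₀ hc, one_smul]
  have h4 : altG k' (fun _ => As J f m s') =
      c'⁻¹ • berM (l2 e).reverse (PP J f m i' (-(2 * s')⁻¹)) := by
    rw [← he, h2, smul_smul, inv_mul_cancel₀ hc', one_smul]
  rw [h3, h4]
  refine Commute.smul_left (Commute.smul_right (berM_commute J hJ hJu f hf m i i' ?_ ?_ ?_ ?_ ?_)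
    _) _
  · exact neg_ne_zero.2 (inv_ne_zero (mul_ne_zero two_ne_zero hs))
  · exact neg_ne_zero.2 (inv_ne_zero (mul_ne_zero two_ne_zero hs'))
  · intro h
    apply hne
    have h5 := inv_injective (neg_injective h)
    exact mul_left_cancel₀ two_ne_zero h5
  · intro a
    rw [List.mem_reverse]
    exact mem_l2 e a
  · rw [List.length_reverse]
    exact length_l2 e

theorem Dk_commute_ne (f : Matrix n n K →ₗ[K] K)
    (hf : ∀ a, f (J⁻¹ * aᵀ * J) = -f a) (k k' : ℕ) {s s' : K} (hs : s ≠ 0) (hs' : s' ≠ 0)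
    (hne : s ≠ s') : Commute (Dk k (AsU hJ hJu f s)) (Dk k' (AsU hJ hJu f s')) := by
  by_cases hk : k ≤ Fintype.card n
  · by_cases hk' : k' ≤ Fintype.card n
    · rw [Commute, SemiconjBy, ← sub_eq_zero]
      refine eq_zero_of_repU (rh hJu) (rh_lie hJu) (rh_inj hJu) fun m => ?_
      have h : ∀ (k : ℕ) (s : K), repU (rh hJu) (rh_lie hJu) m (Dk k (AsU hJ hJu f s)) =
          altG k (fun _ => As J f m s) := by
        intro k s
        have h1 := Dk_map (repU (rh hJu) (rh_lie hJu) m).toRingHom k (AsU hJ hJu f s)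
        refine h1.trans ?_
        rw [← Dk_eq_altG, ← AsU_map hJ hJu]
        rfl
      rw [map_sub, map_mul, map_mul, h, h, sub_eq_zero]
      exact rep_commute f hf m k k' hs hs' hne hk hk' hJ hJu
    · rw [Dk_zero (not_le.1 hk') (AsU hJ hJu f s')]
      exact Commute.zero_right _
  · rw [Dk_zero (not_le.1 hk) (AsU hJ hJu f s)]
    exact Commute.zero_left _

end

/-! ## extraction of the coefficients -/

section Extract

variable {K : Type*} [Field K] [Infinite K]

theorem coeff_zero_fin {M : Type*} [AddCommGroup M] [Module K M] (N : ℕ) (v : ℕ → M)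
    (T : Set K) (hT : T.Finite) (h : ∀ t ∉ T, ∑ m ∈ Finset.range N, t ^ m • v m = 0) :
    ∀ m < N, v m = 0 := by
  intro m hm
  rw [← Module.forall_dual_apply_eq_zero_iff K]
  intro χ
  set p : Polynomial K := ∑ m ∈ Finset.range N, Polynomial.C (χ (v m)) * Polynomial.X ^ m with hp
  have h1 : p = 0 := by
    refine Polynomial.eq_zero_of_infinite_isRoot p ?_
    refine Set.Infinite.mono (s := Tᶜ) ?_ hT.infinite_compl
    intro t ht
    have h2 := congrArg χ (h t ht)
    rw [map_sum, map_zero] at h2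
    show p.eval t = 0
    rw [hp, Polynomial.eval_finsetSum, ← h2]
    refine Finset.sum_congr rfl fun m _ => ?_
    rw [map_smul, smul_eq_mul, Polynomial.eval_mul, Polynomial.eval_C, Polynomial.eval_pow,
      Polynomial.eval_X, mul_comm]
  have h3 := congrArg (fun q : Polynomial K => q.coeff m) h1
  simp only [Polynomial.coeff_zero] at h3
  rw [hp, Polynomial.finsetSum_coeff] at h3
  simp only [Polynomial.coeff_C_mul_X_pow] at h3
  rw [Finset.sum_ite_eq, if_pos (Finset.mem_range.2 hm)] at h3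
  exact h3

variable {R : Type*} [Ring R] [Algebra K R]

theorem commute_coeff_ne (N : ℕ) (v w : ℕ → R)
    (h : ∀ s t : K, s ≠ 0 → t ≠ 0 → s ≠ t → Commute (∑ m ∈ Finset.range N, s ^ m • v m)
      (∑ m ∈ Finset.range N, t ^ m • w m))
    {m m' : ℕ} (hm : m < N) (hm' : m' < N) : Commute (v m) (w m') := by
  have e1 : ∀ (s : K) (v : ℕ → R) (y : R), ∑ m ∈ Finset.range N, s ^ m • (v m * y) =
      (∑ m ∈ Finset.range N, s ^ m • v m) * y := fun s v y => by
    rw [Finset.sum_mul]
    exact Finset.sum_congr rfl fun m _ => (smul_mul_assoc _ _ _).symm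
  have e2 : ∀ (s : K) (v : ℕ → R) (y : R), ∑ m ∈ Finset.range N, s ^ m • (y * v m) =
      y * (∑ m ∈ Finset.range N, s ^ m • v m) := fun s v y => by
    rw [Finset.mul_sum]
    exact Finset.sum_congr rfl fun m _ => (mul_smul_comm _ _ _).symm
  have h1 : ∀ t : K, t ≠ 0 → Commute (v m) (∑ m ∈ Finset.range N, t ^ m • w m) := by
    intro t ht
    have h2 := coeff_zero_fin (K := K) N (fun m => v m * (∑ m ∈ Finset.range N, t ^ m • w m) -
      (∑ m ∈ Finset.range N, t ^ m • w m) * v m) {0, t} (Set.toFinite _) (by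
        intro s hs
        rw [Set.mem_insert_iff, Set.mem_singleton_iff, not_or] at hs
        simp only [smul_sub, Finset.sum_sub_distrib]
        rw [e1, e2, sub_eq_zero]
        exact h s t hs.1 ht hs.2) m hm
    exact sub_eq_zero.1 h2
  have h3 := coeff_zero_fin (K := K) N (fun m' => v m * w m' - w m' * v m) {0}
    (Set.toFinite _) (by
    intro t ht
    rw [Set.mem_singleton_iff] at ht
    simp only [smul_sub, Finset.sum_sub_distrib]
    rw [e1, e2, sub_eq_zero]
    exact h1 t ht) m' hm'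
  exact sub_eq_zero.1 h3

theorem commute_coeff_ne' (p q : Polynomial R) (h : ∀ s t : K, s ≠ 0 → t ≠ 0 → s ≠ t →
    Commute (evK R s p) (evK R t q)) (m m' : ℕ) : Commute (p.coeff m) (q.coeff m') := by
  set N := p.natDegree + q.natDegree + m + m' + 1 with hN
  refine commute_coeff_ne (K := K) N (fun m => p.coeff m) (fun m => q.coeff m)
    (fun s t h1 h2 h3 => ?_) (by omega) (by omega)
  rw [← evK_apply s p N (by omega), ← evK_apply t q N (by omega)]
  exact h s t h1 h2 h3

end Extract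

/-! ## the main results -/

section

variable {K : Type v} [Field K] [CharZero K] {n : Type u} [Fintype n] [DecidableEq n]
  {J : Matrix n n K} {L : Type w} [LieRing L] [LieAlgebra K L]

theorem evK_xUt {A : Type*} [LieRing A] [LieAlgebra K A] (Y : Matrix n n K →ₗ[K] A)
    (ξ : A →ₗ[K] K) (k : ℕ) (t : K) : evK (Ue K A) t (Dk k (xUt K Y ξ)) =
      Dk k (Matrix.of fun i j => ιU K A (Y (Matrix.single j i 1)) +
        algebraMap K (Ue K A) (t * ξ (Y (Matrix.single j i 1)))) := by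
  rw [Dk_map]
  congr 1
  ext i j : 1
  rw [Matrix.map_apply, xUt, Matrix.of_apply, map_add, map_mul, evK_C, evK_C, evK_X,
    Matrix.of_apply, xU, Matrix.of_apply, xiHat, Matrix.of_apply, map_mul]
  congr 1
  exact (Algebra.commutes _ _).symm

/-- **type C** (output TC): the elements `D_k (x + t ξ)` have commuting coefficients -/
theorem TC (hJ : Jᵀ = -J) (hJu : IsUnit J.det) (Y : Matrix n n K →ₗ[K] L)
    (hY0 : ∀ a, Y (J⁻¹ * aᵀ * J) = -Y a)
    (hY : ∀ a b, J⁻¹ * aᵀ * J = -a → J⁻¹ * bᵀ * J = -b → ⁅Y a, Y b⁆ = Y (a * b - b * a))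
    (ξ : L →ₗ[K] K) (k m k' m' : ℕ) :
    Commute ((Dk k (xUt K Y ξ)).coeff m) ((Dk k' (xUt K Y ξ)).coeff m') := by
  let Y' : spL J hJu →ₗ⁅K⁆ L :=
    { toFun := fun a => Y a
      map_add' := fun a b => Y.map_add _ _
      map_smul' := fun c a => Y.map_smul _ _
      map_lie' := fun {a b} => (hY a b a.2 b.2).symm }
  let f : Matrix n n K →ₗ[K] K := ξ ∘ₗ Y
  have hf : ∀ a, f (J⁻¹ * aᵀ * J) = -f a := by
    intro a
    show ξ (Y _) = -ξ (Y a)
    rw [hY0, map_neg]
  have hYY : ∀ a, Y' (Y0 hJ hJu a) = Y a := by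
    intro a
    show Y (Yp J a) = Y a
    rw [Yp_apply, map_smul, map_sub, hY0, sub_neg_eq_add, ← two_smul K, smul_smul,
      inv_mul_cancel₀ two_ne_zero, one_smul]
  have key : ∀ (k : ℕ) (t : K), evK (Ue K L) t (Dk k (xUt K Y ξ)) =
      mapU K Y' (Dk k (AsU hJ hJu f t)) := by
    intro k t
    have h2 : mapU K Y' (Dk k (AsU hJ hJu f t)) =
        Dk k ((AsU hJ hJu f t).map (mapU K Y').toRingHom) :=
      Dk_map (mapU K Y').toRingHom k (AsU hJ hJu f t)
    rw [h2, evK_xUt]
    congr 1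
    ext i j : 1
    rw [Matrix.map_apply, Matrix.of_apply, AsU, Matrix.of_apply, AlgHom.toRingHom_eq_coe,
      RingHom.coe_coe, map_add, mapU_ι, AlgHom.commutes, hYY]
    rfl
  refine commute_coeff_ne' (K := K) _ _ (fun s t hs ht hst => ?_) m m'
  rw [key, key]
  exact (Dk_commute_ne hJ hJu f hf k k' hs ht hst).map (mapU K Y')

/-- **type C** in the common format -/
theorem alt_commute (hJ : Jᵀ = -J) (hJu : IsUnit J.det) (Y : Matrix n n K →ₗ[K] L)
    (hY0 : ∀ a, Y (J⁻¹ * aᵀ * J) = -Y a)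
    (hY : ∀ a b, J⁻¹ * aᵀ * J = -a → J⁻¹ * bᵀ * J = -b → ⁅Y a, Y b⁆ = Y (a * b - b * a))
    (ξ : L →ₗ[K] K) (s t : K) (k l : ℕ) :
    Commute (altD k (Matrix.of fun i j => ιU K L (Y (Matrix.single j i 1)) +
        algebraMap K (Ue K L) (s * ξ (Y (Matrix.single j i 1)))))
      (altD l (Matrix.of fun i j => ιU K L (Y (Matrix.single j i 1)) +
        algebraMap K (Ue K L) (t * ξ (Y (Matrix.single j i 1))))) := by
  rw [altD_eq_Dk, altD_eq_Dk, ← evK_xUt, ← evK_xUt,
    evK_apply s _ _ (Nat.lt_succ_self _), evK_apply t _ _ (Nat.lt_succ_self _)]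
  refine Commute.sum_left _ _ _ fun m _ => Commute.sum_right _ _ _ fun m' _ => ?_
  exact Commute.smul_left (Commute.smul_right (TC hJ hJu Y hY0 hY ξ k m l m') _) _

/-- the same for the bracket of the projection to the symplectic Lie algebra -/
theorem TC' (hJ : Jᵀ = -J) (hJu : IsUnit J.det) (Y : Matrix n n K →ₗ[K] L)
    (hY0 : ∀ a, Y (J⁻¹ * aᵀ * J) = -Y a)
    (hY : ∀ a b, ⁅Y a, Y b⁆ = Y (a * ((2 : K)⁻¹ • (b - J⁻¹ * bᵀ * J)) -
      ((2 : K)⁻¹ • (b - J⁻¹ * bᵀ * J)) * a)) (ξ : L →ₗ[K] K) (k m k' m' : ℕ) :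
    Commute ((Dk k (xUt K Y ξ)).coeff m) ((Dk k' (xUt K Y ξ)).coeff m') := by
  refine TC hJ hJu Y hY0 (fun a b _ hb => ?_) ξ k m k' m'
  have h : (2 : K)⁻¹ • (b - J⁻¹ * bᵀ * J) = b := by
    rw [hb, sub_neg_eq_add, ← two_smul K, smul_smul, inv_mul_cancel₀ two_ne_zero, one_smul]
  rw [hY, h]

end

end Pool.Agent.helper61.QC
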